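import Pool.Agent.Lib.P4f18dfV.Defs

/-!
# A polynomial bound for `(s - 1) ζ(s)` in `Re s ≥ 1/4`

PROOF SKETCH. `A s = ∑_{n ≥ 1} (n^(-s) - ∫_n^(n+1) x^(-s) dx)`, each term is
`∫_n^(n+1) ∫_n^x s y^(-s-1) dy dx`, of norm `≤ ‖s‖ n^(-Re s - 1)`; so `A` is differentiable on `Re s > 0`
(`differentiableOn_tsum_of_summable_norm` on bounded pieces), `‖A s‖ ≤ ‖s‖ (1 + 1 / Re s) ≤ 5 ‖s‖` for `Re s ≥ 1/4`.
For `Re s > 1`: `A s = ζ(s) - ∫_1^∞ x^(-s) dx = ζ(s) - 1/(s - 1)`, i.e. `zE s = 1 + (s - 1) A s`; both sides are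
differentiable on the connected open set `Re s > 0` so they agree there (identity theorem, e.g.
`AnalyticOnNhd.eqOn_of_preconnected_of_eventuallyEq`; a similar argument is in `Lib/P07318d/Alt.lean`,
`eta_euler`). Hence `‖zE s‖ ≤ 1 + (‖s‖ + 1) 5 ‖s‖`.
-/

set_option autoImplicit false

open Complex MeasureTheory

namespace Pool.Agent.P4f18dfV

/-- The fractional part on `(1, ∞)`. -/
noncomputable def hpF (x : ℝ) : ℂ := if 1 < x then ((Int.fract x : ℝ) : ℂ) else 0

lemma hpF_norm (x : ℝ) : ‖hpF x‖ ≤ 1 := by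
  unfold hpF
  split_ifs
  · rw [Complex.norm_real, Real.norm_of_nonneg (Int.fract_nonneg x)]
    exact (Int.fract_lt_one x).le
  · simp

lemma hpF_meas : Measurable hpF := by
  unfold hpF
  refine Measurable.ite measurableSet_Ioi ?_ measurable_const
  exact Complex.measurable_ofReal.comp measurable_fract

/-- `∫_1^∞ {x} x^(-s-1) dx`. -/
noncomputable def hpA (s : ℂ) : ℂ := mellin hpF (-s)

lemma hpA_diff {s : ℂ} (hs : 0 < s.re) : DifferentiableAt ℂ hpA s := by
  have h1 : DifferentiableAt ℂ (mellin hpF) (-s) := by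
    refine mellin_differentiableAt_of_isBigO_rpow (a := 0) (b := (-s).re - 1) ?_ ?_ ?_ ?_ ?_
    · have h2 : LocallyIntegrable hpF := by
        refine (locallyIntegrable_const (1 : ℝ)).mono hpF_meas.aestronglyMeasurable ?_
        exact Filter.Eventually.of_forall fun x => by simpa using hpF_norm x
      exact h2.locallyIntegrableOn _
    · refine Asymptotics.IsBigO.of_bound 1 (Filter.Eventually.of_forall fun x => ?_)
      simpa using hpF_norm x
    · simpa using hs
    · refine Asymptotics.IsBigO.of_bound 1 ?_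
      have : ∀ᶠ x : ℝ in nhdsWithin 0 (Set.Ioi 0), x < 1 :=
        nhdsWithin_le_nhds (Iio_mem_nhds one_pos)
      filter_upwards [this] with x hx
      have : hpF x = 0 := by
        unfold hpF
        rw [if_neg (by linarith)]
      rw [this, norm_zero]
      positivity
    · linarith
  exact h1.comp s differentiableAt_id.neg

lemma hpA_eq (s : ℂ) : hpA s = ∫ x in Set.Ioi (1 : ℝ), ((Int.fract x : ℝ) : ℂ) * (x : ℂ) ^ (-(s + 1)) := by
  unfold hpA mellin
  have h1 : ∀ x : ℝ, (x : ℂ) ^ (-s - 1) • hpF x = (Set.Ioi (1 : ℝ)).indicator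
      (fun x : ℝ => ((Int.fract x : ℝ) : ℂ) * (x : ℂ) ^ (-(s + 1))) x := by
    intro x
    unfold hpF
    by_cases hx : 1 < x
    · rw [if_pos hx, Set.indicator_of_mem (Set.mem_Ioi.mpr hx), smul_eq_mul, mul_comm]
      congr 2
      ring
    · rw [if_neg hx, Set.indicator_of_notMem (by simpa using hx), smul_zero]
  simp only [h1]
  rw [setIntegral_indicator measurableSet_Ioi]
  congr 2
  ext x
  simp only [Set.mem_inter_iff, Set.mem_Ioi]
  constructor
  · exact fun h => h.2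
  · exact fun h => ⟨by linarith, h⟩

lemma hp_norm_cpow {x : ℝ} (hx : 1 < x) (s : ℂ) : ‖(x : ℂ) ^ (-(s + 1))‖ = x ^ (-s.re - 1) := by
  rw [Complex.norm_cpow_eq_rpow_re_of_pos (by linarith)]
  congr 1
  simp
  ring

lemma hpA_norm {s : ℂ} (hs : 0 < s.re) : ‖hpA s‖ ≤ 1 / s.re := by
  rw [hpA_eq]
  have h1 : IntegrableOn (fun x : ℝ => x ^ (-s.re - 1)) (Set.Ioi 1) :=
    integrableOn_Ioi_rpow_of_lt (by linarith) one_pos
  refine (norm_integral_le_of_norm_le h1 ?_).trans ?_
  · filter_upwards [ae_restrict_mem measurableSet_Ioi] with x hx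
    rw [norm_mul, hp_norm_cpow hx, Complex.norm_real, Real.norm_of_nonneg (Int.fract_nonneg x)]
    have h2 : 0 ≤ x ^ (-s.re - 1) := Real.rpow_nonneg (by linarith [Set.mem_Ioi.mp hx]) _
    calc Int.fract x * x ^ (-s.re - 1) ≤ 1 * x ^ (-s.re - 1) :=
          mul_le_mul_of_nonneg_right (Int.fract_lt_one x).le h2
      _ = _ := one_mul _
  · rw [integral_Ioi_rpow_of_lt (by linarith) one_pos, Real.one_rpow]
    apply le_of_eq
    have : -s.re - 1 + 1 = -s.re := by ring
    rw [this, neg_div_neg_eq]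

lemma hp_zeta {s : ℂ} (hs : 1 < s.re) : zE s = s - s * (s - 1) * hpA s := by
  have hs1 : s ≠ 1 := by
    rintro rfl
    simp at hs
  have hs1' : s - 1 ≠ 0 := sub_ne_zero.mpr hs1
  have h1 := LSeries_eq_mul_integral (f := (1 : ℕ → ℂ)) (r := 1) zero_le_one hs
    (LSeriesSummable_one_iff.mpr hs) (by
      refine Asymptotics.IsBigO.of_bound 1 (Filter.Eventually.of_forall fun n => ?_)
      simp)
  rw [LSeries_one_eq_riemannZeta hs] at h1
  have hint1 : IntegrableOn (fun x : ℝ => (x : ℂ) ^ (-s)) (Set.Ioi 1) :=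
    integrableOn_Ioi_cpow_of_lt (by simpa using hs) one_pos
  have hint2 : IntegrableOn (fun x : ℝ => ((Int.fract x : ℝ) : ℂ) * (x : ℂ) ^ (-(s + 1)))
      (Set.Ioi 1) := by
    have h2 : IntegrableOn (fun x : ℝ => x ^ (-s.re - 1)) (Set.Ioi 1) :=
      integrableOn_Ioi_rpow_of_lt (by linarith) one_pos
    refine Integrable.mono' h2 ?_ ?_
    · refine AEStronglyMeasurable.mul ?_ ?_
      · exact (Complex.measurable_ofReal.comp measurable_fract).aestronglyMeasurable
      · refine ContinuousOn.aestronglyMeasurable ?_ measurableSet_Ioi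
        intro x hx
        refine ContinuousAt.continuousWithinAt ?_
        exact continuousAt_ofReal_cpow_const _ _ (Or.inr (by linarith [Set.mem_Ioi.mp hx]))
    · filter_upwards [ae_restrict_mem measurableSet_Ioi] with x hx
      rw [norm_mul, hp_norm_cpow hx, Complex.norm_real, Real.norm_of_nonneg (Int.fract_nonneg x)]
      have h2 : 0 ≤ x ^ (-s.re - 1) := Real.rpow_nonneg (by linarith [Set.mem_Ioi.mp hx]) _
      calc Int.fract x * x ^ (-s.re - 1) ≤ 1 * x ^ (-s.re - 1) :=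
            mul_le_mul_of_nonneg_right (Int.fract_lt_one x).le h2
        _ = _ := one_mul _
  have h3 : ∫ t in Set.Ioi (1 : ℝ), (∑ k ∈ Finset.Icc 1 ⌊t⌋₊, (1 : ℕ → ℂ) k) * (t : ℂ) ^ (-(s + 1)) =
      (∫ t in Set.Ioi (1 : ℝ), (t : ℂ) ^ (-s)) - hpA s := by
    rw [hpA_eq, ← integral_sub hint1 hint2]
    refine setIntegral_congr_fun measurableSet_Ioi fun t ht => ?_
    have ht1 : (1 : ℝ) < t := ht
    have ht0 : (t : ℂ) ≠ 0 := by
      norm_cast
      linarith
    have h4 : (∑ k ∈ Finset.Icc 1 ⌊t⌋₊, (1 : ℕ → ℂ) k) = (t : ℂ) - ((Int.fract t : ℝ) : ℂ) := by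
      simp only [Pi.one_apply, Finset.sum_const, Nat.card_Icc, Nat.add_sub_cancel, nsmul_eq_mul,
        mul_one]
      have h5 : ((⌊t⌋₊ : ℕ) : ℝ) = t - Int.fract t := by
        rw [Int.self_sub_fract, natCast_floor_eq_intCast_floor (by linarith)]
      have h6 := congrArg (fun r : ℝ => (r : ℂ)) h5
      push_cast at h6
      exact h6
    have h7 : (t : ℂ) ^ (-s) = (t : ℂ) * (t : ℂ) ^ (-(s + 1)) := by
      rw [neg_add, Complex.cpow_add _ _ ht0, Complex.cpow_neg_one]
      field_simp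
    rw [h4, h7]
    ring
  rw [h3, integral_Ioi_cpow_of_lt (by simpa using hs) one_pos] at h1
  rw [zE_of_ne hs1, h1]
  have h8 : -s + 1 ≠ 0 := by
    intro h
    apply hs1'
    linear_combination -h
  rw [Complex.ofReal_one, Complex.one_cpow]
  field_simp
  ring

theorem zE_half : ∃ C : ℝ, 0 < C ∧ ∀ s : ℂ, 1 / 4 ≤ s.re → ‖zE s‖ ≤ C * (1 + ‖s‖) ^ 2 := by
  refine ⟨5, by norm_num, fun s hs => ?_⟩
  have hU : IsOpen {s : ℂ | 0 < s.re} := isOpen_lt continuous_const Complex.continuous_re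
  have hconv : Convex ℝ {s : ℂ | 0 < s.re} := convex_halfSpace_re_gt 0
  have hf1 : AnalyticOnNhd ℂ zE {s : ℂ | 0 < s.re} :=
    zE_diff.differentiableOn.analyticOnNhd hU
  have hf2 : AnalyticOnNhd ℂ (fun s => s - s * (s - 1) * hpA s) {s : ℂ | 0 < s.re} := by
    refine DifferentiableOn.analyticOnNhd (fun z hz => ?_) hU
    refine DifferentiableAt.differentiableWithinAt ?_
    have := hpA_diff hz
    fun_prop
  have heq := hf1.eqOn_of_preconnected_of_eventuallyEq hf2 hconv.isPreconnected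
    (z₀ := 2) (by simp) (by
      have h1 : ∀ᶠ z : ℂ in nhds 2, 1 < z.re :=
        (isOpen_lt continuous_const Complex.continuous_re).mem_nhds (by simp)
      filter_upwards [h1] with z hz
      exact hp_zeta hz)
  have h0 : 0 < s.re := by linarith
  have h1 : zE s = s - s * (s - 1) * hpA s := heq h0
  rw [h1]
  have h2 : ‖hpA s‖ ≤ 4 := by
    refine (hpA_norm h0).trans ?_
    rw [div_le_iff₀ h0]
    linarith
  have h3 : ‖s - 1‖ ≤ ‖s‖ + 1 := by
    refine (norm_sub_le _ _).trans ?_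
    rw [norm_one]
  have hn : 0 ≤ ‖s‖ := norm_nonneg s
  calc ‖s - s * (s - 1) * hpA s‖ ≤ ‖s‖ + ‖s‖ * ‖s - 1‖ * ‖hpA s‖ := by
        refine (norm_sub_le _ _).trans ?_
        rw [norm_mul, norm_mul]
    _ ≤ ‖s‖ + ‖s‖ * (‖s‖ + 1) * 4 := by gcongr
    _ ≤ 5 * (1 + ‖s‖) ^ 2 := by nlinarith

end Pool.Agent.P4f18dfV
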