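import Pool.Agent.Lib.P4f18dfV.HalfPlane

/-!
# A crude bound for `(s - 1) ζ(s)` in vertical strips

PROOF SKETCH. For `Re s ≥ 1/4` use `zE_half` (`(1 + ‖s‖)² ≤ exp (2 ‖s‖) ≤ exp (2 |Im s| + 2 R)` and `R ≤ 2 R log R`).
For `Re s < 1/4` (so `s ≠ 1`): `zE s = (s - 1) ζ(s)` and, if `Im s ≠ 0`, the functional equation
(`riemannZeta_one_sub` at `1 - s`, `Re (1 - s) > 3/4`):
`ζ(s) = 2 (2π)^(s - 1) Γ(1 - s) cos (π (1 - s) / 2) ζ(1 - s)`, so
`zE s = - 2 (2π)^(s - 1) Γ(1 - s) cos (π (1 - s) / 2) (s - 1) / s * zE (1 - s)` (as `zE (1 - s) = - s ζ(1 - s)`).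
`‖Γ(1 - s)‖ ≤ Γ(1 - Re s) ≤ (R + 3)^(R + 3)`, i.e. `≤ exp (C R log R)` (integral representation; Gamma is increasing
after 2 and bounded on `[3/4, 2]`, `Γ(n + 1) = n! ≤ n^n`), `‖cos w‖ ≤ exp |Im w|`. The factor `(s - 1)/s` is bounded
for `|Im s| ≥ 1`; for `|Im s| ≤ 1` use e.g. the maximum principle / continuity: it is enough to prove the
bound for `|Im s| ≥ 1` and then for `|Im s| ≤ 1` by the maximum modulus principle on the disc of
centre `s.re` and radius 2 ... or directly: on `|Im s| ≤ 1`, `‖zE s‖ ≤ max` of `‖zE‖` on the circle `‖z - s‖ = r`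
for a suitable `r` (`Complex.norm_le_of_forall_mem_frontier_norm_le`); an elementary way: use the rectangle
`[-(R+1), R+1] x [-1, 1]` whose two vertical sides are handled by `zE_half` and by the functional equation
(there `|s| ≥ 1`), the horizontal ones by the first case. (Use `R + 2` instead of `R` where needed; only the
shape `exp (K (1 + |Im s|) + K R log R)` matters.)
-/

set_option autoImplicit false

open Complex MeasureTheory

namespace Pool.Agent.P4f18dfV

lemma norm_Gamma_le_re {w : ℂ} (hw : 0 < w.re) : ‖Complex.Gamma w‖ ≤ Real.Gamma w.re := by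
  rw [Complex.Gamma_eq_integral hw, Real.Gamma_eq_integral hw, Complex.GammaIntegral]
  refine (norm_integral_le_integral_norm _).trans_eq ?_
  apply setIntegral_congr_fun measurableSet_Ioi
  intro x hx
  have hx' : (0 : ℝ) < x := hx
  simp only [norm_mul]
  rw [Complex.norm_of_nonneg (Real.exp_pos _).le, norm_cpow_eq_rpow_re_of_pos hx', sub_re, one_re]

lemma norm_cos_le_exp (w : ℂ) : ‖Complex.cos w‖ ≤ Real.exp |w.im| := by
  rw [Complex.cos]
  have h1 : ‖Complex.exp (w * I)‖ ≤ Real.exp |w.im| := by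
    rw [Complex.norm_exp]
    apply Real.exp_le_exp.mpr
    simp only [mul_re, I_re, I_im, mul_zero, mul_one, zero_sub]
    exact neg_le_abs _
  have h2 : ‖Complex.exp (-w * I)‖ ≤ Real.exp |w.im| := by
    rw [Complex.norm_exp]
    apply Real.exp_le_exp.mpr
    simp only [mul_re, neg_re, neg_im, I_re, I_im, mul_zero, mul_one, zero_sub, neg_neg]
    exact le_abs_self _
  rw [norm_div]
  have h3 : ‖(2 : ℂ)‖ = 2 := by simp
  rw [h3, div_le_iff₀ (by norm_num)]
  calc ‖Complex.exp (w * I) + Complex.exp (-w * I)‖ ≤ _ := norm_add_le _ _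
    _ ≤ Real.exp |w.im| + Real.exp |w.im| := add_le_add h1 h2
    _ = _ := by ring

lemma zE_fe {w : ℂ} (hw : 0 < w.re) :
    (w - 1) * zE (1 - w) = - (2 * w * (2 * Real.pi) ^ (-w) * Complex.Gamma w *
      Complex.cos (Real.pi * w / 2) * zE w) := by
  by_cases h1 : w = 1
  · subst h1
    have : Complex.cos (Real.pi * 1 / 2) = 0 := by
      rw [mul_one]; exact Complex.cos_pi_div_two
    rw [this]; ring
  · have hne : ∀ n : ℕ, w ≠ -n := by
      intro n e
      rw [e] at hw
      simp at hw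
      have : (0:ℝ) ≤ n := Nat.cast_nonneg n
      linarith
    have hw0 : w ≠ 0 := by rintro rfl; simp at hw
    have h2 : (1 : ℂ) - w ≠ 1 := by
      intro e; apply hw0; linear_combination -e
    rw [zE_of_ne h1, zE_of_ne h2, riemannZeta_one_sub hne h1]
    ring

lemma gamma_bound {R x : ℝ} (hR : 2 ≤ R) (h1 : 3 / 4 ≤ x) (h2 : x ≤ R + 1) :
    Real.Gamma x ≤ Real.Gamma (3 / 4) + Real.exp (4 * R * Real.log R) := by
  have hN : x ≤ (⌈R⌉₊ : ℝ) + 1 := by
    have := Nat.le_ceil R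
    linarith
  have hconv := Real.convexOn_Gamma.le_max_of_mem_Icc (x := 3 / 4) (y := (⌈R⌉₊ : ℝ) + 1) (z := x)
    (by simp only [Set.mem_Ioi]; norm_num) (by simp only [Set.mem_Ioi]; positivity) ⟨h1, hN⟩
  have hG : Real.Gamma ((⌈R⌉₊ : ℝ) + 1) ≤ Real.exp (4 * R * Real.log R) := by
    rw [Real.Gamma_nat_eq_factorial]
    have hc : (⌈R⌉₊ : ℝ) ≤ R + 1 := (Nat.ceil_lt_add_one (by linarith)).le
    have hf : ((⌈R⌉₊).factorial : ℝ) ≤ (⌈R⌉₊ : ℝ) ^ ⌈R⌉₊ := by
      exact_mod_cast Nat.factorial_le_pow ⌈R⌉₊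
    have hR2 : R + 1 ≤ R ^ 2 := by nlinarith
    have hlog : 0 < Real.log R := Real.log_pos (by linarith)
    calc ((⌈R⌉₊).factorial : ℝ) ≤ (⌈R⌉₊ : ℝ) ^ ⌈R⌉₊ := hf
      _ ≤ (R ^ 2) ^ ⌈R⌉₊ := pow_le_pow_left₀ (Nat.cast_nonneg _) (hc.trans hR2) _
      _ = Real.exp (⌈R⌉₊ * (2 * Real.log R)) := by
          rw [Real.exp_nat_mul, mul_comm 2, Real.exp_mul, Real.exp_log (by linarith)]
          norm_num
      _ ≤ Real.exp (4 * R * Real.log R) := by
          apply Real.exp_le_exp.mpr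
          have : (⌈R⌉₊ : ℝ) ≤ 2 * R := by linarith
          nlinarith
  refine hconv.trans (max_le ?_ ?_)
  · have := Real.exp_pos (4 * R * Real.log R)
    linarith
  · have : 0 < Real.Gamma (3 / 4) := Real.Gamma_pos_of_pos (by norm_num)
    linarith

theorem zE_crude : ∃ K : ℝ, 0 < K ∧ ∀ R : ℝ, 2 ≤ R → ∀ s : ℂ, |s.re| ≤ R →
    ‖zE s‖ ≤ Real.exp (K * (1 + |s.im|) + K * R * Real.log R) := by
  obtain ⟨C, hC, hhalf⟩ := zE_half
  obtain ⟨C1, hC1⟩ := (isCompact_closedBall (0 : ℂ) 1).exists_bound_of_continuousOn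
    zE_diff.continuous.continuousOn
  have hG0 : 0 < Real.Gamma (3 / 4) := Real.Gamma_pos_of_pos (by norm_num)
  set G := Real.Gamma (3 / 4) with hG
  refine ⟨18 + G + C + |C1|, by positivity, ?_⟩
  intro R hR s hs
  have hlog : 1 / 2 ≤ Real.log R := by
    have h1 : Real.log 2 ≤ Real.log R := Real.log_le_log (by norm_num) hR
    have h2 := Real.log_two_gt_d9
    linarith
  have hRl : R ≤ 2 * (R * Real.log R) := by nlinarith
  have hRl0 : 0 ≤ R * Real.log R := by nlinarith
  have him : 0 ≤ |s.im| := abs_nonneg _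
  have hC1n : 0 ≤ |C1| := abs_nonneg _
  have hsn : ‖s‖ ≤ R + |s.im| := (Complex.norm_le_abs_re_add_abs_im s).trans (by linarith)
  have hsn0 : 0 ≤ ‖s‖ := norm_nonneg _
  have hexp1 : ∀ x : ℝ, 1 + x ≤ Real.exp x := fun x => by
    have := Real.add_one_le_exp x; linarith
  have hsq : ∀ x : ℝ, 0 ≤ x → (1 + x) ^ 2 ≤ Real.exp (2 * x) := by
    intro x hx
    have h1 := pow_le_pow_left₀ (by linarith : 0 ≤ 1 + x) (hexp1 x) 2
    rw [← Real.exp_nat_mul] at h1
    exact_mod_cast h1
  have hCe : C ≤ Real.exp C := by have := hexp1 C; linarith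
  rcases le_or_gt (1 / 4) s.re with h4 | h4
  · calc ‖zE s‖ ≤ C * (1 + ‖s‖) ^ 2 := hhalf s h4
      _ ≤ Real.exp C * Real.exp (2 * ‖s‖) :=
        mul_le_mul hCe (hsq _ hsn0) (by positivity) (Real.exp_pos _).le
      _ = Real.exp (C + 2 * ‖s‖) := by rw [Real.exp_add]
      _ ≤ _ := by
        apply Real.exp_le_exp.mpr
        nlinarith
  · rcases le_or_gt ‖s‖ 1 with h5 | h5
    · calc ‖zE s‖ ≤ C1 := hC1 s (by simpa [Metric.mem_closedBall] using h5)
        _ ≤ |C1| := le_abs_self _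
        _ ≤ Real.exp |C1| := by have := hexp1 |C1|; linarith
        _ ≤ _ := by
          apply Real.exp_le_exp.mpr
          nlinarith
    · set w : ℂ := 1 - s with hw
      have hre : w.re = 1 - s.re := by rw [hw]; simp
      have himw : w.im = - s.im := by rw [hw]; simp
      have hs' := abs_le.mp hs
      have hw0 : 0 < w.re := by rw [hre]; linarith
      have hw34 : 3 / 4 ≤ w.re := by rw [hre]; linarith
      have hwR : w.re ≤ R + 1 := by rw [hre]; linarith
      have hfe := zE_fe hw0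
      have hws : (1 : ℂ) - w = s := by rw [hw]; ring
      have hws2 : w - 1 = - s := by rw [hw]; ring
      rw [hws, hws2] at hfe
      have hnorm := congrArg norm hfe
      rw [norm_mul, norm_neg, norm_neg, norm_mul, norm_mul, norm_mul, norm_mul, norm_mul] at hnorm
      have h2 : ‖(2 : ℂ)‖ = 2 := by simp
      rw [h2] at hnorm
      have hwn : ‖w‖ ≤ 1 + (R + |s.im|) := by
        calc ‖w‖ ≤ ‖(1 : ℂ)‖ + ‖s‖ := by rw [hw]; exact norm_sub_le _ _
          _ ≤ _ := by rw [norm_one]; linarith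
      have b1 : ‖w‖ ≤ Real.exp (R + |s.im|) := hwn.trans (hexp1 _)
      have b2 : ‖((2 : ℂ) * Real.pi) ^ (-w)‖ ≤ 1 := by
        have e : ((2 : ℂ) * Real.pi) = ((2 * Real.pi : ℝ) : ℂ) := by push_cast; ring
        rw [e, norm_cpow_eq_rpow_re_of_pos (by positivity)]
        apply Real.rpow_le_one_of_one_le_of_nonpos
        · have := Real.pi_gt_three; linarith
        · rw [neg_re]; linarith
      have b3 : ‖Complex.Gamma w‖ ≤ Real.exp (G + 4 * R * Real.log R) := by
        refine (norm_Gamma_le_re hw0).trans ((gamma_bound hR hw34 hwR).trans ?_)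
        rw [Real.exp_add]
        have e1 : 1 ≤ Real.exp (4 * R * Real.log R) := Real.one_le_exp (by nlinarith)
        have e2 := hexp1 G
        nlinarith
      have b4 : ‖Complex.cos (Real.pi * w / 2)‖ ≤ Real.exp (2 * |s.im|) := by
        refine (norm_cos_le_exp _).trans ?_
        apply Real.exp_le_exp.mpr
        have e : ((Real.pi : ℂ) * w / 2).im = Real.pi / 2 * w.im := by
          have : (Real.pi : ℂ) * w / 2 = ((Real.pi / 2 : ℝ) : ℂ) * w := by push_cast; ring
          rw [this, Complex.im_ofReal_mul]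
        rw [e, himw, abs_mul, abs_neg, abs_of_pos (by positivity)]
        apply mul_le_mul_of_nonneg_right _ him
        have := Real.pi_le_four; linarith
      have b5 : ‖zE w‖ ≤ Real.exp (C + 2 * (1 + (R + |s.im|))) := by
        calc ‖zE w‖ ≤ C * (1 + ‖w‖) ^ 2 := hhalf w (by linarith)
          _ ≤ Real.exp C * Real.exp (2 * ‖w‖) :=
            mul_le_mul hCe (hsq _ (norm_nonneg _)) (by positivity) (Real.exp_pos _).le
          _ = Real.exp (C + 2 * ‖w‖) := by rw [Real.exp_add]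
          _ ≤ _ := Real.exp_le_exp.mpr (by linarith)
      have b0 : (2 : ℝ) ≤ Real.exp 1 := by have := hexp1 1; linarith
      calc ‖zE s‖ ≤ ‖s‖ * ‖zE s‖ := by nlinarith [norm_nonneg (zE s)]
        _ = 2 * ‖w‖ * ‖((2 : ℂ) * Real.pi) ^ (-w)‖ * ‖Complex.Gamma w‖ *
              ‖Complex.cos (Real.pi * w / 2)‖ * ‖zE w‖ := hnorm
        _ ≤ Real.exp 1 * Real.exp (R + |s.im|) * 1 * Real.exp (G + 4 * R * Real.log R) *
              Real.exp (2 * |s.im|) * Real.exp (C + 2 * (1 + (R + |s.im|))) := by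
            gcongr
        _ = Real.exp (1 + (R + |s.im|) + (G + 4 * R * Real.log R) + 2 * |s.im| +
              (C + 2 * (1 + (R + |s.im|)))) := by
            simp only [Real.exp_add]; ring
        _ ≤ _ := by
            apply Real.exp_le_exp.mpr
            nlinarith

end Pool.Agent.P4f18dfV
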