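import Mathlib

/-!
# Lower bound for the variance of the Möbius function in short intervals: definitions

`zE s = (s - 1) ζ(s)` (entire), `gk` the Gaussian kernel, `DD T y = ∑_{y < n ≤ y (1 + 1/T)} μ(n)`,
`PX` its truncated Mellin transform in the variable `log y`, `MH x H = ∑_{|n - x| < H/2} μ(n)`.
-/

set_option autoImplicit false

open Complex MeasureTheory

namespace Pool.Agent.P4f18dfV

/-- The entire function `(s - 1) ζ(s)`. -/
noncomputable def zE (s : ℂ) : ℂ := DirichletCharacter.LFunctionTrivChar₁ 1 s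

/-- The Gaussian kernel `exp (b (s - ρ) + h² (s - ρ)² / 2)`. -/
noncomputable def gk (b h : ℝ) (ρ s : ℂ) : ℂ :=
  Complex.exp ((b : ℂ) * (s - ρ) + ((h ^ 2 / 2 : ℝ) : ℂ) * (s - ρ) ^ 2)

/-- Sum of `μ(n)` over `y < n ≤ y (1 + 1/T)`. -/
noncomputable def DD (T y : ℝ) : ℝ :=
  ∑ n ∈ Finset.Ioc ⌊y⌋₊ ⌊y * (1 + 1 / T)⌋₊, (ArithmeticFunction.moebius n : ℝ)

/-- Truncated Mellin transform of `DD`, in the variable `x = log y`. -/
noncomputable def PX (T u v : ℝ) (s : ℂ) : ℂ :=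
  ∫ x in u..v, (DD T (Real.exp x) : ℂ) * Complex.exp (-(s * x))

/-- `M(x; H)`, the sum of `μ(n)` over `|n - x| < H / 2`. -/
noncomputable def MH (x H : ℝ) : ℝ :=
  ∑ n ∈ (Finset.range (⌊x + H⌋₊ + 1)).filter (fun n : ℕ => |(n : ℝ) - x| < H / 2),
    ((ArithmeticFunction.moebius n : ℤ) : ℝ)

lemma zE_one : zE 1 = 1 := by simp [zE, DirichletCharacter.LFunctionTrivChar₁]

lemma zE_of_ne {s : ℂ} (hs : s ≠ 1) : zE s = (s - 1) * riemannZeta s := by
  simp [zE, DirichletCharacter.LFunctionTrivChar₁, Function.update_of_ne hs,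
    DirichletCharacter.LFunctionTrivChar, DirichletCharacter.LFunction_modOne_eq]

lemma zE_diff : Differentiable ℂ zE := DirichletCharacter.differentiable_LFunctionTrivChar₁ 1

lemma gk_norm (b h : ℝ) (ρ s : ℂ) :
    ‖gk b h ρ s‖ = Real.exp (b * (s.re - ρ.re) + h ^ 2 / 2 * ((s.re - ρ.re) ^ 2 - (s.im - ρ.im) ^ 2)) := by
  unfold gk
  rw [Complex.norm_exp]
  congr 1
  have h1 : ((s - ρ) ^ 2).re = (s.re - ρ.re) ^ 2 - (s.im - ρ.im) ^ 2 := by
    rw [pow_two, Complex.mul_re, Complex.sub_re, Complex.sub_im]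
    ring
  rw [Complex.add_re, Complex.re_ofReal_mul, Complex.re_ofReal_mul, h1, Complex.sub_re]

lemma gk_self (b h : ℝ) (ρ : ℂ) : gk b h ρ ρ = 1 := by
  unfold gk
  simp

end Pool.Agent.P4f18dfV
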