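import Pool.Agent.Lib.P4f18dfV.Defs

/-!
# Shifting vertical lines with a Gaussian kernel

`shift_on`: rectangle `[a, b] x [-R, R]`, `R → ∞`. `shift_pole`: the pole is handled by writing
`1 / w` as a Laplace integral on each side of the pole, which turns the two integrals of the kernel into the
two halves of a Gaussian integral.
-/

set_option autoImplicit false

open Complex MeasureTheory

namespace Pool.Agent.P4f18dfV

/-- The constant of the uniform Gaussian bound. -/
private noncomputable def bndC (K h β D : ℝ) (ρ : ℂ) : ℝ :=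
  K * Real.exp (|β| * D + h ^ 2 / 2 * D ^ 2 + (h ^ 2 * |ρ.im| + K) ^ 2 / h ^ 2)

private lemma bndC_nonneg {K h β D : ℝ} (ρ : ℂ) (hK : 0 ≤ K) : 0 ≤ bndC K h β D ρ :=
  mul_nonneg hK (Real.exp_pos _).le

private lemma bnd {K h : ℝ} (β D : ℝ) (ρ : ℂ) (hK : 0 ≤ K) (hh : 0 < h) (s : ℂ)
    (hs : |s.re - ρ.re| ≤ D) :
    K * Real.exp (K * |s.im|) * ‖gk β h ρ s‖ ≤
      bndC K h β D ρ * Real.exp (-(h ^ 2 / 4) * s.im ^ 2) := by
  rw [gk_norm, bndC, mul_assoc, mul_assoc, ← Real.exp_add, ← Real.exp_add]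
  refine mul_le_mul_of_nonneg_left (Real.exp_le_exp.mpr ?_) hK
  have h1 : β * (s.re - ρ.re) ≤ |β| * D := by
    calc β * (s.re - ρ.re) ≤ |β * (s.re - ρ.re)| := le_abs_self _
      _ = |β| * |s.re - ρ.re| := abs_mul _ _
      _ ≤ |β| * D := mul_le_mul_of_nonneg_left hs (abs_nonneg _)
  have h2 : (s.re - ρ.re) ^ 2 ≤ D ^ 2 := by
    rw [← sq_abs (s.re - ρ.re)]
    exact pow_le_pow_left₀ (abs_nonneg _) hs 2
  have h3 : h ^ 2 / 2 * (s.re - ρ.re) ^ 2 ≤ h ^ 2 / 2 * D ^ 2 :=
    mul_le_mul_of_nonneg_left h2 (by positivity)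
  have h4 : K * |s.im| + h ^ 2 / 2 * (-(s.im - ρ.im) ^ 2) ≤
      (h ^ 2 * |ρ.im| + K) ^ 2 / h ^ 2 + (-(h ^ 2 / 4) * s.im ^ 2) := by
    have e1 : s.im * ρ.im ≤ |s.im| * |ρ.im| := by
      rw [← abs_mul]
      exact le_abs_self _
    have e2 : (0:ℝ) ≤ ρ.im ^ 2 := sq_nonneg _
    have hh2 : 0 < h ^ 2 := by positivity
    set A := h ^ 2 * |ρ.im| + K with hA
    have e3 : A * |s.im| ≤ A ^ 2 / h ^ 2 + h ^ 2 / 4 * s.im ^ 2 := by
      have : 0 ≤ (A / h - h / 2 * |s.im|) ^ 2 := sq_nonneg _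
      have e : (A / h - h / 2 * |s.im|) ^ 2 = A ^ 2 / h ^ 2 + h ^ 2 / 4 * |s.im| ^ 2 - A * |s.im| := by
        field_simp
        ring
      rw [e, sq_abs] at this
      linarith
    have e4 : K * |s.im| + h ^ 2 / 2 * (-(s.im - ρ.im) ^ 2) ≤
        A * |s.im| - h ^ 2 / 2 * s.im ^ 2 := by
      have : h ^ 2 * (s.im * ρ.im) ≤ h ^ 2 * (|s.im| * |ρ.im|) :=
        mul_le_mul_of_nonneg_left e1 hh2.le
      have e5 : 0 ≤ h ^ 2 / 2 * ρ.im ^ 2 := by positivity
      rw [hA]
      nlinarith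
    linarith
  nlinarith [h1, h3, h4]

private lemma gk_continuous (β h : ℝ) (ρ : ℂ) : Continuous (gk β h ρ) := by
  unfold gk
  fun_prop

private lemma gk_differentiable (β h : ℝ) (ρ : ℂ) : Differentiable ℂ (gk β h ρ) := by
  unfold gk
  fun_prop

private lemma line_re (a t : ℝ) : ((a : ℂ) + t * I).re = a := by simp
private lemma line_im (a t : ℝ) : ((a : ℂ) + t * I).im = t := by simp

/-- Integrability of the shifted integrand. -/
theorem shift_integrable {F : ℂ → ℂ} {a K : ℝ}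
    (hF : Continuous (fun t : ℝ => F (a + t * I)))
    (hK : ∀ t : ℝ, ‖F (a + t * I)‖ ≤ K * Real.exp (K * |t|)) {h : ℝ} (hh : 0 < h)
    (β : ℝ) (ρ : ℂ) : Integrable (fun t : ℝ => F (a + t * I) * gk β h ρ (a + t * I)) := by
  have hK0 : 0 ≤ K := by
    have := (norm_nonneg _).trans (hK 0)
    exact nonneg_of_mul_nonneg_left this (Real.exp_pos _)
  have hg : Integrable (fun t : ℝ => bndC K h β |a - ρ.re| ρ * Real.exp (-(h ^ 2 / 4) * t ^ 2)) :=
    (integrable_exp_neg_mul_sq (by positivity)).const_mul _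
  refine hg.mono' ?_ (Filter.Eventually.of_forall fun t => ?_)
  · exact (hF.mul ((gk_continuous β h ρ).comp (by fun_prop))).aestronglyMeasurable
  · rw [norm_mul]
    have h1 := bnd β |a - ρ.re| ρ hK0 hh ((a : ℂ) + t * I) (by rw [line_re])
    rw [line_im] at h1
    exact (mul_le_mul_of_nonneg_right (hK t) (norm_nonneg _)).trans h1

theorem shift_on {F : ℂ → ℂ} {a b K : ℝ} (hab : a ≤ b) {U : Set ℂ} (hU : IsOpen U)
    (hUs : ∀ s : ℂ, a ≤ s.re → s.re ≤ b → s ∈ U) (hF : DifferentiableOn ℂ F U)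
    (hK : ∀ s : ℂ, a ≤ s.re → s.re ≤ b → ‖F s‖ ≤ K * Real.exp (K * |s.im|)) {h : ℝ} (hh : 0 < h)
    (β : ℝ) (ρ : ℂ) :
    ∫ t : ℝ, F (a + t * I) * gk β h ρ (a + t * I) =
      ∫ t : ℝ, F (b + t * I) * gk β h ρ (b + t * I) := by
  have hcont : ∀ c : ℝ, a ≤ c → c ≤ b → Continuous (fun t : ℝ => F (c + t * I)) := by
    intro c hc1 hc2
    rw [continuous_iff_continuousAt]
    intro t
    have hm : ((c : ℂ) + t * I) ∈ U := hUs _ (by rw [line_re]; exact hc1) (by rw [line_re]; exact hc2)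
    have h1 : ContinuousAt F ((c : ℂ) + t * I) := (hF.differentiableAt (hU.mem_nhds hm)).continuousAt
    have h2 : ContinuousAt (fun t : ℝ => (c : ℂ) + t * I) t := by fun_prop
    exact ContinuousAt.comp (f := fun t : ℝ => (c : ℂ) + t * I) h1 h2
  have hbound : ∀ c : ℝ, a ≤ c → c ≤ b → ∀ t : ℝ, ‖F (c + t * I)‖ ≤ K * Real.exp (K * |t|) := by
    intro c hc1 hc2 t
    have := hK ((c : ℂ) + t * I) (by rw [line_re]; exact hc1) (by rw [line_re]; exact hc2)
    rwa [line_im] at this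
  have hK0 : 0 ≤ K := by
    have := (norm_nonneg _).trans (hbound a le_rfl hab 0)
    exact nonneg_of_mul_nonneg_left this (Real.exp_pos _)
  have hia := shift_integrable (hcont a le_rfl hab) (hbound a le_rfl hab) hh β ρ
  have hib := shift_integrable (hcont b hab le_rfl) (hbound b hab le_rfl) hh β ρ
  set G : ℂ → ℂ := fun s => F s * gk β h ρ s with hG
  set D : ℝ := max |a - ρ.re| |b - ρ.re| with hD
  -- the rectangle identity
  have hrect : ∀ R : ℝ, 0 ≤ R →
      (∫ x : ℝ in a..b, G (x + ((-R : ℝ) : ℂ) * I)) - (∫ x : ℝ in a..b, G (x + (R : ℂ) * I)) +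
      I • (∫ y : ℝ in (-R)..R, G ((b : ℂ) + y * I)) -
      I • (∫ y : ℝ in (-R)..R, G ((a : ℂ) + y * I)) = 0 := by
    intro R hR
    have hz := integral_boundary_rect_eq_zero_of_differentiableOn G
      ((a : ℂ) + ((-R : ℝ) : ℂ) * I) ((b : ℂ) + (R : ℂ) * I) ?_
    · simp only [line_re, line_im] at hz
      exact hz
    · intro s hs
      rw [Complex.mem_reProdIm, line_re, line_re, Set.uIcc_of_le hab] at hs
      have hm : s ∈ U := hUs s hs.1.1 hs.1.2
      exact ((hF.differentiableAt (hU.mem_nhds hm)).mul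
        (gk_differentiable β h ρ s)).differentiableWithinAt
  -- horizontal sides
  have hhor : ∀ R : ℝ, ‖∫ x : ℝ in a..b, G (x + (R : ℂ) * I)‖ ≤
      bndC K h β D ρ * Real.exp (-(h ^ 2 / 4) * R ^ 2) * (b - a) := by
    intro R
    have := intervalIntegral.norm_integral_le_of_norm_le_const (a := a) (b := b)
      (f := fun x : ℝ => G (x + (R : ℂ) * I))
      (C := bndC K h β D ρ * Real.exp (-(h ^ 2 / 4) * R ^ 2)) ?_
    · rwa [abs_of_nonneg (by linarith)] at this
    · intro x hx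
      rw [Set.uIoc_of_le hab] at hx
      simp only [hG]
      rw [norm_mul]
      have h1 := bnd β D ρ hK0 hh ((x : ℂ) + R * I) (by
        rw [line_re, hD]
        rcases le_total ρ.re x with h0 | h0
        · rw [abs_of_nonneg (by linarith)]
          refine le_trans ?_ (le_max_right _ _)
          exact (by linarith [hx.2] : x - ρ.re ≤ b - ρ.re).trans (le_abs_self _)
        · rw [abs_of_nonpos (by linarith)]
          refine le_trans ?_ (le_max_left _ _)
          exact (by linarith [hx.1] : -(x - ρ.re) ≤ -(a - ρ.re)).trans (neg_le_abs _))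
      rw [line_im] at h1
      exact (mul_le_mul_of_nonneg_right (hbound x hx.1.le hx.2 R) (norm_nonneg _)).trans h1
  have hexp0 : Filter.Tendsto (fun R : ℝ => Real.exp (-(h ^ 2 / 4) * R ^ 2)) Filter.atTop
      (nhds 0) := by
    refine Real.tendsto_exp_atBot.comp ?_
    have h1 : Filter.Tendsto (fun R : ℝ => R ^ 2) Filter.atTop Filter.atTop :=
      Filter.tendsto_pow_atTop (by norm_num)
    exact h1.const_mul_atTop_of_neg (by
      have : 0 < h ^ 2 := by positivity
      linarith)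
  have hlim0 : Filter.Tendsto (fun R : ℝ => bndC K h β D ρ * Real.exp (-(h ^ 2 / 4) * R ^ 2) * (b - a))
      Filter.atTop (nhds 0) := by
    have := (hexp0.const_mul (bndC K h β D ρ)).mul_const (b - a)
    simpa using this
  have hup : Filter.Tendsto (fun R : ℝ => ∫ x : ℝ in a..b, G (x + (R : ℂ) * I)) Filter.atTop
      (nhds 0) := squeeze_zero_norm hhor hlim0
  have hdown : Filter.Tendsto (fun R : ℝ => ∫ x : ℝ in a..b, G (x + ((-R : ℝ) : ℂ) * I))
      Filter.atTop (nhds 0) := by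
    refine squeeze_zero_norm (fun R => ?_) hlim0
    have := hhor (-R)
    rwa [neg_sq] at this
  have hvb : Filter.Tendsto (fun R : ℝ => ∫ y : ℝ in (-R)..R, G ((b : ℂ) + y * I)) Filter.atTop
      (nhds (∫ y : ℝ, G ((b : ℂ) + y * I))) :=
    intervalIntegral_tendsto_integral hib Filter.tendsto_neg_atTop_atBot Filter.tendsto_id
  have hva : Filter.Tendsto (fun R : ℝ => ∫ y : ℝ in (-R)..R, G ((a : ℂ) + y * I)) Filter.atTop
      (nhds (∫ y : ℝ, G ((a : ℂ) + y * I))) :=
    intervalIntegral_tendsto_integral hia Filter.tendsto_neg_atTop_atBot Filter.tendsto_id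
  have htot := ((hdown.sub hup).add (hvb.const_smul I)).sub (hva.const_smul I)
  have hzero : Filter.Tendsto (fun R : ℝ =>
      (∫ x : ℝ in a..b, G (x + ((-R : ℝ) : ℂ) * I)) - (∫ x : ℝ in a..b, G (x + (R : ℂ) * I)) +
      I • (∫ y : ℝ in (-R)..R, G ((b : ℂ) + y * I)) -
      I • (∫ y : ℝ in (-R)..R, G ((a : ℂ) + y * I))) Filter.atTop (nhds 0) := by
    refine tendsto_const_nhds.congr' ?_
    filter_upwards [Filter.eventually_ge_atTop 0] with R hR
    exact (hrect R hR).symm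
  have huniq := tendsto_nhds_unique htot hzero
  rw [sub_zero, zero_add, ← smul_sub, smul_eq_mul, mul_eq_zero] at huniq
  rcases huniq with h0 | h0
  · exact absurd h0 I_ne_zero
  · exact (sub_eq_zero.mp h0).symm

theorem shift {F : ℂ → ℂ} (hF : Differentiable ℂ F) {a b K : ℝ} (hab : a ≤ b)
    (hK : ∀ s : ℂ, a ≤ s.re → s.re ≤ b → ‖F s‖ ≤ K * Real.exp (K * |s.im|)) {h : ℝ} (hh : 0 < h)
    (β : ℝ) (ρ : ℂ) :
    ∫ t : ℝ, F (a + t * I) * gk β h ρ (a + t * I) =
      ∫ t : ℝ, F (b + t * I) * gk β h ρ (b + t * I) :=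
  shift_on hab isOpen_univ (fun _ _ _ => Set.mem_univ _) hF.differentiableOn hK hh β ρ

/-! ### The kernel with a pole -/

private lemma gk_line (b h : ℝ) (ρ : ℂ) (c t : ℝ) :
    gk b h ρ (c + t * I) = Complex.exp ((-((h ^ 2 / 2 : ℝ) : ℂ)) * (t : ℂ) ^ 2 +
      (b * I + ((h ^ 2 : ℝ) : ℂ) * (c - ρ) * I) * t +
      (b * (c - ρ) + ((h ^ 2 / 2 : ℝ) : ℂ) * (c - ρ) ^ 2)) := by
  unfold gk
  congr 1
  have hI : I ^ 2 = -1 := Complex.I_sq
  push_cast
  linear_combination ((h : ℂ) ^ 2 / 2 * (t : ℂ) ^ 2) * hI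

private lemma integral_gk_line (b : ℝ) {h : ℝ} (hh : 0 < h) (ρ : ℂ) (c : ℝ) :
    ∫ t : ℝ, gk b h ρ (c + t * I) =
      ((Real.sqrt (Real.pi / (h ^ 2 / 2)) * Real.exp (-(1 / (2 * h ^ 2)) * b ^ 2) : ℝ) : ℂ) := by
  simp_rw [gk_line]
  have hneg : (-((h ^ 2 / 2 : ℝ) : ℂ)).re < 0 := by
    rw [Complex.neg_re, Complex.ofReal_re]
    have : 0 < h ^ 2 := by positivity
    linarith
  rw [integral_cexp_quadratic hneg, neg_neg]
  have e1 : ((Real.pi : ℂ) / ((h ^ 2 / 2 : ℝ) : ℂ)) ^ (1 / 2 : ℂ) =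
      ((Real.sqrt (Real.pi / (h ^ 2 / 2)) : ℝ) : ℂ) := by
    rw [Real.sqrt_eq_rpow, Complex.ofReal_cpow (by positivity)]
    push_cast
    rfl
  have hhC : (h : ℂ) ≠ 0 := by exact_mod_cast hh.ne'
  rw [e1, Complex.ofReal_mul, Complex.ofReal_exp]
  congr 2
  push_cast
  have hI : I ^ 2 = -1 := Complex.I_sq
  field_simp
  linear_combination (2 * (b : ℂ) + 2 * (h : ℂ) ^ 2 * ((c : ℂ) - ρ)) ^ 2 * hI

private lemma gk_sub_eq (β h : ℝ) (ρ s : ℂ) (ε x : ℝ) :
    gk (β - ε * x) h ρ s = gk β h ρ s * Complex.exp ((-(ε : ℂ) * (s - ρ)) * x) := by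
  unfold gk
  rw [← Complex.exp_add]
  congr 1
  push_cast
  ring

private lemma pole_point (β h : ℝ) (ρ s : ℂ) {ε : ℝ} (hε : ε ^ 2 = 1)
    (hs : 0 < ε * (s.re - ρ.re)) :
    gk β h ρ s / (s - ρ) = ε * ∫ x in Set.Ioi (0 : ℝ), gk (β - ε * x) h ρ s := by
  have hε0 : ε ≠ 0 := by
    rintro rfl
    norm_num at hε
  have hεC : (ε : ℂ) ≠ 0 := by exact_mod_cast hε0
  have hε2 : (ε : ℂ) ^ 2 = 1 := by exact_mod_cast hε
  have hw : s - ρ ≠ 0 := by
    intro h0
    have : (s - ρ).re = 0 := by rw [h0]; rfl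
    rw [Complex.sub_re] at this
    rw [this, mul_zero] at hs
    exact lt_irrefl _ hs
  have hre : (-(ε : ℂ) * (s - ρ)).re < 0 := by
    have : (-(ε : ℂ) * (s - ρ)) = ((-ε : ℝ) : ℂ) * (s - ρ) := by push_cast; ring
    rw [this, Complex.re_ofReal_mul, Complex.sub_re]
    linarith
  simp_rw [gk_sub_eq]
  rw [MeasureTheory.integral_const_mul, integral_exp_mul_complex_Ioi hre]
  simp only [Complex.ofReal_zero, mul_zero, Complex.exp_zero]
  field_simp
  try rw [hε2]

private lemma pole_side (β : ℝ) {h : ℝ} (hh : 0 < h) (ρ : ℂ) (c : ℝ) {ε : ℝ} (hε : ε ^ 2 = 1)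
    (hc : 0 < ε * (c - ρ.re)) :
    ∫ t : ℝ, gk β h ρ (c + t * I) / (c + t * I - ρ) =
      ε * ∫ x in Set.Ioi (0 : ℝ),
        ((Real.sqrt (Real.pi / (h ^ 2 / 2)) * Real.exp (-(1 / (2 * h ^ 2)) * (β - ε * x) ^ 2) : ℝ) : ℂ) := by
  have e1 : ∀ t : ℝ, gk β h ρ (c + t * I) / (c + t * I - ρ) =
      ε * ∫ x in Set.Ioi (0 : ℝ), gk (β - ε * x) h ρ (c + t * I) := by
    intro t
    exact pole_point β h ρ _ hε (by rw [line_re]; exact hc)
  simp_rw [e1]
  rw [MeasureTheory.integral_const_mul]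
  congr 1
  rw [integral_integral_swap]
  · simp_rw [integral_gk_line _ hh]
  · have hg : Integrable (fun p : ℝ × ℝ =>
        Real.exp (β * (c - ρ.re) + h ^ 2 / 2 * ((c - ρ.re) ^ 2 - (p.1 - ρ.im) ^ 2)) *
          Real.exp (-(ε * (c - ρ.re)) * p.2))
        ((volume : Measure ℝ).prod (volume.restrict (Set.Ioi (0 : ℝ)))) := by
      refine Integrable.mul_prod (f := fun t : ℝ =>
        Real.exp (β * (c - ρ.re) + h ^ 2 / 2 * ((c - ρ.re) ^ 2 - (t - ρ.im) ^ 2)))
        (g := fun x : ℝ => Real.exp (-(ε * (c - ρ.re)) * x)) ?_ ?_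
      · have h1 : Integrable (fun t : ℝ => Real.exp (-(h ^ 2 / 2) * t ^ 2)) :=
          integrable_exp_neg_mul_sq (by positivity)
        have h2 := (h1.comp_sub_right ρ.im).const_mul
          (Real.exp (β * (c - ρ.re) + h ^ 2 / 2 * (c - ρ.re) ^ 2))
        refine h2.congr (Filter.Eventually.of_forall fun t => ?_)
        simp only
        rw [← Real.exp_add]
        congr 1
        ring
      · exact integrableOn_exp_mul_Ioi (by linarith) 0
    refine hg.mono' ?_ (Filter.Eventually.of_forall fun p => ?_)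
    · refine Continuous.aestronglyMeasurable ?_
      unfold gk Function.uncurry
      fun_prop
    · simp only [Function.uncurry]
      rw [gk_norm, line_re, line_im, ← Real.exp_add]
      refine le_of_eq ?_
      congr 1
      ring

private lemma pole_one (β : ℝ) {h : ℝ} (hh : 0 < h) (ρ : ℂ) {a b : ℝ} (ha : a < ρ.re)
    (hb : ρ.re < b) :
    ∫ t : ℝ, gk β h ρ (b + t * I) / (b + t * I - ρ) =
      (∫ t : ℝ, gk β h ρ (a + t * I) / (a + t * I - ρ)) + 2 * Real.pi := by
  have hB := pole_side β hh ρ b (ε := 1) (by norm_num) (by linarith)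
  have hA := pole_side β hh ρ a (ε := -1) (by norm_num) (by linarith)
  set Q : ℝ := Real.sqrt (Real.pi / (h ^ 2 / 2)) with hQ
  set g : ℝ → ℝ := fun x => Q * Real.exp (-(1 / (2 * h ^ 2)) * x ^ 2) with hg
  have hgi : Integrable g := (integrable_exp_neg_mul_sq (by positivity)).const_mul _
  have hgs : Integrable (fun x => g (β - x)) := hgi.comp_sub_left β
  have hB' : ∫ t : ℝ, gk β h ρ (b + t * I) / (b + t * I - ρ) =
      ((∫ x in Set.Ioi (0 : ℝ), g (β - x) : ℝ) : ℂ) := by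
    rw [hB, Complex.ofReal_one, one_mul]
    simp only [hg, one_mul]
    exact integral_ofReal
  have hA' : ∫ t : ℝ, gk β h ρ (a + t * I) / (a + t * I - ρ) =
      -((∫ x in Set.Iic (0 : ℝ), g (β - x) : ℝ) : ℂ) := by
    rw [hA]
    have h1 : ∫ x in Set.Ioi (0 : ℝ), g (β - (-x)) = ∫ x in Set.Iic (-0 : ℝ), g (β - x) :=
      integral_comp_neg_Ioi (0 : ℝ) (fun x => g (β - x))
    rw [neg_zero] at h1
    rw [← h1, Complex.ofReal_neg, Complex.ofReal_one, neg_one_mul, neg_inj]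
    simp only [hg, neg_one_mul]
    exact integral_ofReal
  rw [hB', hA']
  have hsum : (∫ x in Set.Ioi (0 : ℝ), g (β - x)) + ∫ x in Set.Iic (0 : ℝ), g (β - x) =
      2 * Real.pi := by
    have h1 := integral_add_compl (μ := volume) (s := Set.Iic (0 : ℝ)) measurableSet_Iic hgs
    rw [Set.compl_Iic] at h1
    rw [add_comm, h1, integral_sub_left_eq_self g volume β]
    simp only [hg]
    rw [MeasureTheory.integral_const_mul, integral_gaussian, hQ, ← Real.sqrt_mul (by positivity)]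
    have : Real.pi / (h ^ 2 / 2) * (Real.pi / (1 / (2 * h ^ 2))) = (2 * Real.pi) ^ 2 := by
      field_simp
      try ring
    rw [this, Real.sqrt_sq (by positivity)]
  have hsumC : ((∫ x in Set.Ioi (0 : ℝ), g (β - x) : ℝ) : ℂ) +
      ((∫ x in Set.Iic (0 : ℝ), g (β - x) : ℝ) : ℂ) = 2 * Real.pi := by
    rw [← Complex.ofReal_add, hsum]
    push_cast
    rfl
  linear_combination hsumC

theorem shift_pole {F : ℂ → ℂ} (hF : Differentiable ℂ F) {a b K : ℝ}
    (hK : ∀ s : ℂ, a ≤ s.re → s.re ≤ b → ‖F s‖ ≤ K * Real.exp (K * |s.im|)) {h : ℝ} (hh : 0 < h)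
    (β : ℝ) (ρ : ℂ) (ha : a < ρ.re) (hb : ρ.re < b) :
    ∫ t : ℝ, F (b + t * I) * gk β h ρ (b + t * I) / (b + t * I - ρ) =
      (∫ t : ℝ, F (a + t * I) * gk β h ρ (a + t * I) / (a + t * I - ρ)) + 2 * Real.pi * F ρ := by
  have hab : a ≤ b := (ha.trans hb).le
  have hK0 : 0 ≤ K := by
    have h1 := (norm_nonneg _).trans (hK ρ ha.le hb.le)
    exact nonneg_of_mul_nonneg_left h1 (Real.exp_pos _)
  -- the difference quotient
  set G : ℂ → ℂ := dslope F ρ with hG
  have hGd : Differentiable ℂ G := by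
    rw [← differentiableOn_univ]
    exact (Complex.differentiableOn_dslope Filter.univ_mem).mpr hF.differentiableOn
  obtain ⟨C, hC⟩ := (isCompact_closedBall ρ 1).exists_bound_of_continuousOn
    hGd.continuous.continuousOn
  have hC0 : 0 ≤ C := (norm_nonneg _).trans (hC ρ (Metric.mem_closedBall_self zero_le_one))
  set K' : ℝ := K + ‖F ρ‖ + C with hK'
  have hGK : ∀ s : ℂ, a ≤ s.re → s.re ≤ b → ‖G s‖ ≤ K' * Real.exp (K' * |s.im|) := by
    intro s hs1 hs2
    have hK'0 : 0 ≤ K' := by positivity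
    have hexp1 : (1:ℝ) ≤ Real.exp (K' * |s.im|) := Real.one_le_exp (by positivity)
    by_cases hs : s ∈ Metric.closedBall ρ 1
    · calc ‖G s‖ ≤ C := hC s hs
        _ ≤ K' * 1 := by rw [hK', mul_one]; linarith [norm_nonneg (F ρ)]
        _ ≤ K' * Real.exp (K' * |s.im|) := mul_le_mul_of_nonneg_left hexp1 hK'0
    · have hdist : 1 < ‖s - ρ‖ := by
        rw [Metric.mem_closedBall, not_le, dist_eq_norm] at hs
        exact hs
      have hne : s ≠ ρ := by
        rintro rfl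
        rw [sub_self, norm_zero] at hdist
        exact absurd hdist (by norm_num)
      have e1 : ‖G s‖ ≤ ‖F s - F ρ‖ := by
        rw [hG, dslope_of_ne _ hne, slope_def_field, norm_div]
        exact div_le_self (norm_nonneg _) hdist.le
      have e2 : Real.exp (K * |s.im|) ≤ Real.exp (K' * |s.im|) := by
        refine Real.exp_le_exp.mpr (mul_le_mul_of_nonneg_right ?_ (abs_nonneg _))
        rw [hK']
        linarith [norm_nonneg (F ρ)]
      calc ‖G s‖ ≤ ‖F s - F ρ‖ := e1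
        _ ≤ ‖F s‖ + ‖F ρ‖ := norm_sub_le _ _
        _ ≤ K * Real.exp (K' * |s.im|) + ‖F ρ‖ * Real.exp (K' * |s.im|) := by
            refine add_le_add ((hK s hs1 hs2).trans (mul_le_mul_of_nonneg_left e2 hK0)) ?_
            exact le_mul_of_one_le_right (norm_nonneg _) hexp1
        _ ≤ K' * Real.exp (K' * |s.im|) := by
            rw [← add_mul]
            refine mul_le_mul_of_nonneg_right ?_ (Real.exp_pos _).le
            rw [hK']
            linarith
  have hshift := shift hGd hab hGK hh β ρ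
  -- decomposition on a line
  have hdec : ∀ c : ℝ, c ≠ ρ.re → a ≤ c → c ≤ b →
      ∫ t : ℝ, F (c + t * I) * gk β h ρ (c + t * I) / (c + t * I - ρ) =
        (∫ t : ℝ, G (c + t * I) * gk β h ρ (c + t * I)) +
          F ρ * ∫ t : ℝ, gk β h ρ (c + t * I) / (c + t * I - ρ) := by
    intro c hc hc1 hc2
    have hne : ∀ t : ℝ, (c : ℂ) + t * I ≠ ρ := by
      intro t h0
      apply hc
      rw [← h0, line_re]
    have hsubne : ∀ t : ℝ, (c : ℂ) + t * I - ρ ≠ 0 := fun t => sub_ne_zero.mpr (hne t)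
    have hi1 : Integrable (fun t : ℝ => G (c + t * I) * gk β h ρ (c + t * I)) := by
      refine shift_integrable (K := K') (hGd.continuous.comp (by fun_prop)) (fun t => ?_) hh β ρ
      have := hGK ((c : ℂ) + t * I) (by rw [line_re]; exact hc1) (by rw [line_re]; exact hc2)
      rwa [line_im] at this
    have hi2 : Integrable (fun t : ℝ => gk β h ρ (c + t * I) / (c + t * I - ρ)) := by
      have hcc : 0 < |c - ρ.re| := abs_pos.mpr (sub_ne_zero.mpr hc)
      set L : ℝ := max 1 (1 / |c - ρ.re|) with hL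
      have h1 := shift_integrable (F := fun s : ℂ => 1 / (s - ρ)) (a := c) (K := L) ?_ ?_ hh β ρ
      · refine h1.congr (Filter.Eventually.of_forall fun t => ?_)
        simp only
        ring
      · exact Continuous.div continuous_const (by fun_prop) hsubne
      · intro t
        rw [norm_div, norm_one]
        have hL1 : 1 ≤ L := le_max_left _ _
        have hexp1 : (1:ℝ) ≤ Real.exp (L * |t|) := Real.one_le_exp (by positivity)
        have h2 : |c - ρ.re| ≤ ‖(c : ℂ) + t * I - ρ‖ := by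
          have := Complex.abs_re_le_norm ((c : ℂ) + t * I - ρ)
          rwa [Complex.sub_re, line_re] at this
        calc 1 / ‖(c : ℂ) + t * I - ρ‖ ≤ 1 / |c - ρ.re| := one_div_le_one_div_of_le hcc h2
          _ ≤ L := le_max_right _ _
          _ ≤ L * Real.exp (L * |t|) := le_mul_of_one_le_right (by positivity) hexp1
    rw [← MeasureTheory.integral_const_mul, ← integral_add hi1 (hi2.const_mul _)]
    refine integral_congr_ae (Filter.Eventually.of_forall fun t => ?_)
    have hF1 : F (c + t * I) = F ρ + ((c : ℂ) + t * I - ρ) * G (c + t * I) := by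
      have := sub_smul_dslope F ρ ((c : ℂ) + t * I)
      rw [smul_eq_mul] at this
      rw [hG, this]
      ring
    have h0 := hsubne t
    change F (c + t * I) * gk β h ρ (c + t * I) / (c + t * I - ρ) =
      G (c + t * I) * gk β h ρ (c + t * I) + F ρ * (gk β h ρ (c + t * I) / (c + t * I - ρ))
    rw [hF1]
    field_simp
    ring
  rw [hdec b hb.ne' hab le_rfl, hdec a ha.ne le_rfl hab, hshift, pole_one β hh ρ ha hb]
  ring

end Pool.Agent.P4f18dfV
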