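import Pool.Agent.Lib.P4f18dfV.Defs

/-!
# The zeta function on the lines `Re s = -n`
-/

set_option autoImplicit false

open Complex MeasureTheory

namespace Pool.Agent.P4f18dfV

private lemma gamma_mul_gamma (t : ℝ) (ht : t ≠ 0) :
    Complex.Gamma (1 + t * I) * Complex.Gamma (1 - t * I) =
      ((Real.pi * t / Real.sinh (Real.pi * t) : ℝ) : ℂ) := by
  have hne : ((t : ℂ) * I) ≠ 0 := mul_ne_zero (by exact_mod_cast ht) I_ne_zero
  have h1 : Complex.Gamma (1 + t * I) = (t * I) * Complex.Gamma (t * I) := by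
    rw [add_comm, Complex.Gamma_add_one _ hne]
  have h2 := Complex.Gamma_mul_Gamma_one_sub ((t : ℂ) * I)
  rw [h1, mul_assoc, h2]
  have h3 : Complex.sin ((Real.pi : ℂ) * ((t : ℂ) * I)) =
      ((Real.sinh (Real.pi * t) : ℝ) : ℂ) * I := by
    rw [← mul_assoc, Complex.sin_mul_I]
    push_cast
    rfl
  rw [h3]
  have hs : Real.sinh (Real.pi * t) ≠ 0 := by
    intro h
    have := Real.sinh_eq_zero.1 h
    rcases mul_eq_zero.1 this with h | h
    · exact Real.pi_ne_zero h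
    · exact ht h
  have hs' : ((Real.sinh (Real.pi * t) : ℝ) : ℂ) ≠ 0 := by exact_mod_cast hs
  rw [Complex.ofReal_div, Complex.ofReal_mul]
  field_simp

private lemma gamma_conj' (t : ℝ) :
    Complex.Gamma (1 - t * I) = (starRingEnd ℂ) (Complex.Gamma (1 + t * I)) := by
  rw [← Complex.Gamma_conj]
  congr 1
  simp [sub_eq_add_neg]

private lemma norm_gamma_one_sub (t : ℝ) :
    ‖Complex.Gamma (1 - t * I)‖ = ‖Complex.Gamma (1 + t * I)‖ := by
  rw [gamma_conj', Complex.norm_conj]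

theorem norm_Gamma_sq (t : ℝ) (ht : t ≠ 0) :
    ‖Complex.Gamma (1 + t * I)‖ ^ 2 = Real.pi * t / Real.sinh (Real.pi * t) := by
  have h := gamma_mul_gamma t ht
  rw [gamma_conj', Complex.mul_conj] at h
  have h2 := Complex.ofReal_injective h
  rw [← h2, Complex.normSq_eq_norm_sq]

/-- `‖Γ(1 + it)‖² cosh² (π t / 2) = (π t / 2) cosh (π t / 2) / sinh (π t / 2)`. -/
private lemma norm_gamma_cosh (t : ℝ) (ht : t ≠ 0) :
    (‖Complex.Gamma (1 + t * I)‖ * Real.cosh (Real.pi * t / 2)) ^ 2 =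
      (Real.pi * t / 2) * (Real.cosh (Real.pi * t / 2) / Real.sinh (Real.pi * t / 2)) := by
  rw [mul_pow, norm_Gamma_sq t ht]
  have h1 : Real.sinh (Real.pi * t) = 2 * Real.sinh (Real.pi * t / 2) * Real.cosh (Real.pi * t / 2) := by
    rw [← Real.sinh_two_mul]; congr 1; ring
  have hs : Real.sinh (Real.pi * t / 2) ≠ 0 := by
    intro h
    have := Real.sinh_eq_zero.1 h
    have h3 : Real.pi * t = 0 := by linarith
    rcases mul_eq_zero.1 h3 with h | h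
    · exact Real.pi_ne_zero h
    · exact ht h
  have hc : Real.cosh (Real.pi * t / 2) ≠ 0 := (Real.cosh_pos _).ne'
  rw [h1]
  field_simp

private lemma cosh_le_two_sinh {x : ℝ} (hx : 1 ≤ x) : Real.cosh x ≤ 2 * Real.sinh x := by
  rw [Real.cosh_eq, Real.sinh_eq]
  have h1 : 2 ≤ Real.exp x := by
    have := Real.add_one_le_exp x
    linarith
  have h2 : Real.exp x * Real.exp (-x) = 1 := by rw [← Real.exp_add]; simp
  have h3 : 0 < Real.exp (-x) := Real.exp_pos _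
  have h4 : Real.exp (-x) ≤ 1 / 2 := by
    by_contra h
    push Not at h
    nlinarith
  linarith

/-- two-sided bound -/
private lemma gamma_cosh_bounds (t : ℝ) (ht : 1 ≤ |t|) :
    (Real.pi / 2) * |t| ≤ (‖Complex.Gamma (1 + t * I)‖ * Real.cosh (Real.pi * t / 2)) ^ 2 ∧
    (‖Complex.Gamma (1 + t * I)‖ * Real.cosh (Real.pi * t / 2)) ^ 2 ≤ Real.pi * |t| := by
  have ht0 : t ≠ 0 := by
    intro h; rw [h, abs_zero] at ht; linarith
  rw [norm_gamma_cosh t ht0]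
  have hpi := Real.pi_pos
  have hpi3 := Real.pi_gt_three
  have key : (Real.pi * t / 2) * (Real.cosh (Real.pi * t / 2) / Real.sinh (Real.pi * t / 2)) =
      (Real.pi * |t| / 2) * (Real.cosh (Real.pi * |t| / 2) / Real.sinh (Real.pi * |t| / 2)) := by
    rcases abs_cases t with ⟨h, -⟩ | ⟨h, -⟩
    · rw [h]
    · rw [h]
      have e1 : Real.pi * -t / 2 = -(Real.pi * t / 2) := by ring
      rw [e1, Real.cosh_neg, Real.sinh_neg]
      rw [div_neg]
      ring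
  rw [key]
  set x := Real.pi * |t| / 2 with hx
  have hx1 : 1 ≤ x := by rw [hx]; nlinarith
  have hs : 0 < Real.sinh x := Real.sinh_pos_iff.2 (by linarith)
  have h1 : 1 ≤ Real.cosh x / Real.sinh x := by
    rw [le_div_iff₀ hs, one_mul]
    exact (Real.sinh_lt_cosh x).le
  have h2 : Real.cosh x / Real.sinh x ≤ 2 := by
    rw [div_le_iff₀ hs]
    exact cosh_le_two_sinh hx1
  have e : (Real.pi / 2) * |t| = x := by rw [hx]; ring
  have e' : Real.pi * |t| = x * 2 := by rw [hx]; ring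
  constructor
  · rw [e]; nlinarith
  · rw [e']; nlinarith

private lemma norm_cos_le (z : ℂ) : ‖Complex.cos z‖ ≤ Real.cosh z.im := by
  rw [Complex.cos, norm_div, Real.cosh_eq]
  have h1 : ‖Complex.exp (z * I)‖ = Real.exp (-z.im) := by
    rw [Complex.norm_exp]; congr 1; simp
  have h2 : ‖Complex.exp (-z * I)‖ = Real.exp z.im := by
    rw [Complex.norm_exp]; congr 1; simp
  have h3 : ‖(2 : ℂ)‖ = 2 := by simp
  rw [h3]
  apply div_le_div_of_nonneg_right _ (by norm_num : (0 : ℝ) ≤ 2)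
  calc ‖Complex.exp (z * I) + Complex.exp (-z * I)‖
      ≤ ‖Complex.exp (z * I)‖ + ‖Complex.exp (-z * I)‖ := norm_add_le _ _
    _ = Real.exp z.im + Real.exp (-z.im) := by rw [h1, h2]; ring

private lemma norm_gamma_shift (n : ℕ) : ∃ K : ℝ, 0 < K ∧ ∀ t : ℝ,
    ‖Complex.Gamma ((n : ℂ) + 1 - t * I)‖ ≤ K * (1 + |t|) ^ n * ‖Complex.Gamma (1 - t * I)‖ := by
  induction n with
  | zero =>
    refine ⟨1, one_pos, fun t => ?_⟩
    simp
  | succ n ih =>
    obtain ⟨K, hK, h⟩ := ih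
    refine ⟨K * (n + 1), by positivity, fun t => ?_⟩
    have hne : (n : ℂ) + 1 - t * I ≠ 0 := by
      intro h0
      have := congrArg Complex.re h0
      simp at this
      have h1 : (0 : ℝ) ≤ n := Nat.cast_nonneg n
      linarith
    have h1 : Complex.Gamma (((n + 1 : ℕ) : ℂ) + 1 - t * I) =
        ((n : ℂ) + 1 - t * I) * Complex.Gamma ((n : ℂ) + 1 - t * I) := by
      rw [← Complex.Gamma_add_one _ hne]
      congr 1
      push_cast
      ring
    rw [h1, norm_mul]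
    have h2 : ‖(n : ℂ) + 1 - t * I‖ ≤ (n + 1) * (1 + |t|) := by
      have h3 : ‖(n : ℂ) + 1 - t * I‖ ≤ ‖(n : ℂ) + 1‖ + ‖(t : ℂ) * I‖ := norm_sub_le _ _
      have h4 : ‖(n : ℂ) + 1‖ = n + 1 := by
        have : ((n : ℂ) + 1) = ((n + 1 : ℕ) : ℂ) := by push_cast; rfl
        rw [this, Complex.norm_natCast]; push_cast; rfl
      have h5 : ‖(t : ℂ) * I‖ = |t| := by simp
      rw [h4, h5] at h3
      have h6 : (0 : ℝ) ≤ n := Nat.cast_nonneg n
      have h7 : 0 ≤ |t| := abs_nonneg t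
      nlinarith
    calc ‖(n : ℂ) + 1 - t * I‖ * ‖Complex.Gamma ((n : ℂ) + 1 - t * I)‖
        ≤ ((n + 1) * (1 + |t|)) * (K * (1 + |t|) ^ n * ‖Complex.Gamma (1 - t * I)‖) :=
          mul_le_mul h2 (h t) (norm_nonneg _) (by positivity)
      _ = K * (n + 1) * (1 + |t|) ^ (n + 1) * ‖Complex.Gamma (1 - t * I)‖ := by ring

private lemma norm_term (n : ℕ) (s : ℂ) : ‖(1 : ℂ) / ((n : ℂ) + 1) ^ s‖ = 1 / ((n : ℝ) + 1) ^ s.re := by
  rw [norm_div, norm_one]
  congr 1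
  have : ((n : ℂ) + 1) = (((n : ℝ) + 1 : ℝ) : ℂ) := by push_cast; rfl
  rw [this, Complex.norm_cpow_eq_rpow_re_of_pos (by positivity)]

private lemma hasSum_shift : HasSum (fun n : ℕ => (1 : ℝ) / ((n : ℝ) + 1) ^ 2) (Real.pi ^ 2 / 6) := by
  have h := hasSum_zeta_two
  have h2 := (hasSum_nat_add_iff' 1).2 h
  simp only [Finset.range_one, Finset.sum_singleton] at h2
  have e : Real.pi ^ 2 / 6 = Real.pi ^ 2 / 6 - 1 / ((0 : ℕ) : ℝ) ^ 2 := by norm_num
  rw [e]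
  have e2 : (fun n : ℕ => (1 : ℝ) / ((n : ℝ) + 1) ^ 2) = fun n : ℕ => 1 / ((n + 1 : ℕ) : ℝ) ^ 2 := by
    funext n; push_cast; rfl
  rw [e2]
  exact h2

private lemma term_le (n : ℕ) {x : ℝ} (hx : 2 ≤ x) :
    (1 : ℝ) / ((n : ℝ) + 1) ^ x ≤ 1 / ((n : ℝ) + 1) ^ 2 := by
  have h1 : (1 : ℝ) ≤ (n : ℝ) + 1 := by
    have : (0 : ℝ) ≤ n := Nat.cast_nonneg n
    linarith
  apply one_div_le_one_div_of_le (by positivity)
  rw [← Real.rpow_natCast]
  exact Real.rpow_le_rpow_of_exponent_le h1 (by exact_mod_cast hx)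

private lemma norm_zeta_le {s : ℂ} (hs : 2 ≤ s.re) : ‖riemannZeta s‖ ≤ Real.pi ^ 2 / 6 := by
  rw [zeta_eq_tsum_one_div_nat_add_one_cpow (by linarith)]
  apply tsum_of_norm_bounded hasSum_shift
  intro n
  rw [norm_term]
  exact term_le n hs

private lemma norm_zeta_ge {s : ℂ} (hs : 2 ≤ s.re) : 2 - Real.pi ^ 2 / 6 ≤ ‖riemannZeta s‖ := by
  rw [zeta_eq_tsum_one_div_nat_add_one_cpow (by linarith)]
  have hsum : Summable (fun n : ℕ => (1 : ℂ) / ((n : ℂ) + 1) ^ s) := by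
    apply Summable.of_norm_bounded hasSum_shift.summable
    intro n
    rw [norm_term]
    exact term_le n hs
  rw [hsum.tsum_eq_zero_add]
  have h0 : (1 : ℂ) / (((0 : ℕ) : ℂ) + 1) ^ s = 1 := by simp
  rw [h0]
  have h2 : HasSum (fun n : ℕ => (1 : ℝ) / (((n + 1 : ℕ) : ℝ) + 1) ^ 2) (Real.pi ^ 2 / 6 - 1) := by
    have := (hasSum_nat_add_iff' 1).2 hasSum_shift
    simpa using this
  have h3 : ‖∑' n : ℕ, (1 : ℂ) / (((n + 1 : ℕ) : ℂ) + 1) ^ s‖ ≤ Real.pi ^ 2 / 6 - 1 := by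
    apply tsum_of_norm_bounded h2
    intro n
    rw [norm_term]
    exact term_le (n + 1) hs
  have h4 : ‖(1 : ℂ)‖ ≤ ‖(1 : ℂ) + ∑' n : ℕ, (1 : ℂ) / (((n + 1 : ℕ) : ℂ) + 1) ^ s‖ +
      ‖∑' n : ℕ, (1 : ℂ) / (((n + 1 : ℕ) : ℂ) + 1) ^ s‖ := by
    have := norm_sub_le ((1 : ℂ) + ∑' n : ℕ, (1 : ℂ) / (((n + 1 : ℕ) : ℂ) + 1) ^ s)
      (∑' n : ℕ, (1 : ℂ) / (((n + 1 : ℕ) : ℂ) + 1) ^ s)
    rwa [add_sub_cancel_right] at this
  rw [norm_one] at h4
  linarith

/-- The functional equation on the line `Re s = -n`. -/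
private lemma zeta_fe (n : ℕ) (hn : 1 ≤ n) (t : ℝ) :
    riemannZeta (-(n : ℂ) + t * I) = 2 * (2 * (Real.pi : ℂ)) ^ (-((n : ℂ) + 1 - t * I)) *
      Complex.Gamma ((n : ℂ) + 1 - t * I) * Complex.cos (Real.pi * ((n : ℂ) + 1 - t * I) / 2) *
      riemannZeta ((n : ℂ) + 1 - t * I) := by
  have hre : ((n : ℂ) + 1 - t * I).re = n + 1 := by simp
  have hn' : (1 : ℝ) ≤ n := by exact_mod_cast hn
  have h := riemannZeta_one_sub (s := (n : ℂ) + 1 - t * I) (by
    intro m hm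
    have := congrArg Complex.re hm
    rw [hre] at this
    simp at this
    have : (0 : ℝ) ≤ m := Nat.cast_nonneg m
    linarith) (by
    intro hm
    have := congrArg Complex.re hm
    rw [hre] at this
    simp at this
    linarith)
  rw [← h]
  congr 1
  ring

private lemma norm_pow_pi (n : ℕ) (t : ℝ) :
    ‖(2 * (Real.pi : ℂ)) ^ (-((n : ℂ) + 1 - t * I))‖ = (2 * Real.pi) ^ (-((n : ℝ) + 1)) := by
  have : (2 * (Real.pi : ℂ)) = ((2 * Real.pi : ℝ) : ℂ) := by push_cast; rfl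
  rw [this, Complex.norm_cpow_eq_rpow_re_of_pos (by positivity)]
  congr 1
  simp

private lemma zeta_left_large (n : ℕ) (hn : 1 ≤ n) : ∃ K : ℝ, 0 < K ∧
    ∀ t : ℝ, 1 ≤ |t| → ‖riemannZeta (-(n : ℂ) + t * I)‖ ≤ K * (1 + |t|) ^ (n + 1) := by
  obtain ⟨K, hK, hG⟩ := norm_gamma_shift n
  have hpi := Real.pi_pos
  refine ⟨2 * K * Real.pi * (Real.pi ^ 2 / 6), by positivity, fun t ht => ?_⟩
  rw [zeta_fe n hn t, norm_mul, norm_mul, norm_mul, norm_mul, norm_pow_pi]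
  have hre : ((n : ℂ) + 1 - t * I).re = n + 1 := by simp
  have hn' : (1 : ℝ) ≤ n := by exact_mod_cast hn
  have hz : ‖riemannZeta ((n : ℂ) + 1 - t * I)‖ ≤ Real.pi ^ 2 / 6 :=
    norm_zeta_le (by rw [hre]; linarith)
  have hc : ‖Complex.cos (Real.pi * ((n : ℂ) + 1 - t * I) / 2)‖ ≤ Real.cosh (Real.pi * t / 2) := by
    refine (norm_cos_le _).trans (le_of_eq ?_)
    have : (Real.pi * ((n : ℂ) + 1 - t * I) / 2).im = -(Real.pi * t / 2) := by
      have h1 : (Real.pi * ((n : ℂ) + 1 - t * I) / 2) =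
        ((Real.pi * (n + 1) / 2 : ℝ) : ℂ) + ((-(Real.pi * t / 2) : ℝ) : ℂ) * I := by
        push_cast; ring
      rw [h1]
      simp
    rw [this, Real.cosh_neg]
  have h2 : ‖(2 : ℂ)‖ = 2 := by simp
  rw [h2]
  have hp : (2 * Real.pi) ^ (-((n : ℝ) + 1)) ≤ 1 := by
    apply Real.rpow_le_one_of_one_le_of_nonpos
    · have := Real.pi_gt_three; linarith
    · linarith
  have hp0 : 0 ≤ (2 * Real.pi) ^ (-((n : ℝ) + 1)) := Real.rpow_nonneg (by positivity) _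
  have hgc : ‖Complex.Gamma (1 - t * I)‖ * Real.cosh (Real.pi * t / 2) ≤ Real.pi * (1 + |t|) := by
    rw [norm_gamma_one_sub]
    have h := (gamma_cosh_bounds t ht).2
    have h0 : 0 ≤ ‖Complex.Gamma (1 + t * I)‖ * Real.cosh (Real.pi * t / 2) :=
      mul_nonneg (norm_nonneg _) (Real.cosh_pos _).le
    have h1 : Real.pi * |t| ≤ (Real.pi * (1 + |t|)) ^ 2 := by
      have := Real.pi_gt_three
      have h3 : 0 ≤ |t| := abs_nonneg t
      have h4 : 1 ≤ Real.pi * (1 + |t|) := by nlinarith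
      nlinarith
    exact abs_le_of_sq_le_sq' (h.trans h1) (by positivity) |>.2
  have hcosh : 0 < Real.cosh (Real.pi * t / 2) := Real.cosh_pos _
  calc 2 * (2 * Real.pi) ^ (-((n : ℝ) + 1)) * ‖Complex.Gamma ((n : ℂ) + 1 - t * I)‖ *
        ‖Complex.cos (Real.pi * ((n : ℂ) + 1 - t * I) / 2)‖ * ‖riemannZeta ((n : ℂ) + 1 - t * I)‖
      ≤ 2 * 1 * (K * (1 + |t|) ^ n * ‖Complex.Gamma (1 - t * I)‖) * Real.cosh (Real.pi * t / 2) *
        (Real.pi ^ 2 / 6) := by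
        gcongr
        exact hG t
    _ = 2 * K * (Real.pi ^ 2 / 6) * (1 + |t|) ^ n *
        (‖Complex.Gamma (1 - t * I)‖ * Real.cosh (Real.pi * t / 2)) := by ring
    _ ≤ 2 * K * (Real.pi ^ 2 / 6) * (1 + |t|) ^ n * (Real.pi * (1 + |t|)) := by gcongr
    _ = 2 * K * Real.pi * (Real.pi ^ 2 / 6) * (1 + |t|) ^ (n + 1) := by ring

theorem zeta_left (n : ℕ) (hn : 1 ≤ n) : ∃ K : ℝ, 0 < K ∧
    ∀ t : ℝ, ‖zE (-(n : ℂ) + t * I)‖ ≤ K * (1 + |t|) ^ (n + 2) := by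
  obtain ⟨K, hK, h⟩ := zeta_left_large n hn
  -- the compact part
  have hcont : Continuous fun t : ℝ => ‖zE (-(n : ℂ) + t * I)‖ := by
    apply Continuous.norm
    exact zE_diff.continuous.comp (by fun_prop)
  obtain ⟨C, hC⟩ := (isCompact_Icc (a := (-1 : ℝ)) (b := 1)).bddAbove_image hcont.continuousOn
  refine ⟨K * (n + 1) + |C|, by positivity, fun t => ?_⟩
  have hpow : (1 : ℝ) ≤ (1 + |t|) ^ (n + 2) := one_le_pow₀ (by linarith [abs_nonneg t])
  have hn' : (1 : ℝ) ≤ n := by exact_mod_cast hn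
  by_cases ht : 1 ≤ |t|
  · have hne : -(n : ℂ) + t * I ≠ 1 := by
      intro h0
      have := congrArg Complex.re h0
      simp at this
      linarith
    rw [zE_of_ne hne, norm_mul]
    have h2 : ‖-(n : ℂ) + t * I - 1‖ ≤ (n + 1) * (1 + |t|) := by
      have e : -(n : ℂ) + t * I - 1 = (t : ℂ) * I - ((n + 1 : ℕ) : ℂ) := by push_cast; ring
      rw [e]
      refine (norm_sub_le _ _).trans ?_
      rw [Complex.norm_natCast]
      have h5 : ‖(t : ℂ) * I‖ = |t| := by simp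
      rw [h5]
      push_cast
      have h7 : 0 ≤ |t| := abs_nonneg t
      nlinarith
    calc ‖-(n : ℂ) + t * I - 1‖ * ‖riemannZeta (-(n : ℂ) + t * I)‖
        ≤ ((n + 1) * (1 + |t|)) * (K * (1 + |t|) ^ (n + 1)) :=
          mul_le_mul h2 (h t ht) (norm_nonneg _) (by positivity)
      _ = K * (n + 1) * (1 + |t|) ^ (n + 2) := by ring
      _ ≤ (K * (n + 1) + |C|) * (1 + |t|) ^ (n + 2) := by
          gcongr
          exact le_add_of_nonneg_right (abs_nonneg C)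
  · have ht' : t ∈ Set.Icc (-1 : ℝ) 1 := by
      push Not at ht
      exact abs_le.1 ht.le
    have h3 : ‖zE (-(n : ℂ) + t * I)‖ ≤ C := hC ⟨t, ht', rfl⟩
    calc ‖zE (-(n : ℂ) + t * I)‖ ≤ C := h3
      _ ≤ |C| * 1 := by rw [mul_one]; exact le_abs_self C
      _ ≤ (K * (n + 1) + |C|) * (1 + |t|) ^ (n + 2) := by
          apply mul_le_mul _ hpow zero_le_one (by positivity)
          have : 0 ≤ K * ((n : ℝ) + 1) := by positivity
          linarith

theorem zeta_neg_one : ∃ c : ℝ, 0 < c ∧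
    ∀ t : ℝ, 1 ≤ |t| → c * |t| ≤ ‖riemannZeta (-1 + t * I)‖ := by
  have hpi := Real.pi_pos
  have hpi3 := Real.pi_gt_three
  have hpi4 := Real.pi_lt_d2
  set a := (2 * Real.pi) ^ (-(((1 : ℕ) : ℝ) + 1)) with ha
  have ha0 : 0 < a := Real.rpow_pos_of_pos (by positivity) _
  have hz0 : 0 < 2 - Real.pi ^ 2 / 6 := by nlinarith
  refine ⟨2 * a * (2 - Real.pi ^ 2 / 6), by positivity, fun t ht => ?_⟩
  have hfe := zeta_fe 1 le_rfl t
  have e1 : (-((1 : ℕ) : ℂ) + t * I) = -1 + t * I := by simp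
  rw [e1] at hfe
  rw [hfe, norm_mul, norm_mul, norm_mul, norm_mul, norm_pow_pi, ← ha]
  have hre : (((1 : ℕ) : ℂ) + 1 - t * I).re = 2 := by simp; norm_num
  have hz : 2 - Real.pi ^ 2 / 6 ≤ ‖riemannZeta (((1 : ℕ) : ℂ) + 1 - t * I)‖ :=
    norm_zeta_ge (by rw [hre])
  have hc : ‖Complex.cos (Real.pi * (((1 : ℕ) : ℂ) + 1 - t * I) / 2)‖ =
      Real.cosh (Real.pi * t / 2) := by
    have h1 : (Real.pi * (((1 : ℕ) : ℂ) + 1 - t * I) / 2) =
        (Real.pi : ℂ) - ((Real.pi * t / 2 : ℝ) : ℂ) * I := by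
      push_cast; ring
    rw [h1, Complex.cos_pi_sub, Complex.cos_mul_I, norm_neg, ← Complex.ofReal_cosh, Complex.norm_real,
      Real.norm_of_nonneg (Real.cosh_pos _).le]
  rw [hc]
  have h2 : ‖(2 : ℂ)‖ = 2 := by simp
  rw [h2]
  -- Gamma(2 - it) = (1 - it) Gamma(1 - it)
  have hG : |t| * ‖Complex.Gamma (1 - t * I)‖ ≤ ‖Complex.Gamma (((1 : ℕ) : ℂ) + 1 - t * I)‖ := by
    have hne : (1 : ℂ) - t * I ≠ 0 := by
      intro h0
      have := congrArg Complex.re h0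
      simp at this
    have h1 : Complex.Gamma (((1 : ℕ) : ℂ) + 1 - t * I) =
        ((1 : ℂ) - t * I) * Complex.Gamma ((1 : ℂ) - t * I) := by
      rw [← Complex.Gamma_add_one _ hne]
      congr 1
      push_cast
      ring
    rw [h1, norm_mul]
    apply mul_le_mul_of_nonneg_right _ (norm_nonneg _)
    have h3 := Complex.abs_im_le_norm ((1 : ℂ) - t * I)
    simpa using h3
  have hgc : 1 ≤ ‖Complex.Gamma (1 - t * I)‖ * Real.cosh (Real.pi * t / 2) := by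
    rw [norm_gamma_one_sub]
    have h := (gamma_cosh_bounds t ht).1
    have h0 : 0 ≤ ‖Complex.Gamma (1 + t * I)‖ * Real.cosh (Real.pi * t / 2) :=
      mul_nonneg (norm_nonneg _) (Real.cosh_pos _).le
    have h1 : (1 : ℝ) ^ 2 ≤ (‖Complex.Gamma (1 + t * I)‖ * Real.cosh (Real.pi * t / 2)) ^ 2 := by
      refine le_trans ?_ h
      nlinarith
    exact (abs_le_of_sq_le_sq' h1 h0).2
  have hcosh : 0 < Real.cosh (Real.pi * t / 2) := Real.cosh_pos _
  have ht0 : 0 ≤ |t| := abs_nonneg t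
  calc 2 * a * (2 - Real.pi ^ 2 / 6) * |t| = 2 * a * (|t| * 1) * (2 - Real.pi ^ 2 / 6) := by ring
    _ ≤ 2 * a * (|t| * (‖Complex.Gamma (1 - t * I)‖ * Real.cosh (Real.pi * t / 2))) *
        (2 - Real.pi ^ 2 / 6) := by gcongr
    _ = 2 * a * (|t| * ‖Complex.Gamma (1 - t * I)‖) * Real.cosh (Real.pi * t / 2) *
        (2 - Real.pi ^ 2 / 6) := by ring
    _ ≤ 2 * a * ‖Complex.Gamma (((1 : ℕ) : ℂ) + 1 - t * I)‖ * Real.cosh (Real.pi * t / 2) *
        ‖riemannZeta (((1 : ℕ) : ℂ) + 1 - t * I)‖ := by gcongr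

end Pool.Agent.P4f18dfV
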