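import Pool.Agent.Lib.P4f18dfV.PZ3
import Pool.Agent.Lib.P4f18dfV.ZetaLeft

/-!
# Estimates for the error terms of the identity of one zero
-/

set_option autoImplicit false

open Complex MeasureTheory

namespace Pool.Agent.P4f18dfV

lemma one_add_pow_le {a b : ℝ} (ha : 0 ≤ a) (hb : 0 ≤ b) (k : ℕ) :
    (1 + (a + b)) ^ k ≤ (1 + a) ^ k * (1 + b) ^ k := by
  rw [← mul_pow]
  refine pow_le_pow_left₀ (by positivity) ?_ k
  nlinarith [mul_nonneg ha hb]

/-- Integrals against the Gaussian kernel of a polynomially bounded function. -/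
lemma gauss_bound {κ : ℝ} (hκ : 0 < κ) (k : ℕ) : ∃ G : ℝ, 0 < G ∧ ∀ L γ A : ℝ, 1 ≤ L → 0 ≤ γ →
    0 ≤ A → ∀ f : ℝ → ℂ, (∀ t : ℝ, ‖f t‖ ≤ A * (1 + |t|) ^ k * Real.exp (-(κ * L * (t - γ) ^ 2))) →
    ‖∫ t : ℝ, f t‖ ≤ A * (1 + γ) ^ k * G := by
  refine ⟨Real.exp ((k : ℝ) ^ 2 / (2 * κ)) * Real.sqrt (Real.pi / (κ / 2)), by positivity, ?_⟩
  intro L γ A hL hγ hA f hf
  have hint0 : Integrable (fun t : ℝ => Real.exp (-(κ / 2) * t ^ 2)) :=
    integrable_exp_neg_mul_sq (by positivity)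
  have hint : Integrable (fun t : ℝ => Real.exp (-(κ / 2) * (t - γ) ^ 2)) :=
    hint0.comp_sub_right γ
  have hval : ∫ t : ℝ, Real.exp (-(κ / 2) * (t - γ) ^ 2) = Real.sqrt (Real.pi / (κ / 2)) := by
    rw [integral_sub_right_eq_self (fun t : ℝ => Real.exp (-(κ / 2) * t ^ 2)) γ]
    exact integral_gaussian (κ / 2)
  have hpt : ∀ t : ℝ, ‖f t‖ ≤ (A * (1 + γ) ^ k * Real.exp ((k : ℝ) ^ 2 / (2 * κ))) *
      Real.exp (-(κ / 2) * (t - γ) ^ 2) := by
    intro t
    refine (hf t).trans ?_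
    set w := |t - γ| with hw
    have hw0 : 0 ≤ w := abs_nonneg _
    have hw2 : (t - γ) ^ 2 = w ^ 2 := (sq_abs _).symm
    have h1 : (1 + |t|) ^ k ≤ (1 + γ) ^ k * (1 + w) ^ k := by
      refine le_trans ?_ (one_add_pow_le hγ hw0 k)
      refine pow_le_pow_left₀ (by positivity) ?_ k
      have : |t| ≤ |γ| + |t - γ| := by
        calc |t| = |γ + (t - γ)| := by congr 1; ring
          _ ≤ _ := abs_add_le _ _
      rw [abs_of_nonneg hγ] at this
      linarith
    have h2 : (1 + w) ^ k ≤ Real.exp ((k : ℝ) * w) := by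
      calc (1 + w) ^ k ≤ (Real.exp w) ^ k := by
            refine pow_le_pow_left₀ (by positivity) ?_ k
            have := Real.add_one_le_exp w
            linarith
        _ = Real.exp ((k : ℝ) * w) := by rw [← Real.exp_nat_mul]
    have h3 : Real.exp ((k : ℝ) * w) * Real.exp (-(κ * L * w ^ 2)) ≤
        Real.exp ((k : ℝ) ^ 2 / (2 * κ)) * Real.exp (-(κ / 2) * w ^ 2) := by
      rw [← Real.exp_add, ← Real.exp_add, Real.exp_le_exp]
      have h4 : κ * w ^ 2 ≤ κ * L * w ^ 2 := by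
        have : 0 ≤ κ * w ^ 2 := by positivity
        nlinarith
      have h5 : (k : ℝ) * w ≤ (k : ℝ) ^ 2 / (2 * κ) + κ / 2 * w ^ 2 := by
        have h6 : 0 ≤ ((k : ℝ) - κ * w) ^ 2 / (2 * κ) := by positivity
        have h7 : ((k : ℝ) - κ * w) ^ 2 / (2 * κ) =
            (k : ℝ) ^ 2 / (2 * κ) - (k : ℝ) * w + κ / 2 * w ^ 2 := by
          field_simp
          ring
        linarith
      linarith
    rw [hw2]
    have hg0 : 0 ≤ (1 + γ) ^ k := by positivity
    calc A * (1 + |t|) ^ k * Real.exp (-(κ * L * w ^ 2)) ≤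
          A * ((1 + γ) ^ k * Real.exp ((k : ℝ) * w)) * Real.exp (-(κ * L * w ^ 2)) := by
          refine mul_le_mul_of_nonneg_right ?_ (Real.exp_pos _).le
          refine mul_le_mul_of_nonneg_left ?_ hA
          exact h1.trans (mul_le_mul_of_nonneg_left h2 hg0)
      _ = A * (1 + γ) ^ k * (Real.exp ((k : ℝ) * w) * Real.exp (-(κ * L * w ^ 2))) := by ring
      _ ≤ A * (1 + γ) ^ k * (Real.exp ((k : ℝ) ^ 2 / (2 * κ)) * Real.exp (-(κ / 2) * w ^ 2)) :=
          mul_le_mul_of_nonneg_left h3 (by positivity)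
      _ = _ := by ring
  have h := norm_integral_le_of_norm_le (hint.const_mul
    (A * (1 + γ) ^ k * Real.exp ((k : ℝ) ^ 2 / (2 * κ)))) (Filter.Eventually.of_forall hpt)
  rw [integral_const_mul, hval] at h
  refine h.trans (le_of_eq ?_)
  ring

/-- Lower bound for the transform of the short interval. -/
lemma mm_lower {T : ℝ} (hT : 10 ≤ T) {ρ : ℂ} (h0 : 0 ≤ ρ.re) (hg0 : 0 ≤ ρ.im) (hg : ρ.im ≤ T / 4) :
    9 / 10 / T ≤ ‖mm T ρ‖ := by
  have hT0 : 0 < T := by linarith
  have hell := ell_pos hT0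
  have hle := ell_le hT0
  have h1 : (mm T ρ).re = ∫ x in (-ell T)..0, (Complex.exp (-(ρ * x))).re := by
    unfold mm
    have hc : Continuous (fun x : ℝ => Complex.exp (-(ρ * x))) := by fun_prop
    exact (Complex.reCLM.intervalIntegral_comp_comm (hc.intervalIntegrable _ _)).symm
  have h2 : ∀ x ∈ Set.Icc (-ell T) 0, (31 / 32 : ℝ) ≤ (Complex.exp (-(ρ * x))).re := by
    intro x hx
    rw [Complex.exp_re, Complex.neg_re, Complex.neg_im, Complex.re_mul_ofReal, Complex.im_mul_ofReal,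
      Real.cos_neg]
    have ha : 1 ≤ Real.exp (-(ρ.re * x)) := by
      refine Real.one_le_exp ?_
      nlinarith [hx.2]
    have hb : |ρ.im * x| ≤ 1 / 4 := by
      rw [abs_mul, abs_of_nonneg hg0]
      have hx1 : |x| ≤ 1 / T := by
        rw [abs_of_nonpos hx.2]
        linarith [hx.1]
      calc ρ.im * |x| ≤ T / 4 * (1 / T) := mul_le_mul hg hx1 (abs_nonneg _) (by positivity)
        _ = 1 / 4 := by field_simp
    have hcos : 31 / 32 ≤ Real.cos (ρ.im * x) := by
      have := Real.one_sub_sq_div_two_le_cos (x := ρ.im * x)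
      have h3 : (ρ.im * x) ^ 2 ≤ (1 / 4) ^ 2 := by
        rw [← sq_abs]
        exact pow_le_pow_left₀ (abs_nonneg _) hb 2
      linarith
    nlinarith
  have hc : Continuous (fun x : ℝ => (Complex.exp (-(ρ * x))).re) :=
    Complex.continuous_re.comp (by fun_prop)
  have h3 := intervalIntegral.integral_mono_on (μ := volume) (a := -ell T) (b := 0) (by linarith)
    (f := fun _ => (31 / 32 : ℝ)) (continuous_const.intervalIntegrable _ _)
    (hc.intervalIntegrable _ _) h2
  rw [intervalIntegral.integral_const, smul_eq_mul, ← h1] at h3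
  have h4 := ell_ge (show 1 ≤ T by linarith)
  have h5 : (mm T ρ).re ≤ ‖mm T ρ‖ := Complex.re_le_norm _
  have h6 : 1 / (2 * T ^ 2) ≤ 1 / 20 * (1 / T) := by
    rw [div_le_iff₀ (by positivity)]
    have : 1 / 20 * (1 / T) * (2 * T ^ 2) = T / 10 := by
      field_simp
      ring
    rw [this]
    linarith
  have h7 : 9 / 10 / T = 9 / 10 * (1 / T) := by ring
  rw [h7]
  have h8 : 0 < 1 / T := by positivity
  nlinarith

lemma mm_upper {T : ℝ} (hT : 1 ≤ T) {s : ℂ} (hs : s.re ≤ 0) : ‖mm T s‖ ≤ 1 := by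
  have hT0 : 0 < T := by linarith
  have hell := ell_pos hT0
  have hle := ell_le hT0
  rw [mm_eq]
  have h := GX_norm_le (g := fun _ => 1) (u := -ell T) (v := 0) (B := 1) (by linarith) s
    (fun x hx => by
      rw [norm_one, one_mul, Real.exp_le_one_iff]
      nlinarith [hx.2])
  refine h.trans ?_
  have : 1 / T ≤ 1 := by
    rw [div_le_one hT0]
    exact hT
  linarith

/-- Bound for the first transform on the far left. -/
lemma P1_norm {T u : ℝ} (hT : 1 ≤ T) (hu : 0 ≤ u) {s : ℂ} {n : ℝ} (hn : 0 ≤ n) (hs : s.re = -n) :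
    ‖PX T (-ell T) u s‖ ≤ 2 * Real.exp ((n + 2) * u) := by
  have hT0 : 0 < T := by linarith
  have hell := ell_pos hT0
  have hle := ell_le hT0
  have hT1 : 1 / T ≤ 1 := by
    rw [div_le_one hT0]
    exact hT
  rw [PX_eq]
  have h := GX_norm_le (g := fun x => (DD T (Real.exp x) : ℂ)) (u := -ell T) (v := u)
    (B := 2 * Real.exp u * Real.exp (n * u)) (by linarith) s (by
      intro x hx
      have h1 := dd_norm hT x
      have h2 : Real.exp x ≤ Real.exp u := Real.exp_le_exp.mpr hx.2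
      have h3 : 1 ≤ Real.exp u := Real.one_le_exp hu
      refine mul_le_mul (by linarith) ?_ (Real.exp_pos _).le (by positivity)
      rw [hs, Real.exp_le_exp]
      nlinarith [hx.2])
  refine h.trans ?_
  have h4 : u - -ell T ≤ Real.exp u := by
    have := Real.add_one_le_exp u
    linarith
  calc 2 * Real.exp u * Real.exp (n * u) * (u - -ell T) ≤
        2 * Real.exp u * Real.exp (n * u) * Real.exp u :=
        mul_le_mul_of_nonneg_left h4 (by positivity)
    _ = 2 * Real.exp ((n + 2) * u) := by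
        rw [mul_assoc, mul_assoc, ← Real.exp_add, ← Real.exp_add]
        congr 2
        ring

lemma gk_line (b h : ℝ) (ρ : ℂ) (a t : ℝ) : ‖gk b h ρ (a + t * I)‖ =
    Real.exp (b * (a - ρ.re) + h ^ 2 / 2 * (a - ρ.re) ^ 2) *
      Real.exp (-(h ^ 2 / 2 * (t - ρ.im) ^ 2)) := by
  rw [gk_norm, line_re, line_im, ← Real.exp_add]
  congr 1
  ring

end Pool.Agent.P4f18dfV
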