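import Pool.Agent.Lib.P4f18dfV.HalfPlane

/-!
# Assembly, part 2: the weight attached to a good zero
-/

set_option autoImplicit false

open Complex MeasureTheory

namespace Pool.Agent.P4f18dfV

theorem weight_bound {κ D : ℝ} (hκ : 0 < κ) (hD : 1 ≤ D) (hκD : 4 ≤ κ * D ^ 2) :
    ∃ T0 : ℝ, ∀ T : ℝ, T0 ≤ T → ∀ ρ : ℂ, 1 / 2 ≤ ρ.re → ρ.re < 1 → T / 8 ≤ ρ.im →
    ρ.im ≤ T / 4 →
    (∀ t : ℝ, |t - ρ.im| ≤ D →
      ‖riemannZeta (((1 / 2 - 1 / Real.log T : ℝ) : ℂ) + t * I)‖ ^ 2 ≤ Real.log T ^ 10) →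
    ∀ t : ℝ, ‖zE (((1 / 2 - 1 / Real.log T : ℝ) : ℂ) + t * I)‖ / ‖ρ - 1‖ *
      (Real.log T * Real.exp (-(κ * Real.log T * (t - ρ.im) ^ 2))) ≤
      2 * Real.log T ^ 6 * Real.exp (-((t - ρ.im) ^ 2 / 4)) := by
  obtain ⟨C, hC, hCb⟩ := zE_half
  have hlim : ∀ᶠ T : ℝ in Filter.atTop, 4 + 1 / κ + C * Real.exp 4 ≤ Real.log T :=
    Real.tendsto_log_atTop.eventually_ge_atTop _
  obtain ⟨T2, hT2⟩ := Filter.eventually_atTop.mp hlim
  refine ⟨max T2 (8 * (D + 2)), ?_⟩
  intro T hT ρ hβ0 hβ1 hg0 hg1 hgood t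
  have hTT2 : T2 ≤ T := (le_max_left _ _).trans hT
  have hTD : 8 * (D + 2) ≤ T := (le_max_right _ _).trans hT
  have hT0 : 0 < T := by linarith
  set L := Real.log T with hL
  have hLb := hT2 T hTT2
  rw [← hL] at hLb
  have hinvκ : 0 < 1 / κ := by positivity
  have hCe : 0 < C * Real.exp 4 := by positivity
  have hL4 : 4 ≤ L := by linarith
  have hL0 : 0 < L := by linarith
  have hκL : 1 ≤ κ * L := by
    have h1 : 1 / κ ≤ L := by linarith
    rw [div_le_iff₀ hκ] at h1
    linarith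
  have hTe : T = Real.exp L := by rw [hL, Real.exp_log hT0]
  set γ := ρ.im with hγ
  have hγ0 : 0 < γ := by linarith
  set σ : ℝ := 1 / 2 - 1 / L with hσ
  have hLinv : 1 / L ≤ 1 / 4 := one_div_le_one_div_of_le (by norm_num) hL4
  have hLinv0 : 0 < 1 / L := by positivity
  have hσ0 : 1 / 4 ≤ σ := by linarith
  have hσ1 : σ ≤ 1 / 2 := by linarith
  set s : ℂ := (σ : ℂ) + t * I with hs
  have hsre : s.re = σ := by simp [hs]
  have hsim : s.im = t := by simp [hs]
  set E := ‖ρ - 1‖ with hE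
  have hEγ : γ ≤ E := by
    refine le_trans ?_ (Complex.abs_im_le_norm _)
    rw [Complex.sub_im, Complex.one_im, sub_zero]
    exact le_abs_self _
  have hE0 : 0 < E := by linarith
  set w := |t - γ| with hw
  have hw0 : 0 ≤ w := abs_nonneg _
  have hw2 : (t - γ) ^ 2 = w ^ 2 := (sq_abs _).symm
  rw [hw2]
  by_cases hnear : w ≤ D
  · have hζ2 := hgood t hnear
    have hζ : ‖riemannZeta s‖ ≤ L ^ 5 := by
      have h1 : ‖riemannZeta s‖ ^ 2 ≤ (L ^ 5) ^ 2 := by
        rw [← pow_mul]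
        exact hζ2
      exact (sq_le_sq₀ (norm_nonneg _) (by positivity)).mp h1
    have hs1 : s ≠ 1 := by
      intro h0
      have h1 : s.im = 0 := by rw [h0]; simp
      rw [hsim] at h1
      rw [hw, h1, zero_sub, abs_neg, abs_of_pos hγ0] at hnear
      linarith
    have h2 : ‖s - 1‖ ≤ 2 * E := by
      have h3 : ‖s - 1‖ ≤ ‖s - ρ‖ + ‖ρ - 1‖ := by
        calc ‖s - 1‖ = ‖(s - ρ) + (ρ - 1)‖ := by congr 1; ring
          _ ≤ _ := norm_add_le _ _
      have h4 : ‖s - ρ‖ ≤ 1 + D := by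
        refine (Complex.norm_le_abs_re_add_abs_im _).trans ?_
        rw [Complex.sub_re, Complex.sub_im, hsre, hsim]
        have h5 : |σ - ρ.re| ≤ 1 := by
          rw [abs_le]
          constructor <;> linarith
        linarith
      linarith
    have h3 : ‖zE s‖ / E ≤ 2 * L ^ 5 := by
      rw [zE_of_ne hs1, norm_mul, div_le_iff₀ hE0]
      calc ‖s - 1‖ * ‖riemannZeta s‖ ≤ (2 * E) * L ^ 5 :=
            mul_le_mul h2 hζ (norm_nonneg _) (by positivity)
        _ = 2 * L ^ 5 * E := by ring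
    have h4 : Real.exp (-(κ * L * w ^ 2)) ≤ Real.exp (-(w ^ 2 / 4)) := by
      rw [Real.exp_le_exp]
      nlinarith [mul_le_mul_of_nonneg_right hκL (sq_nonneg w), sq_nonneg w]
    calc ‖zE s‖ / E * (L * Real.exp (-(κ * L * w ^ 2))) ≤
          (2 * L ^ 5) * (L * Real.exp (-(w ^ 2 / 4))) :=
          mul_le_mul h3 (mul_le_mul_of_nonneg_left h4 hL0.le) (by positivity) (by positivity)
      _ = _ := by ring
  · push Not at hnear
    have h1 : ‖zE s‖ ≤ C * (T ^ 2 * (1 + w) ^ 2) := by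
      refine (hCb s (by rw [hsre]; exact hσ0)).trans ?_
      refine mul_le_mul_of_nonneg_left ?_ hC.le
      rw [← mul_pow]
      refine pow_le_pow_left₀ (by positivity) ?_ 2
      have h2 : ‖s‖ ≤ 1 + γ + w := by
        refine (Complex.norm_le_abs_re_add_abs_im _).trans ?_
        rw [hsre, hsim, abs_of_nonneg (by linarith)]
        have h3 : |t| ≤ |γ| + |t - γ| := by
          calc |t| = |γ + (t - γ)| := by congr 1; ring
            _ ≤ _ := abs_add_le _ _
        rw [abs_of_pos hγ0] at h3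
        linarith
      have h3 : 2 + γ ≤ T := by linarith
      nlinarith [mul_nonneg hw0 (show 0 ≤ T - 1 by linarith)]
    have h2 : ‖zE s‖ / E ≤ C * (T ^ 2 * (1 + w) ^ 2) := by
      refine (div_le_self (norm_nonneg _) (by linarith)).trans h1
    have h3 : (1 + w) ^ 2 ≤ Real.exp (4 + w ^ 2 / 4) := by
      calc (1 + w) ^ 2 ≤ (Real.exp w) ^ 2 := by
            refine pow_le_pow_left₀ (by positivity) ?_ 2
            have := Real.add_one_le_exp w
            linarith
        _ = Real.exp (2 * w) := by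
            rw [← Real.exp_nat_mul]
            push_cast
            rfl
        _ ≤ _ := by
            rw [Real.exp_le_exp]
            nlinarith [sq_nonneg (w / 2 - 2)]
    have h4 : T ^ 2 * Real.exp (-(κ * L * w ^ 2)) ≤ Real.exp (-(w ^ 2 / 2)) := by
      have h5 : T ^ 2 = Real.exp (2 * L) := by
        rw [hTe, ← Real.exp_nat_mul]
        push_cast
        rfl
      rw [h5, ← Real.exp_add, Real.exp_le_exp]
      have h6 : D ^ 2 ≤ w ^ 2 := pow_le_pow_left₀ (by linarith) hnear.le 2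
      have h7 : κ * D ^ 2 ≤ κ * w ^ 2 := mul_le_mul_of_nonneg_left h6 hκ.le
      have h8 : 4 * L ≤ κ * w ^ 2 * L := mul_le_mul_of_nonneg_right (by linarith) hL0.le
      have h9 : 1 * w ^ 2 ≤ κ * L * w ^ 2 := mul_le_mul_of_nonneg_right hκL (sq_nonneg w)
      linarith
    have h5 : C * Real.exp 4 ≤ 2 * L ^ 5 := by
      have h6 : C * Real.exp 4 ≤ L := by linarith
      have h7 : L ≤ L ^ 5 := by
        calc L = L * 1 := by ring
          _ ≤ L * L ^ 4 := mul_le_mul_of_nonneg_left (one_le_pow₀ (by linarith)) hL0.le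
          _ = L ^ 5 := by ring
      linarith [pow_pos hL0 5]
    calc ‖zE s‖ / E * (L * Real.exp (-(κ * L * w ^ 2))) ≤
          (C * (T ^ 2 * (1 + w) ^ 2)) * (L * Real.exp (-(κ * L * w ^ 2))) :=
          mul_le_mul_of_nonneg_right h2 (by positivity)
      _ = C * L * (1 + w) ^ 2 * (T ^ 2 * Real.exp (-(κ * L * w ^ 2))) := by ring
      _ ≤ C * L * Real.exp (4 + w ^ 2 / 4) * Real.exp (-(w ^ 2 / 2)) := by
          refine mul_le_mul (mul_le_mul_of_nonneg_left h3 (by positivity)) h4 (by positivity)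
            (by positivity)
      _ = (C * Real.exp 4) * L * Real.exp (-(w ^ 2 / 4)) := by
          have h6 : Real.exp (4 + w ^ 2 / 4) * Real.exp (-(w ^ 2 / 2)) =
              Real.exp 4 * Real.exp (-(w ^ 2 / 4)) := by
            rw [← Real.exp_add, ← Real.exp_add]
            congr 1
            ring
          calc C * L * Real.exp (4 + w ^ 2 / 4) * Real.exp (-(w ^ 2 / 2)) =
                C * L * (Real.exp (4 + w ^ 2 / 4) * Real.exp (-(w ^ 2 / 2))) := by ring
            _ = _ := by rw [h6]; ring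
      _ ≤ (2 * L ^ 5) * L * Real.exp (-(w ^ 2 / 4)) := by
          refine mul_le_mul_of_nonneg_right ?_ (Real.exp_pos _).le
          exact mul_le_mul_of_nonneg_right h5 hL0.le
      _ = _ := by ring

end Pool.Agent.P4f18dfV
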