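import Pool.Agent.Lib.P4f18dfV.Defs
import Pool.Agent.Lib.P07318d.Sup

/-!
# Few short intervals contain a large value of the zeta function

Mean value of an alternating Dirichlet polynomial of length `≍ T` at the abscissa `1/2 - 1/log T`,
a Sobolev inequality on unit intervals and counting.
-/

set_option autoImplicit false

open Complex MeasureTheory

namespace Pool.Agent.P4f18dfV

lemma ls_bco {n : ℕ} (hn : 1 ≤ n) : P07318d.bco 0 n = (-1) ^ (n - 1) := by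
  unfold P07318d.bco
  rw [if_neg (by omega), if_neg (by omega)]

lemma ls_pointwise {K : ℕ} (hK : 2 ≤ K) {x t : ℝ} (hx : 0 < x)
    (hx2 : x ≤ 7 / 8) (ht : 0 < t) (htK : 1 + t ≤ 2 ^ K / 2) :
    (9 / 100) * ‖riemannZeta ((x : ℂ) + t * I)‖ ≤
      2 + ‖∑ n ∈ Finset.Icc 1 (2 ^ K), (P07318d.bco 0 n : ℂ) * P07318d.en x t n‖ := by
  set m : ℕ := 2 ^ K with hm
  set s : ℂ := (x : ℂ) + t * Complex.I with hs
  have hre : s.re = x := by simp [hs]
  have him : s.im = t := by simp [hs]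
  have hm1 : 1 ≤ m := Nat.one_le_two_pow
  have hm0 : (0:ℝ) < m := by exact_mod_cast hm1
  have hsn : ‖s‖ ≤ 1 + t := by
    rw [hs]
    refine (norm_add_le _ _).trans ?_
    rw [Complex.norm_real, norm_mul, Complex.norm_real, Complex.norm_I, mul_one,
      Real.norm_of_nonneg (by linarith), Real.norm_of_nonneg ht.le]
    linarith
  have hKm : (K : ℝ) ≤ (m:ℝ) / 2 := by
    have : 2 * K ≤ m := P07318d.two_pow_ge K hK
    have : (2:ℝ) * K ≤ m := by exact_mod_cast this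
    linarith
  have hmK : ((m : ℕ) : ℝ) = 2 ^ K := by rw [hm]; push_cast; rfl
  have hap := P07318d.eta_approx (m := m) (K := K) hK hm1 le_rfl (s := s) (by rw [hre]; linarith) (by rw [him]; exact ht)
    (by rw [← hmK] at htK; linarith)
  rw [hs, P07318d.range_to_Icc, ← hs] at hap
  have e2 : (2 : ℂ) ^ (-s) = P07318d.en x t 2 := by
    rw [← P07318d.en_eq (by norm_num)]; push_cast; rfl
  rw [e2, hre] at hap
  have hsum : ∑ n ∈ Finset.Icc 1 m, (P07318d.bco 0 n : ℂ) * P07318d.en x t n =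
      ∑ n ∈ Finset.Icc 1 m, (-1 : ℂ) ^ (n - 1) * P07318d.en x t n := by
    refine Finset.sum_congr rfl (fun n hn => ?_)
    rw [ls_bco (Finset.mem_Icc.1 hn).1]
    push_cast; rfl
  have hfl := P07318d.factor_lower (x := x) (t := t) hx2
  have hkey : (1 - 2 * P07318d.en x t 2) * riemannZeta s =
      ((1 - 2 * P07318d.en x t 2) * riemannZeta s - ∑ n ∈ Finset.Icc 1 m, (-1 : ℂ) ^ (n - 1) * P07318d.en x t n) +
        ∑ n ∈ Finset.Icc 1 m, (P07318d.bco 0 n : ℂ) * P07318d.en x t n := by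
    rw [hsum]; ring
  have hm2 : (m : ℝ) ^ (-x) ≤ 1 := Real.rpow_le_one_of_one_le_of_nonpos (by exact_mod_cast hm1) (by linarith)
  calc (9/100) * ‖riemannZeta s‖ ≤ ‖1 - 2 * P07318d.en x t 2‖ * ‖riemannZeta s‖ :=
        mul_le_mul_of_nonneg_right hfl (norm_nonneg _)
    _ = ‖(1 - 2 * P07318d.en x t 2) * riemannZeta s‖ := (norm_mul _ _).symm
    _ ≤ _ := by
        rw [hkey]
        refine (norm_add_le _ _).trans ?_
        linarith

lemma ls_sum {L σ : ℝ} {m : ℕ} (hm : 1 ≤ m) (hL : 0 < L) (hmL : Real.log m ≤ 2 * L) (hσ : σ = 1 / 2 - 1 / L) :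
    ∑ n ∈ Finset.Icc 1 m, (|P07318d.bco 0 n| * (n : ℝ) ^ (-σ)) ^ 2 ≤ 55 * (1 + Real.log m) := by
  have hexp : Real.exp 4 ≤ 55 := by
    have h1 : Real.exp 4 = Real.exp 1 ^ 4 := by rw [← Real.exp_nat_mul]; norm_num
    rw [h1]
    have h2 := Real.exp_one_lt_d9
    have h3 : Real.exp 1 ^ 4 ≤ (2.7182818286 : ℝ) ^ 4 := pow_le_pow_left₀ (Real.exp_pos 1).le h2.le 4
    refine h3.trans ?_
    norm_num
  have h1 : ∀ n ∈ Finset.Icc 1 m, (|P07318d.bco 0 n| * (n : ℝ) ^ (-σ)) ^ 2 ≤ 55 * (1 / n) := by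
    intro n hn
    have hn1 := (Finset.mem_Icc.1 hn).1
    have hn0 : (0:ℝ) < n := by exact_mod_cast hn1
    rw [mul_pow, sq_abs]
    have e1 : ((n : ℝ) ^ (-σ)) ^ 2 = (n : ℝ) ^ (2 / L) * (1 / n) := by
      rw [one_div, ← Real.rpow_neg_one, ← Real.rpow_add hn0, ← Real.rpow_natCast, ← Real.rpow_mul hn0.le]
      congr 1; rw [hσ]; push_cast; ring
    rw [e1]
    have h2 : (n : ℝ) ^ (2 / L) ≤ 55 := by
      refine le_trans ?_ hexp
      rw [Real.rpow_def_of_pos hn0]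
      apply Real.exp_le_exp.2
      have h3 : Real.log n ≤ 2 * L :=
        (Real.log_le_log hn0 (by exact_mod_cast (Finset.mem_Icc.1 hn).2)).trans hmL
      calc Real.log n * (2 / L) ≤ (2 * L) * (2 / L) := mul_le_mul_of_nonneg_right h3 (by positivity)
        _ = 4 := by field_simp; norm_num
    have h3 := P07318d.bco_sq_le 0 n
    have h4 : 0 ≤ (n : ℝ) ^ (2 / L) * (1 / n) := by positivity
    calc P07318d.bco 0 n ^ 2 * ((n : ℝ) ^ (2 / L) * (1 / n)) ≤ 1 * ((n : ℝ) ^ (2 / L) * (1 / n)) :=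
          mul_le_mul_of_nonneg_right h3 h4
      _ = (n : ℝ) ^ (2 / L) * (1 / n) := one_mul _
      _ ≤ _ := mul_le_mul_of_nonneg_right h2 (by positivity)
  refine (Finset.sum_le_sum h1).trans ?_
  rw [← Finset.mul_sum]
  exact mul_le_mul_of_nonneg_left (P07318d.harm_le m) (by positivity)

/-- disjoint unit intervals inside `(a, c]` -/
lemma ls_disj {G : ℝ → ℝ} (hG : Continuous G) (h0 : ∀ u, 0 ≤ G u) {a c : ℝ} (hac : a ≤ c) (Z : Finset ℝ)
    (t : ℝ → ℝ) (h1 : ∀ g ∈ Z, a ≤ t g) (h2 : ∀ g ∈ Z, t g + 1 ≤ c)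
    (h3 : ∀ g ∈ Z, ∀ g' ∈ Z, g ≠ g' → 1 ≤ |t g - t g'|) :
    ∑ g ∈ Z, ∫ y in (t g)..(t g + 1), G y ≤ ∫ y in a..c, G y := by
  have e1 : ∀ g ∈ Z, ∫ y in (t g)..(t g + 1), G y = ∫ y in Set.Ioc (t g) (t g + 1), G y := fun g _ =>
    intervalIntegral.integral_of_le (by linarith)
  have hint : IntegrableOn G (Set.Ioc a c) := (hG.continuousOn.integrableOn_Icc).mono_set Set.Ioc_subset_Icc_self
  rw [Finset.sum_congr rfl e1, intervalIntegral.integral_of_le hac, ← integral_biUnion_finset]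
  · apply setIntegral_mono_set hint (Filter.Eventually.of_forall h0)
    apply Filter.Eventually.of_forall
    intro y hy
    have hy' : y ∈ ⋃ g ∈ Z, Set.Ioc (t g) (t g + 1) := hy
    simp only [Set.mem_iUnion] at hy'
    obtain ⟨g, hg, hgy⟩ := hy'
    exact ⟨lt_of_le_of_lt (h1 g hg) hgy.1, hgy.2.trans (h2 g hg)⟩
  · intro g _; exact measurableSet_Ioc
  · intro g hg g' hg' hne
    rw [Function.onFun, Set.disjoint_left]
    intro y hy hy'
    have := h3 g hg g' hg' hne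
    rcases le_abs'.1 this with h | h
    · linarith [hy.1, hy.2, hy'.1, hy'.2]
    · linarith [hy.1, hy.2, hy'.1, hy'.2]
  · intro g hg
    exact hint.mono_set (fun y hy => ⟨lt_of_le_of_lt (h1 g hg) hy.1, hy.2.trans (h2 g hg)⟩)

theorem bad_count (D : ℝ) (hD : 1 ≤ D) : ∃ T0 : ℝ, ∀ T : ℝ, T0 ≤ T → ∀ Z : Finset ℝ,
    (∀ g ∈ Z, T / 8 ≤ g ∧ g ≤ T / 4) → (∀ g ∈ Z, ∀ g' ∈ Z, g ≠ g' → 2 * D + 3 ≤ |g - g'|) →
    ∀ Z' ⊆ Z, (∀ g ∈ Z', ∃ t : ℝ, |t - g| ≤ D ∧
      Real.log T ^ 10 < ‖riemannZeta (((1 / 2 - 1 / Real.log T : ℝ) : ℂ) + t * I)‖ ^ 2) →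
    (Z'.card : ℝ) ≤ T / Real.log T ^ 4 := by
  refine ⟨Real.exp 10000 + 16 * D + 16, ?_⟩
  intro T hT Z hZ hsp Z' hZ' hbad
  have hexp0 : (10001 : ℝ) ≤ Real.exp 10000 := by
    have := Real.add_one_le_exp (10000 : ℝ)
    linarith
  have hT0 : 0 < T := by linarith
  set L := Real.log T with hL
  have hL4 : (10000 : ℝ) ≤ L := by
    rw [hL, Real.le_log_iff_exp_le hT0]
    linarith
  have hL0 : 0 < L := by linarith
  set σ : ℝ := 1 / 2 - 1 / L with hσ
  have hinv : 1 / L ≤ 1 / 4 := by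
    apply one_div_le_one_div_of_le (by norm_num); linarith
  have hinv0 : 0 < 1 / L := by positivity
  have hσ1 : 0 < σ := by rw [hσ]; linarith
  have hσ2 : σ ≤ 7 / 8 := by rw [hσ]; linarith
  obtain ⟨n, hn1, hn2⟩ := exists_nat_pow_near (show (1:ℝ) ≤ 4 * T by linarith) (show (1:ℝ) < 2 by norm_num)
  set K := n + 1 with hK
  set m : ℕ := 2 ^ K with hm
  have hmr : (m : ℝ) = 2 ^ K := by rw [hm]; push_cast; rfl
  have hm8 : (m : ℝ) ≤ 8 * T := by
    rw [hmr, hK, pow_succ]; linarith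
  have hm4 : 4 * T < (m : ℝ) := by rw [hmr]; exact hn2
  have hm0 : (0:ℝ) < m := by linarith
  have hm1 : 1 ≤ m := Nat.one_le_two_pow
  have hK2 : 2 ≤ K := by
    by_contra hcon
    have : K ≤ 1 := by omega
    have h1 : (2:ℝ) ^ K ≤ 2 ^ 1 := pow_le_pow_right₀ (by norm_num) this
    rw [← hmr] at h1
    linarith
  have hlogm : Real.log m ≤ 2 * L := by
    have h4 : Real.log m ≤ Real.log (T * T) := Real.log_le_log hm0 (by nlinarith)
    rw [Real.log_mul hT0.ne' hT0.ne'] at h4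
    linarith
  have hlogm0 : 0 ≤ Real.log m := Real.log_nonneg (by exact_mod_cast hm1)
  set f : ℝ → ℂ := fun t => ∑ n ∈ Finset.Icc 1 m, (P07318d.bco 0 n : ℂ) * P07318d.en σ t n with hf
  set f' : ℝ → ℂ := fun t => -Complex.I * ∑ n ∈ Finset.Icc 1 m, ((P07318d.bco 0 n * Real.log n : ℝ) : ℂ) * P07318d.en σ t n with hf'
  have hder : ∀ t, HasDerivAt f (f' t) t := fun t => P07318d.poly_hasDeriv m (P07318d.bco 0) σ t
  have hfc : Continuous f := by rw [hf]; unfold P07318d.en; fun_prop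
  have hfc' : Continuous f' := by rw [hf']; unfold P07318d.en; fun_prop
  set G : ℝ → ℝ := fun t => 2 * ‖f t‖ ^ 2 + ‖f' t‖ ^ 2 with hG
  have hGc : Continuous G := by rw [hG]; fun_prop
  have hG0 : ∀ t, 0 ≤ G t := fun t => by rw [hG]; positivity
  -- the points
  choose! t ht1 ht2 using hbad
  have hrange : ∀ g ∈ Z', T / 16 ≤ t g ∧ t g + 1 ≤ T := by
    intro g hg
    have h1 := hZ g (hZ' hg)
    have h2 := abs_le.1 (ht1 g hg)
    constructor
    · linarith [h1.1, h2.1]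
    · linarith [h1.2, h2.2]
  have hsep : ∀ g ∈ Z', ∀ g' ∈ Z', g ≠ g' → 1 ≤ |t g - t g'| := by
    intro g hg g' hg' hne
    have h1 := hsp g (hZ' hg) g' (hZ' hg') hne
    have h2 := abs_le.1 (ht1 g hg)
    have h3 := abs_le.1 (ht1 g' hg')
    rcases le_abs'.1 h1 with h | h
    · rw [abs_of_neg (by linarith [h2.1, h2.2, h3.1, h3.2])]
      linarith [h2.1, h2.2, h3.1, h3.2]
    · rw [abs_of_pos (by linarith [h2.1, h2.2, h3.1, h3.2])]
      linarith [h2.1, h2.2, h3.1, h3.2]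
  -- lower bound at each point
  have hlow : ∀ g ∈ Z', L ^ 10 / 1000 ≤ ∫ y in (t g)..(t g + 1), G y := by
    intro g hg
    obtain ⟨hr1, hr2⟩ := hrange g hg
    have htpos : 0 < t g := by linarith
    have hp := ls_pointwise hK2 hσ1 hσ2 htpos (by rw [← hmr]; linarith)
    have h1 : L ^ 5 < ‖riemannZeta ((σ : ℂ) + (t g) * I)‖ := by
      have h2 := ht2 g hg
      apply lt_of_pow_lt_pow_left₀ 2 (norm_nonneg _)
      calc (L ^ 5) ^ 2 = L ^ 10 := by ring
        _ < _ := h2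
    have h5 : (200 : ℝ) ≤ L ^ 5 := by
      have : (10000 : ℝ) ^ 5 ≤ L ^ 5 := pow_le_pow_left₀ (by norm_num) hL4 5
      refine le_trans ?_ this
      norm_num
    have h2 : (8 / 100) * L ^ 5 ≤ ‖f (t g)‖ := by
      have : (9 / 100) * ‖riemannZeta ((σ : ℂ) + (t g) * I)‖ ≤ 2 + ‖f (t g)‖ := hp
      linarith
    have h3 := P07318d.sobolev hder hfc' (t g)
    have h4 : ((8 / 100) * L ^ 5) ^ 2 ≤ ‖f (t g)‖ ^ 2 := pow_le_pow_left₀ (by positivity) h2 2
    have h6 : ((8 / 100) * L ^ 5) ^ 2 = (64 / 10000) * L ^ 10 := by ring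
    have h7 : 0 ≤ L ^ 10 := by positivity
    calc L ^ 10 / 1000 ≤ (64 / 10000) * L ^ 10 := by linarith
      _ ≤ ‖f (t g)‖ ^ 2 := by rw [← h6]; exact h4
      _ ≤ _ := h3
  have hT16 : T / 16 ≤ T := by linarith
  have hdisj := ls_disj hGc hG0 hT16 Z' t (fun g hg => (hrange g hg).1) (fun g hg => (hrange g hg).2) hsep
  have hcount : (Z'.card : ℝ) * (L ^ 10 / 1000) ≤ ∫ y in (T / 16)..T, G y := by
    refine le_trans ?_ hdisj
    rw [← nsmul_eq_mul]
    exact Finset.card_nsmul_le_sum _ _ _ hlow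
  -- mean values
  set S := ∑ n ∈ Finset.Icc 1 m, (|P07318d.bco 0 n| * (n : ℝ) ^ (-σ)) ^ 2 with hS
  have hS0 : 0 ≤ S := Finset.sum_nonneg (fun _ _ => by positivity)
  have hS1 : S ≤ 165 * L := by
    have h1 := ls_sum hm1 hL0 hlogm hσ
    rw [← hS] at h1
    linarith
  have hcoef : (T - T / 16) + 4 * m * (1 + Real.log m) ≤ 97 * T * L := by
    have h4 : (m : ℝ) * (1 + Real.log m) ≤ 8 * T * (3 * L) := by
      apply mul_le_mul hm8 (by linarith) (by linarith) (by linarith)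
    nlinarith
  have hcoef0 : 0 ≤ (T - T / 16) + 4 * m * (1 + Real.log m) := by
    have : 0 ≤ T - T / 16 := by linarith
    positivity
  have hA : ∫ t in (T / 16)..T, ‖f t‖ ^ 2 ≤ 16005 * T * L ^ 2 := by
    refine (P07318d.dir_ms m (P07318d.bco 0) σ hT16).trans ?_
    calc ((T - T / 16) + 4 * m * (1 + Real.log m)) * S ≤ (97 * T * L) * (165 * L) := by
          apply mul_le_mul hcoef hS1 hS0 (by positivity)
      _ = _ := by ring
  have hB : ∫ t in (T / 16)..T, ‖f' t‖ ^ 2 ≤ 64020 * T * L ^ 4 := by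
    have e1 : ∀ t, ‖f' t‖ ^ 2 = ‖∑ n ∈ Finset.Icc 1 m, ((P07318d.bco 0 n * Real.log n : ℝ) : ℂ) * P07318d.en σ t n‖ ^ 2 := by
      intro t
      rw [hf']
      simp only
      rw [norm_mul, norm_neg, Complex.norm_I, one_mul]
    simp_rw [e1]
    refine (P07318d.dir_ms m (fun n => P07318d.bco 0 n * Real.log n) σ hT16).trans ?_
    have hS2 : ∑ n ∈ Finset.Icc 1 m, (|P07318d.bco 0 n * Real.log n| * (n : ℝ) ^ (-σ)) ^ 2 ≤ (2 * L) ^ 2 * S := by
      rw [hS, Finset.mul_sum]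
      apply Finset.sum_le_sum
      intro n hn
      have hn1 := (Finset.mem_Icc.1 hn).1
      have hn0 : (0:ℝ) < n := by exact_mod_cast hn1
      have hlog0 : 0 ≤ Real.log n := Real.log_nonneg (by exact_mod_cast hn1)
      have hlogn : Real.log n ≤ 2 * L :=
        (Real.log_le_log hn0 (by exact_mod_cast (Finset.mem_Icc.1 hn).2)).trans hlogm
      rw [abs_mul, abs_of_nonneg hlog0]
      have e2 : (|P07318d.bco 0 n| * Real.log n * (n : ℝ) ^ (-σ)) ^ 2 = Real.log n ^ 2 * (|P07318d.bco 0 n| * (n : ℝ) ^ (-σ)) ^ 2 := by ring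
      rw [e2]
      apply mul_le_mul_of_nonneg_right (pow_le_pow_left₀ hlog0 hlogn 2) (by positivity)
    calc ((T - T / 16) + 4 * m * (1 + Real.log m)) * ∑ n ∈ Finset.Icc 1 m, (|P07318d.bco 0 n * Real.log n| * (n : ℝ) ^ (-σ)) ^ 2
        ≤ (97 * T * L) * ((2 * L) ^ 2 * (165 * L)) := by
          apply mul_le_mul hcoef _ (Finset.sum_nonneg (fun _ _ => by positivity)) (by positivity)
          exact hS2.trans (mul_le_mul_of_nonneg_left hS1 (by positivity))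
      _ = _ := by ring
  have hGI : ∫ t in (T / 16)..T, G t ≤ 100000 * T * L ^ 4 := by
    have e1 : ∫ t in (T / 16)..T, G t = 2 * (∫ t in (T / 16)..T, ‖f t‖ ^ 2) + ∫ t in (T / 16)..T, ‖f' t‖ ^ 2 := by
      rw [← intervalIntegral.integral_const_mul, ← intervalIntegral.integral_add
        (Continuous.intervalIntegrable (by fun_prop) _ _) (Continuous.intervalIntegrable (by fun_prop) _ _)]
    rw [e1]
    have h5 : T * L ^ 2 ≤ T * L ^ 4 := by
      have h6 : L ^ 2 ≤ L ^ 4 := pow_le_pow_right₀ (by linarith) (by norm_num)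
      exact mul_le_mul_of_nonneg_left h6 hT0.le
    have h8 : 0 ≤ T * L ^ 4 := by positivity
    linarith
  -- conclusion
  have hfin : (Z'.card : ℝ) * L ^ 10 ≤ 100000000 * (T * L ^ 4) := by
    have := hcount.trans hGI
    linarith
  have hL2 : (100000000 : ℝ) ≤ L ^ 2 := by nlinarith
  rw [le_div_iff₀ (by positivity)]
  have h6 : 0 < L ^ 6 := by positivity
  have h9 : (Z'.card : ℝ) * L ^ 4 * L ^ 6 ≤ T * L ^ 6 := by
    calc (Z'.card : ℝ) * L ^ 4 * L ^ 6 = (Z'.card : ℝ) * L ^ 10 := by ring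
      _ ≤ 100000000 * (T * L ^ 4) := hfin
      _ ≤ L ^ 2 * (T * L ^ 4) := mul_le_mul_of_nonneg_right hL2 (by positivity)
      _ = T * L ^ 6 := by ring
  exact le_of_mul_le_mul_right h9 h6

end Pool.Agent.P4f18dfV
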