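import Pool.Agent.Lib.P4f18dfV.PZ5

/-!
# The inequality given by one zero

The residue identity `core` at one zero, divided by `‖ρ - 1‖`, with the three error terms estimated.
-/

set_option autoImplicit false

open Complex MeasureTheory

namespace Pool.Agent.P4f18dfV

theorem per_zero (ε : ℝ) (hε : 0 < ε) (hε1 : ε < 1) : ∃ κ T0 : ℝ, 0 < κ ∧ ∀ T : ℝ, T0 ≤ T →
    ∀ Y : ℝ, 1 ≤ Y → Y ≤ T ^ (1 / ε) → ∀ ρ : ℂ, riemannZeta ρ = 0 → 1 / 2 ≤ ρ.re → ρ.re < 1 →
    T / 8 ≤ ρ.im → ρ.im ≤ T / 4 →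
    1 / T ≤ ∫ t : ℝ, ‖zE (((1 / 2 - 1 / Real.log T : ℝ) : ℂ) + t * I)‖ / ‖ρ - 1‖ *
      ‖PX T (Real.log Y) (Real.log Y + (1 + ε) * Real.log T)
        (((1 / 2 - 1 / Real.log T : ℝ) : ℂ) + t * I)‖ *
      (Real.log T * Real.exp (-(κ * Real.log T * (t - ρ.im) ^ 2))) := by
  obtain ⟨n, hnε, hn16⟩ : ∃ n : ℕ, 16 / ε ^ 2 ≤ (n : ℝ) ∧ 16 ≤ n := by
    refine ⟨⌈16 / ε ^ 2⌉₊, Nat.le_ceil _, ?_⟩
    have h1 : (16 : ℝ) ≤ 16 / ε ^ 2 := by
      rw [le_div_iff₀ (by positivity)]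
      nlinarith
    have h2 := h1.trans (Nat.le_ceil (16 / ε ^ 2))
    exact_mod_cast h2
  set κ : ℝ := 1 / ((n : ℝ) + 1) ^ 2 with hκdef
  have hκ : 0 < κ := by positivity
  have hκn : κ * ((n : ℝ) + 1) ^ 2 ≤ 1 := by
    rw [hκdef]
    exact le_of_eq (by field_simp)
  have hκ1 : κ ≤ 1 := by
    rw [hκdef, div_le_one (by positivity)]
    have : (0 : ℝ) ≤ n := Nat.cast_nonneg n
    nlinarith
  obtain ⟨G0, hG0, H0⟩ := err0 hκ
  obtain ⟨G1, hG1, H1⟩ := err1 hκ n hn16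
  obtain ⟨G3, hG3, H3⟩ := err3 hκ n hn16
  refine ⟨κ, 16 + G0 + G1 + G3, hκ, ?_⟩
  intro T hT Y hY1 hY ρ hζ hβ0 hβ1 hg0 hg1
  have hT16 : 16 ≤ T := by linarith
  have hT0 : 0 < T := by linarith
  set L := Real.log T with hL
  have hTe : T = Real.exp L := by rw [hL, Real.exp_log hT0]
  have hL1 : 1 ≤ L := by
    rw [hL, Real.le_log_iff_exp_le hT0]
    have := Real.exp_one_lt_d9
    linarith
  have hL0 : 0 < L := by linarith
  have hn : (16 : ℝ) ≤ n := by exact_mod_cast hn16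
  set u := Real.log Y with hu
  have hu0 : 0 ≤ u := Real.log_nonneg hY1
  have huL : u ≤ L / ε := by
    have h1 := Real.log_le_log (by linarith) hY
    rw [Real.log_rpow hT0] at h1
    rw [hu, hL]
    calc Real.log Y ≤ 1 / ε * Real.log T := h1
      _ = _ := by ring
  set v := u + (1 + ε) * L with hv
  set b := u + (1 + ε / 2) * L with hb
  have huv : u ≤ v := by
    rw [hv]
    have : 0 ≤ (1 + ε) * L := by positivity
    linarith
  have hLb : L ≤ b := by
    rw [hb]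
    have : 0 ≤ ε / 2 * L := by positivity
    linarith
  set h : ℝ := Real.sqrt (2 * κ * L) with hh
  have hh0 : 0 < h := Real.sqrt_pos.mpr (by positivity)
  have hh2 : h ^ 2 / 2 = κ * L := by
    rw [hh, Real.sq_sqrt (by positivity)]
    ring
  have hγ : 0 < ρ.im := by linarith
  have hρ1 : ρ ≠ 1 := by
    intro h0
    rw [h0] at hγ
    simp at hγ
  have hρ : zE ρ = 0 := by
    rw [zE_of_ne hρ1, hζ, mul_zero]
  set σ : ℝ := 1 / 2 - 1 / L with hσ
  have hLinv : 1 / L ≤ 1 := by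
    rw [div_le_one hL0]
    exact hL1
  have hLinv0 : 0 < 1 / L := by positivity
  have hσa : -(n : ℝ) < σ := by linarith
  have hσ2 : σ < 1 / 2 := by linarith
  have hid := core (T := T) (u := u) (v := v) (b := b) (h := h) (c := (n : ℝ)) (a := -(n : ℝ))
    (σ := σ) (by linarith) hu0 huv hh0 hρ hβ0 hβ1 hσa hσ2 (by linarith)
  have e0 := H0 T u b h n L ρ hT16 hL hL1 hu0 hLb hh2 hκn hn hβ0 hβ1 hg0 hg1
  have e1 := H1 ε T u b h L ρ hε hε1 hnε hT16 hL hL1 hu0 huL hb hh2 hκn hρ hβ0 hβ1 hg0 hg1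
  have e3 := H3 ε T u b h L v ρ hε hε1 hnε hT16 hL hL1 hu0 huL hb hv hh2 hκn hρ hβ0 hβ1 hg0 hg1
  set D := ‖ρ - 1‖ with hD
  have hD1 : 1 ≤ D := by
    refine le_trans ?_ (Complex.abs_im_le_norm _)
    rw [Complex.sub_im, Complex.one_im, sub_zero, abs_of_pos hγ]
    linarith
  have hD0 : 0 < D := by linarith
  -- the main integral
  set W : ℝ → ℝ := fun t => ‖zE ((σ : ℂ) + t * I)‖ * ‖PX T u v ((σ : ℂ) + t * I)‖ *
    (L * Real.exp (-(κ * L * (t - ρ.im) ^ 2))) with hW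
  have hWint : Integrable W := by
    obtain ⟨K, hK, hKb⟩ := zE_crude
    have hσR : ∀ s : ℂ, |s.re| ≤ 2 → ‖zE s‖ ≤ (Real.exp (K + K * 2 * Real.log 2) + K) *
        Real.exp ((Real.exp (K + K * 2 * Real.log 2) + K) * |s.im|) := by
      intro s hs
      refine (hKb 2 le_rfl s hs).trans ?_
      have h1 : Real.exp (K * (1 + |s.im|) + K * 2 * Real.log 2) =
          Real.exp (K + K * 2 * Real.log 2) * Real.exp (K * |s.im|) := by
        rw [← Real.exp_add]
        congr 1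
        ring
      rw [h1]
      exact le_exp_shape (Real.exp_pos _).le hK.le (abs_nonneg _)
    have hPb : ∀ s : ℂ, |s.re| ≤ 2 → ‖PX T u v s‖ ≤
        (Real.exp v + 1) * Real.exp (2 * (|u| + |v|)) * (v - u) := by
      intro s hs
      rw [PX_eq]
      exact GX_strip huv (dd_norm_le (by linarith)) hs
    have hvu : 0 ≤ v - u := by linarith
    have h1 := shift_integrable (F := fun s => zE s * PX T u v s) (a := σ)
      (line_cont ((zE_diff.mul (PX_diff (by linarith) huv)).continuous) σ)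
      (fun t => by
        have h := prod_bound (Q := zE) (P := PX T u v) (by positivity) (by positivity) hσR hPb
          (s := (σ : ℂ) + t * I) (by
            rw [line_re, abs_le]
            constructor <;> linarith)
        rw [line_im] at h
        exact h) hh0 0 ((σ : ℂ) + ρ.im * I)
    refine (h1.norm.const_mul L).congr (Filter.Eventually.of_forall (fun t => ?_))
    show L * ‖zE ((σ : ℂ) + t * I) * PX T u v ((σ : ℂ) + t * I) *
      gk 0 h ((σ : ℂ) + ρ.im * I) ((σ : ℂ) + t * I)‖ = _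
    rw [norm_mul, norm_mul, gk_line, line_re, line_im, hh2, hW]
    simp only [sub_self, mul_zero, zero_pow two_ne_zero, add_zero, Real.exp_zero, one_mul]
    ring
  have e2 : ‖∫ t : ℝ, dslope zE ρ (σ + t * I) * PX T u v (σ + t * I) * gk b h ρ (σ + t * I)‖ ≤
      ∫ t : ℝ, W t := by
    refine norm_integral_le_of_norm_le hWint (Filter.Eventually.of_forall (fun t => ?_))
    rw [norm_mul, norm_mul, gk_line, hh2]
    have hd1 : 1 / L ≤ ‖((σ : ℂ) + t * I) - ρ‖ := by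
      refine le_trans ?_ (Complex.abs_re_le_norm _)
      rw [Complex.sub_re, line_re, abs_of_nonpos (by linarith)]
      linarith
    have h1 := dslope_zE_norm hρ hLinv0 hd1
    have h2 : ‖zE ((σ : ℂ) + t * I)‖ / (1 / L) = ‖zE ((σ : ℂ) + t * I)‖ * L := by
      field_simp
    rw [h2] at h1
    have h3 : Real.exp (b * (σ - ρ.re) + κ * L * (σ - ρ.re) ^ 2) ≤ 1 := by
      rw [Real.exp_le_one_iff]
      have h4 : 0 ≤ ρ.re - σ := by linarith
      have h5 : ρ.re - σ ≤ 2 := by linarith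
      have hκ4 : κ * 4 ≤ 1 := by
        have : (4 : ℝ) ≤ ((n : ℝ) + 1) ^ 2 := by nlinarith
        calc κ * 4 ≤ κ * ((n : ℝ) + 1) ^ 2 := mul_le_mul_of_nonneg_left this hκ.le
          _ ≤ 1 := hκn
      have h6 : κ * (ρ.re - σ) ≤ 1 := by nlinarith
      have h7 : κ * L * (σ - ρ.re) ^ 2 = L * (ρ.re - σ) * (κ * (ρ.re - σ)) := by ring
      have h8 : L * (ρ.re - σ) * (κ * (ρ.re - σ)) ≤ L * (ρ.re - σ) * 1 :=
        mul_le_mul_of_nonneg_left h6 (by positivity)
      have h9 : L * (ρ.re - σ) ≤ b * (ρ.re - σ) := mul_le_mul_of_nonneg_right hLb h4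
      rw [h7]
      linarith
    have h4 := Real.exp_pos (-(κ * L * (t - ρ.im) ^ 2))
    calc ‖dslope zE ρ (σ + t * I)‖ * ‖PX T u v (σ + t * I)‖ *
          (Real.exp (b * (σ - ρ.re) + κ * L * (σ - ρ.re) ^ 2) *
            Real.exp (-(κ * L * (t - ρ.im) ^ 2))) ≤
          (‖zE ((σ : ℂ) + t * I)‖ * L) * ‖PX T u v (σ + t * I)‖ *
            (1 * Real.exp (-(κ * L * (t - ρ.im) ^ 2))) := by
          refine mul_le_mul (mul_le_mul_of_nonneg_right h1 (norm_nonneg _))
            (mul_le_mul_of_nonneg_right h3 h4.le) (by positivity) (by positivity)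
      _ = W t := by
          rw [hW]
          ring
  -- conclusion
  have hfin : ∫ t : ℝ, ‖zE ((σ : ℂ) + t * I)‖ / D * ‖PX T u v ((σ : ℂ) + t * I)‖ *
      (L * Real.exp (-(κ * L * (t - ρ.im) ^ 2))) = (∫ t : ℝ, W t) / D := by
    rw [← integral_div]
    refine integral_congr_ae (Filter.Eventually.of_forall (fun t => ?_))
    rw [hW]
    simp only
    ring
  show 1 / T ≤ ∫ t : ℝ, ‖zE ((σ : ℂ) + t * I)‖ / D * ‖PX T u v ((σ : ℂ) + t * I)‖ *
      (L * Real.exp (-(κ * L * (t - ρ.im) ^ 2)))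
  rw [hfin, le_div_iff₀ hD0]
  have hm := mm_lower (T := T) (by linarith) (by linarith : 0 ≤ ρ.re) hγ.le hg1
  have hnorm : 2 * Real.pi * (D * ‖mm T ρ‖) ≤ (∫ t : ℝ, W t) + G1 * Real.exp (-(2 * L)) +
      G3 * Real.exp (-(2 * L)) + G0 * Real.exp (-(2 * L)) := by
    have h1 : 2 * Real.pi * (D * ‖mm T ρ‖) = ‖2 * (Real.pi : ℂ) * ((ρ - 1) * mm T ρ)‖ := by
      rw [norm_mul, norm_mul, norm_mul, Complex.norm_real, Real.norm_eq_abs,
        abs_of_pos Real.pi_pos]
      simp [hD]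
    rw [h1, hid]
    refine (norm_sub_le _ _).trans ?_
    refine add_le_add ?_ e0
    refine (norm_add_le _ _).trans ?_
    refine add_le_add ?_ e3
    refine (norm_add_le _ _).trans ?_
    exact add_le_add e2 e1
  have hsmall : (G0 + G1 + G3) * Real.exp (-(2 * L)) ≤ 1 / T := by
    have h1 : Real.exp (-(2 * L)) = 1 / T * (1 / T) := by
      rw [show -(2 * L) = -L + -L by ring, Real.exp_add, Real.exp_neg, ← hTe]
      ring
    rw [h1, ← mul_assoc]
    have h2 : (G0 + G1 + G3) * (1 / T) ≤ 1 := by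
      rw [mul_one_div, div_le_one hT0]
      linarith
    calc (G0 + G1 + G3) * (1 / T) * (1 / T) ≤ 1 * (1 / T) :=
          mul_le_mul_of_nonneg_right h2 (by positivity)
      _ = 1 / T := one_mul _
  have hpi := Real.pi_gt_three
  have hTinv : 0 < 1 / T := by positivity
  have h9 : D * (9 / 10 / T) ≤ D * ‖mm T ρ‖ := mul_le_mul_of_nonneg_left hm hD0.le
  have h10 : 2 * 3 * (D * (9 / 10 / T)) ≤ 2 * Real.pi * (D * ‖mm T ρ‖) := by
    refine mul_le_mul (by linarith) h9 (by positivity) (by positivity)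
  have h11 : 2 * 3 * (D * (9 / 10 / T)) = 54 / 10 * (1 / T * D) := by ring
  have h12 : 1 / T ≤ 1 / T * D := by
    calc 1 / T = 1 / T * 1 := by ring
      _ ≤ 1 / T * D := mul_le_mul_of_nonneg_left hD1 hTinv.le
  linarith

end Pool.Agent.P4f18dfV
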