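import Pool.Agent.Lib.P4f18dfV.Defs

/-!
# A Plancherel inequality with a Gaussian weight

PROOF SKETCH. Expand the square and use Fubini (everything is bounded on `[u, v]²` times the integrable
Gaussian): the left side is `∫∫ g(x) conj (g(y)) (∫ exp (-i t (x - y)) exp (-(t/T)²) dt) dx dy`
`= ∫∫ g(x) conj (g(y)) √π T exp (-T² (x - y)² / 4) dx dy` (Mathlib `fourierIntegral_gaussian` /
`integral_cexp_quadratic`), `≤ ∫∫ (‖g x‖² + ‖g y‖²)/2 √π T exp (-T² (x - y)²/4) ≤ 2 π ∫ ‖g‖²` because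
`∫ √π T exp (-T² z²/4) dz = 2 π`.
-/

set_option autoImplicit false

open Complex MeasureTheory

namespace Pool.Agent.P4f18dfV

namespace Planch

/-- The kernel. -/
noncomputable def K (T z : ℝ) : ℝ := Real.sqrt Real.pi * T * Real.exp (-(T ^ 2 / 4) * z ^ 2)

lemma K_nonneg {T : ℝ} (hT : 0 < T) (z : ℝ) : 0 ≤ K T z := by unfold K; positivity

lemma K_cont (T : ℝ) : Continuous (K T) := by unfold K; fun_prop

lemma fourier_K {T : ℝ} (hT : 0 < T) (z : ℝ) :
    ∫ t : ℝ, Complex.exp (-((t : ℂ) * I * z)) * ((Real.exp (-(t / T) ^ 2) : ℝ) : ℂ) = (K T z : ℂ) := by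
  have hT2 : (0:ℝ) < 1 / T ^ 2 := by positivity
  have hb : 0 < (((1 / T ^ 2 : ℝ) : ℂ)).re := by
    rw [Complex.ofReal_re]
    exact hT2
  have h := fourierIntegral_gaussian hb (-(z : ℂ))
  have h1 : ∀ t : ℝ, Complex.exp (-((t : ℂ) * I * z)) * ((Real.exp (-(t / T) ^ 2) : ℝ) : ℂ) =
      Complex.exp (I * -(z : ℂ) * t) * Complex.exp (-((1 / T ^ 2 : ℝ) : ℂ) * (t : ℂ) ^ 2) := by
    intro t
    congr 1
    · congr 1
      ring
    · rw [Complex.ofReal_exp]
      congr 1
      push_cast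
      have hT' : (T : ℂ) ≠ 0 := by exact_mod_cast hT.ne'
      field_simp
  rw [integral_congr_ae (Filter.Eventually.of_forall h1), h]
  have h2 : ((Real.pi : ℂ) / ((1 / T ^ 2 : ℝ) : ℂ)) ^ (1 / 2 : ℂ) =
      ((Real.sqrt Real.pi * T : ℝ) : ℂ) := by
    have e1 : ((Real.pi : ℂ) / ((1 / T ^ 2 : ℝ) : ℂ)) = ((Real.pi * T ^ 2 : ℝ) : ℂ) := by
      push_cast
      have hT' : (T : ℂ) ≠ 0 := by exact_mod_cast hT.ne'
      field_simp
    have e2 : (1 / 2 : ℂ) = ((1 / 2 : ℝ) : ℂ) := by push_cast; rfl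
    rw [e1, e2, ← Complex.ofReal_cpow (by positivity), ← Real.sqrt_eq_rpow, Real.sqrt_mul (by positivity),
      Real.sqrt_sq hT.le]
  rw [h2]
  unfold K
  push_cast
  congr 1
  congr 1
  have hT' : (T : ℂ) ≠ 0 := by exact_mod_cast hT.ne'
  field_simp

lemma integral_K {T : ℝ} (hT : 0 < T) (x : ℝ) : ∫ y : ℝ, K T (x - y) = 2 * Real.pi := by
  have h0 : ∫ y : ℝ, K T (x - y) = ∫ y : ℝ, K T y := by
    exact integral_sub_left_eq_self (K T) volume x
  rw [h0]
  unfold K
  rw [integral_const_mul, integral_gaussian]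
  have h1 : Real.pi / (T ^ 2 / 4) = Real.pi * (2 / T) ^ 2 := by
    field_simp
    ring
  rw [h1, Real.sqrt_mul (by positivity), Real.sqrt_sq (by positivity)]
  have h2 : Real.sqrt Real.pi * Real.sqrt Real.pi = Real.pi := Real.mul_self_sqrt (by positivity)
  calc Real.sqrt Real.pi * T * (Real.sqrt Real.pi * (2 / T))
      = (Real.sqrt Real.pi * Real.sqrt Real.pi) * (T * (2 / T)) := by ring
    _ = 2 * Real.pi := by
      rw [h2, mul_div_cancel₀ _ hT.ne']
      ring

lemma integrable_K {T : ℝ} (hT : 0 < T) (x : ℝ) : Integrable (fun y : ℝ => K T (x - y)) := by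
  have h1 : Integrable (K T) := by
    unfold K
    exact (integrable_exp_neg_mul_sq (show (0:ℝ) < T ^ 2 / 4 by positivity)).const_mul _
  exact h1.comp_sub_left x

end Planch

open Planch

theorem planch {u v : ℝ} (huv : u ≤ v) {g : ℝ → ℂ} (hg : Measurable g) {B : ℝ}
    (hB : ∀ x, ‖g x‖ ≤ B) {T : ℝ} (hT : 0 < T) :
    ∫ t : ℝ, ‖∫ x in u..v, g x * Complex.exp (-((t : ℂ) * I * x))‖ ^ 2 * Real.exp (-(t / T) ^ 2) ≤
      2 * Real.pi * ∫ x in u..v, ‖g x‖ ^ 2 := by
  have hB0 : 0 ≤ B := (norm_nonneg _).trans (hB 0)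
  simp only [intervalIntegral.integral_of_le huv]
  set μ : Measure ℝ := volume.restrict (Set.Ioc u v) with hμ
  have hfin : IsFiniteMeasure μ := by
    rw [hμ]
    infer_instance
  set E : ℝ → ℝ → ℂ := fun t x => Complex.exp (-((t : ℂ) * I * x)) with hE
  have hEnorm : ∀ t x, ‖E t x‖ = 1 := by
    intro t x
    rw [hE]
    simp only
    rw [Complex.norm_exp]
    simp
  -- the double integrand
  set Φ : ℝ → ℝ × ℝ → ℂ := fun t z =>
    (g z.1 * (starRingEnd ℂ) (g z.2)) * (E t (z.1 - z.2) * ((Real.exp (-(t / T) ^ 2) : ℝ) : ℂ)) with hΦ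
  have hstep1 : ∀ t : ℝ, (((‖∫ x, g x * E t x ∂μ‖ ^ 2 * Real.exp (-(t / T) ^ 2) : ℝ)) : ℂ) =
      ∫ z, Φ t z ∂(μ.prod μ) := by
    intro t
    have h1 : ((‖∫ x, g x * E t x ∂μ‖ ^ 2 : ℝ) : ℂ) =
        (∫ x, g x * E t x ∂μ) * ∫ y, (starRingEnd ℂ) (g y * E t y) ∂μ := by
      rw [integral_conj, Complex.mul_conj, Complex.normSq_eq_norm_sq]
    rw [Complex.ofReal_mul, h1, ← integral_prod_mul, ← integral_mul_const]
    refine integral_congr_ae (Filter.Eventually.of_forall fun z => ?_)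
    simp only [hΦ]
    have h2 : (starRingEnd ℂ) (E t z.2) = Complex.exp ((t : ℂ) * I * z.2) := by
      simp only [hE]
      rw [← Complex.exp_conj]
      congr 1
      simp
    have h3 : E t (z.1 - z.2) = E t z.1 * Complex.exp ((t : ℂ) * I * z.2) := by
      simp only [hE]
      rw [← Complex.exp_add]
      congr 1
      push_cast
      ring
    rw [map_mul, h2, h3]
    ring
  have hEmeas : Measurable (fun w : ℝ × (ℝ × ℝ) => E w.1 (w.2.1 - w.2.2)) := by
    simp only [hE]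
    fun_prop
  have hΦint : Integrable (Function.uncurry Φ) (volume.prod (μ.prod μ)) := by
    have hgauss : Integrable (fun t : ℝ => Real.exp (-(t / T) ^ 2)) := by
      have := integrable_exp_neg_mul_sq (show (0:ℝ) < 1 / T ^ 2 by positivity)
      refine this.congr (Filter.Eventually.of_forall fun t => ?_)
      simp only
      congr 1
      field_simp
    have hdom : Integrable (fun w : ℝ × (ℝ × ℝ) => Real.exp (-(w.1 / T) ^ 2) * (B * B))
        (volume.prod (μ.prod μ)) := by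
      exact hgauss.mul_prod (integrable_const (B * B))
    refine hdom.mono' ?_ ?_
    · apply Measurable.aestronglyMeasurable
      have m1 : Measurable (fun w : ℝ × (ℝ × ℝ) => g w.2.1) := hg.comp (by fun_prop)
      have m2 : Measurable (fun w : ℝ × (ℝ × ℝ) => (starRingEnd ℂ) (g w.2.2)) :=
        Complex.continuous_conj.measurable.comp (hg.comp (by fun_prop))
      have m3 : Measurable (fun w : ℝ × (ℝ × ℝ) => ((Real.exp (-(w.1 / T) ^ 2) : ℝ) : ℂ)) := by
        fun_prop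
      exact (m1.mul m2).mul (hEmeas.mul m3)
    · refine Filter.Eventually.of_forall fun w => ?_
      simp only [Function.uncurry, hΦ]
      rw [norm_mul, norm_mul, norm_mul, hEnorm, one_mul, RCLike.norm_conj, Complex.norm_real,
        Real.norm_eq_abs, abs_of_pos (Real.exp_pos _), mul_comm]
      apply mul_le_mul_of_nonneg_left _ (Real.exp_pos _).le
      exact mul_le_mul (hB _) (hB _) (norm_nonneg _) hB0
  have hswap : ∫ t : ℝ, ∫ z, Φ t z ∂(μ.prod μ) = ∫ z, (∫ t : ℝ, Φ t z) ∂(μ.prod μ) :=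
    integral_integral_swap hΦint
  have hinner : ∀ z : ℝ × ℝ, ∫ t : ℝ, Φ t z = (g z.1 * (starRingEnd ℂ) (g z.2)) * (K T (z.1 - z.2) : ℂ) := by
    intro z
    simp only [hΦ, hE]
    rw [integral_const_mul]
    congr 1
    have := fourier_K hT (z.1 - z.2)
    rw [← this]
  -- real part
  have hmain : (((∫ t : ℝ, ‖∫ x, g x * E t x ∂μ‖ ^ 2 * Real.exp (-(t / T) ^ 2) : ℝ)) : ℂ) =
      ∫ z, (g z.1 * (starRingEnd ℂ) (g z.2)) * (K T (z.1 - z.2) : ℂ) ∂(μ.prod μ) := by
    rw [← integral_complex_ofReal]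
    rw [integral_congr_ae (Filter.Eventually.of_forall hstep1), hswap]
    exact integral_congr_ae (Filter.Eventually.of_forall hinner)
  have hKbd : ∀ z, K T z ≤ Real.sqrt Real.pi * T := by
    intro z
    unfold K
    have : Real.exp (-(T ^ 2 / 4) * z ^ 2) ≤ 1 := by
      rw [Real.exp_le_one_iff]
      have : 0 ≤ T ^ 2 / 4 * z ^ 2 := by positivity
      linarith
    have h0 : 0 ≤ Real.sqrt Real.pi * T := by positivity
    nlinarith
  have hgm1 : Measurable (fun z : ℝ × ℝ => ‖g z.1‖ ^ 2 * K T (z.1 - z.2)) := by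
    have m1 : Measurable (fun z : ℝ × ℝ => ‖g z.1‖ ^ 2) := ((hg.comp measurable_fst).norm).pow_const 2
    exact m1.mul ((K_cont T).measurable.comp (by fun_prop))
  have hgm2 : Measurable (fun z : ℝ × ℝ => ‖g z.2‖ ^ 2 * K T (z.1 - z.2)) := by
    have m1 : Measurable (fun z : ℝ × ℝ => ‖g z.2‖ ^ 2) := ((hg.comp measurable_snd).norm).pow_const 2
    exact m1.mul ((K_cont T).measurable.comp (by fun_prop))
  have hsqB : ∀ x, ‖g x‖ ^ 2 ≤ B ^ 2 := fun x => pow_le_pow_left₀ (norm_nonneg _) (hB x) 2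
  have hC0 : 0 ≤ Real.sqrt Real.pi * T := by positivity
  have hint1 : Integrable (fun z : ℝ × ℝ => ‖g z.1‖ ^ 2 * K T (z.1 - z.2)) (μ.prod μ) := by
    refine (integrable_const (B ^ 2 * (Real.sqrt Real.pi * T))).mono' hgm1.aestronglyMeasurable
      (Filter.Eventually.of_forall fun z => ?_)
    rw [Real.norm_eq_abs, abs_of_nonneg (mul_nonneg (by positivity) (K_nonneg hT _))]
    exact mul_le_mul (hsqB _) (hKbd _) (K_nonneg hT _) (by positivity)
  have hint2 : Integrable (fun z : ℝ × ℝ => ‖g z.2‖ ^ 2 * K T (z.1 - z.2)) (μ.prod μ) := by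
    refine (integrable_const (B ^ 2 * (Real.sqrt Real.pi * T))).mono' hgm2.aestronglyMeasurable
      (Filter.Eventually.of_forall fun z => ?_)
    rw [Real.norm_eq_abs, abs_of_nonneg (mul_nonneg (by positivity) (K_nonneg hT _))]
    exact mul_le_mul (hsqB _) (hKbd _) (K_nonneg hT _) (by positivity)
  have hgint : Integrable (fun x => ‖g x‖ ^ 2) μ := by
    refine (integrable_const (B ^ 2)).mono' ((hg.norm).pow_const 2).aestronglyMeasurable
      (Filter.Eventually.of_forall fun x => ?_)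
    rw [Real.norm_eq_abs, abs_of_nonneg (by positivity)]
    exact hsqB x
  have hI1 : ∫ z, ‖g z.1‖ ^ 2 * K T (z.1 - z.2) ∂(μ.prod μ) ≤ 2 * Real.pi * ∫ x, ‖g x‖ ^ 2 ∂μ := by
    rw [integral_prod _ hint1, ← integral_const_mul]
    refine integral_mono_of_nonneg (Filter.Eventually.of_forall fun x => ?_) (hgint.const_mul _)
      (Filter.Eventually.of_forall fun x => ?_)
    · simp only [Pi.zero_apply]
      exact integral_nonneg fun y => mul_nonneg (by positivity) (K_nonneg hT _)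
    · simp only
      rw [integral_const_mul, mul_comm]
      apply mul_le_mul_of_nonneg_right _ (by positivity)
      rw [← integral_K hT x, hμ]
      exact setIntegral_le_integral (integrable_K hT x) (Filter.Eventually.of_forall fun y => K_nonneg hT _)
  have hI2 : ∫ z, ‖g z.2‖ ^ 2 * K T (z.1 - z.2) ∂(μ.prod μ) ≤ 2 * Real.pi * ∫ x, ‖g x‖ ^ 2 ∂μ := by
    have hsymm : ∫ z, ‖g z.2‖ ^ 2 * K T (z.1 - z.2) ∂(μ.prod μ) =
        ∫ z, ‖g z.1‖ ^ 2 * K T (z.1 - z.2) ∂(μ.prod μ) := by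
      rw [← integral_prod_swap]
      refine integral_congr_ae (Filter.Eventually.of_forall fun z => ?_)
      simp only [Prod.fst_swap, Prod.snd_swap]
      congr 1
      unfold K
      congr 2
      ring
    rw [hsymm]
    exact hI1
  have hle : ∫ t : ℝ, ‖∫ x, g x * E t x ∂μ‖ ^ 2 * Real.exp (-(t / T) ^ 2) ≤
      ∫ z, (‖g z.1‖ ^ 2 * K T (z.1 - z.2) + ‖g z.2‖ ^ 2 * K T (z.1 - z.2)) / 2 ∂(μ.prod μ) := by
    have h1 : ∫ t : ℝ, ‖∫ x, g x * E t x ∂μ‖ ^ 2 * Real.exp (-(t / T) ^ 2) ≤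
        ‖∫ z, (g z.1 * (starRingEnd ℂ) (g z.2)) * (K T (z.1 - z.2) : ℂ) ∂(μ.prod μ)‖ := by
      rw [← hmain, Complex.norm_real]
      exact le_abs_self _
    refine h1.trans ((norm_integral_le_integral_norm _).trans ?_)
    refine integral_mono_of_nonneg (Filter.Eventually.of_forall fun z => norm_nonneg _)
      ((hint1.add hint2).div_const 2) (Filter.Eventually.of_forall fun z => ?_)
    simp only
    rw [norm_mul, norm_mul, RCLike.norm_conj, Complex.norm_real, Real.norm_eq_abs,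
      abs_of_nonneg (K_nonneg hT _)]
    have hk := K_nonneg hT (z.1 - z.2)
    have h2 : ‖g z.1‖ * ‖g z.2‖ ≤ (‖g z.1‖ ^ 2 + ‖g z.2‖ ^ 2) / 2 := by
      nlinarith [sq_nonneg (‖g z.1‖ - ‖g z.2‖)]
    calc ‖g z.1‖ * ‖g z.2‖ * K T (z.1 - z.2) ≤ (‖g z.1‖ ^ 2 + ‖g z.2‖ ^ 2) / 2 * K T (z.1 - z.2) := by
          gcongr
      _ = _ := by ring
  refine hle.trans ?_
  rw [integral_div, integral_add hint1 hint2]
  linarith

end Pool.Agent.P4f18dfV
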