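import Pool.Agent.Lib.P4f18dfV.Asm1
import Pool.Agent.Lib.P4f18dfV.Asm2
import Pool.Agent.Lib.P4f18dfV.PerZero
import Pool.Agent.Lib.P4f18dfV.LocalSup
import Pool.Agent.Lib.P4f18dfV.Planch

/-!
# Assembly, part 3: the logarithmic mean square
-/

set_option autoImplicit false

open Complex MeasureTheory

namespace Pool.Agent.P4f18dfV

lemma gauss4_int (g : ℝ) : Integrable (fun t : ℝ => Real.exp (-((t - g) ^ 2 / 4))) := by
  have h : Integrable (fun t : ℝ => Real.exp (-(1 / 4) * t ^ 2)) :=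
    integrable_exp_neg_mul_sq (by norm_num)
  refine (h.comp_sub_right g).congr (Filter.Eventually.of_forall (fun t => ?_))
  show Real.exp (-(1 / 4) * (t - g) ^ 2) = _
  congr 1
  ring

lemma gauss4_val (g : ℝ) : ∫ t : ℝ, Real.exp (-((t - g) ^ 2 / 4)) ≤ 4 := by
  have h1 : ∫ t : ℝ, Real.exp (-((t - g) ^ 2 / 4)) = Real.sqrt (Real.pi / (1 / 4)) := by
    rw [← integral_gaussian (1 / 4),
      ← integral_sub_right_eq_self (fun t : ℝ => Real.exp (-(1 / 4) * t ^ 2)) g]
    refine integral_congr_ae (Filter.Eventually.of_forall (fun t => ?_))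
    show Real.exp (-((t - g) ^ 2 / 4)) = Real.exp (-(1 / 4) * (t - g) ^ 2)
    congr 1
    ring
  rw [h1, Real.sqrt_le_left (by norm_num)]
  have := Real.pi_lt_four
  linarith

/-- From the linear to the quadratic mean. -/
lemma linear_to_square {p : ℝ → ℝ} (hp : Continuous p) (hp0 : ∀ t, 0 ≤ p t) {B : ℝ}
    (hB : ∀ t, p t ≤ B) {T A g : ℝ} (hT : 0 < T) (hA : 0 < A)
    (h : 1 / T ≤ ∫ t : ℝ, 2 * A * Real.exp (-((t - g) ^ 2 / 4)) * p t) :
    1 / (16 * A ^ 2 * T ^ 2) ≤ ∫ t : ℝ, Real.exp (-((t - g) ^ 2 / 4)) * p t ^ 2 := by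
  have hB0 : 0 ≤ B := (hp0 0).trans (hB 0)
  have hw := gauss4_int g
  have hwp : Integrable (fun t : ℝ => Real.exp (-((t - g) ^ 2 / 4)) * p t ^ 2) := by
    refine (hw.mul_const (B ^ 2)).mono' ?_ (Filter.Eventually.of_forall (fun t => ?_))
    · exact (by fun_prop : Continuous (fun t : ℝ => Real.exp (-((t - g) ^ 2 / 4)) *
        p t ^ 2)).aestronglyMeasurable
    · rw [Real.norm_eq_abs, abs_of_nonneg (by positivity)]
      exact mul_le_mul_of_nonneg_left (pow_le_pow_left₀ (hp0 t) (hB t) 2) (Real.exp_pos _).le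
  set lam : ℝ := 8 * A * T with hlam
  have hlam0 : 0 < lam := by positivity
  have h2 : ∫ t : ℝ, 2 * A * Real.exp (-((t - g) ^ 2 / 4)) * p t ≤
      ∫ t : ℝ, (A * lam * (Real.exp (-((t - g) ^ 2 / 4)) * p t ^ 2) +
        A / lam * Real.exp (-((t - g) ^ 2 / 4))) := by
    refine integral_mono_of_nonneg (Filter.Eventually.of_forall (fun t => ?_))
      ((hwp.const_mul _).add (hw.const_mul _)) (Filter.Eventually.of_forall (fun t => ?_))
    · have := hp0 t
      show 0 ≤ 2 * A * Real.exp (-((t - g) ^ 2 / 4)) * p t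
      positivity
    · show 2 * A * Real.exp (-((t - g) ^ 2 / 4)) * p t ≤
        A * lam * (Real.exp (-((t - g) ^ 2 / 4)) * p t ^ 2) +
        A / lam * Real.exp (-((t - g) ^ 2 / 4))
      set w := Real.exp (-((t - g) ^ 2 / 4)) with hwdef
      have hw0 : 0 < w := Real.exp_pos _
      have h3 : 0 ≤ A * w / lam * (lam * p t - 1) ^ 2 := by positivity
      have h4 : A * w / lam * (lam * p t - 1) ^ 2 =
          A * lam * (w * p t ^ 2) + A / lam * w - 2 * A * w * p t := by
        field_simp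
        ring
      linarith
  rw [integral_add (hwp.const_mul _) (hw.const_mul _), integral_const_mul, integral_const_mul] at h2
  have h3 : A / lam * ∫ t : ℝ, Real.exp (-((t - g) ^ 2 / 4)) ≤ 1 / (2 * T) := by
    calc A / lam * ∫ t : ℝ, Real.exp (-((t - g) ^ 2 / 4)) ≤ A / lam * 4 :=
          mul_le_mul_of_nonneg_left (gauss4_val g) (by positivity)
      _ = 1 / (2 * T) := by
          rw [hlam]
          field_simp
          ring
  have h4 : 1 / T - 1 / (2 * T) ≤ A * lam * ∫ t : ℝ, Real.exp (-((t - g) ^ 2 / 4)) * p t ^ 2 := by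
    linarith
  have h5 : 1 / T - 1 / (2 * T) = A * lam * (1 / (16 * A ^ 2 * T ^ 2)) := by
    rw [hlam]
    field_simp
    ring
  rw [h5] at h4
  exact le_of_mul_le_mul_left h4 (by positivity)

/-- Sum of the weights. -/
lemma sum_weights {C : ℝ} (hC : 0 < C) {Z : Finset ℝ}
    (hS : ∀ t : ℝ, ∑ g ∈ Z, Real.exp (-((t - g) ^ 2 / 8)) ≤ C) {T : ℝ} (hT : 16 ≤ T)
    (hZ : ∀ g ∈ Z, T / 8 ≤ g ∧ g ≤ T / 4) (t : ℝ) :
    ∑ g ∈ Z, Real.exp (-((t - g) ^ 2 / 4)) ≤ Real.exp 1 * C * Real.exp (-(t / T) ^ 2) := by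
  have hT0 : 0 < T := by linarith
  have h1 : ∀ g ∈ Z, Real.exp (-((t - g) ^ 2 / 4)) ≤
      Real.exp 1 * Real.exp (-(t / T) ^ 2) * Real.exp (-((t - g) ^ 2 / 8)) := by
    intro g hg
    obtain ⟨hg1, hg2⟩ := hZ g hg
    rw [← Real.exp_add, ← Real.exp_add, Real.exp_le_exp]
    have h2 : (t / T) ^ 2 ≤ 1 + (t - g) ^ 2 / 8 := by
      by_cases ht : |t| ≤ T
      · have h3 : (t / T) ^ 2 ≤ 1 := by
          rw [div_pow, div_le_one (by positivity), ← sq_abs]
          exact pow_le_pow_left₀ (abs_nonneg _) ht 2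
        have := sq_nonneg (t - g)
        linarith
      · push Not at ht
        have h3 : 3 / 4 * |t| ≤ |t - g| := by
          have h4 : |t| ≤ |t - g| + |g| := by
            calc |t| = |(t - g) + g| := by congr 1; ring
              _ ≤ _ := abs_add_le _ _
          rw [abs_of_nonneg (show 0 ≤ g by linarith)] at h4
          linarith
        have h5 : (3 / 4 * |t|) ^ 2 ≤ |t - g| ^ 2 := pow_le_pow_left₀ (by positivity) h3 2
        rw [sq_abs, mul_pow, sq_abs] at h5
        have h6 : (t / T) ^ 2 ≤ t ^ 2 / 256 := by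
          rw [div_pow]
          refine div_le_div_of_nonneg_left (sq_nonneg t) (by norm_num) ?_
          nlinarith
        have := sq_nonneg t
        linarith
    linarith
  refine (Finset.sum_le_sum h1).trans ?_
  rw [← Finset.mul_sum]
  calc Real.exp 1 * Real.exp (-(t / T) ^ 2) * ∑ g ∈ Z, Real.exp (-((t - g) ^ 2 / 8)) ≤
        Real.exp 1 * Real.exp (-(t / T) ^ 2) * C :=
        mul_le_mul_of_nonneg_left (hS t) (by positivity)
    _ = _ := by ring

lemma bdd_intervalIntegrable {f : ℝ → ℝ} (hf : Measurable f) {u v B : ℝ} (huv : u ≤ v)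
    (hB : ∀ x ∈ Set.Icc u v, |f x| ≤ B) : IntervalIntegrable f volume u v := by
  rw [intervalIntegrable_iff, Set.uIoc_of_le huv]
  refine Measure.integrableOn_of_bounded (M := B) ?_ hf.aestronglyMeasurable ?_
  · exact measure_Ioc_lt_top.ne
  · rw [ae_restrict_iff' measurableSet_Ioc]
    exact Filter.Eventually.of_forall (fun x hx => hB x (Set.Ioc_subset_Icc_self hx))

/-- Plancherel for the truncated transform. -/
lemma planch_PX {T u v σ : ℝ} (hT : 1 ≤ T) (hu : 0 ≤ u) (huv : u ≤ v) (hσ : 0 ≤ σ) :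
    ∫ t : ℝ, ‖PX T u v ((σ : ℂ) + t * I)‖ ^ 2 * Real.exp (-(t / T) ^ 2) ≤
      2 * Real.pi * ∫ x in u..v, (DD T (Real.exp x)) ^ 2 * Real.exp (-(2 * σ * x)) := by
  have hT0 : 0 < T := by linarith
  set g : ℝ → ℂ := Set.indicator (Set.Icc u v)
    (fun x => (DD T (Real.exp x) : ℂ) * Complex.exp (-((σ : ℂ) * x))) with hg
  have hgm : Measurable g := by
    refine Measurable.indicator ?_ measurableSet_Icc
    have hc : Continuous (fun x : ℝ => Complex.exp (-((σ : ℂ) * x))) := by fun_prop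
    exact (dd_measurable T).mul hc.measurable
  have hgn : ∀ x ∈ Set.Icc u v, ‖g x‖ = |DD T (Real.exp x)| * Real.exp (-(σ * x)) := by
    intro x hx
    rw [hg, Set.indicator_of_mem hx, norm_mul, Complex.norm_real, Real.norm_eq_abs, norm_cexp,
      Complex.ofReal_re]
  have hgB : ∀ x, ‖g x‖ ≤ Real.exp v + 1 := by
    intro x
    by_cases hx : x ∈ Set.Icc u v
    · rw [hgn x hx]
      have h1 := dd_norm_le hT (u := u) (v := v) x hx
      rw [Complex.norm_real, Real.norm_eq_abs] at h1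
      have h2 : Real.exp (-(σ * x)) ≤ 1 := by
        rw [Real.exp_le_one_iff]
        have : 0 ≤ σ * x := mul_nonneg hσ (hu.trans hx.1)
        linarith
      calc |DD T (Real.exp x)| * Real.exp (-(σ * x)) ≤ (Real.exp v + 1) * 1 :=
            mul_le_mul h1 h2 (Real.exp_pos _).le (by positivity)
        _ = _ := mul_one _
    · rw [hg, Set.indicator_of_notMem hx, norm_zero]
      positivity
  have h := planch huv hgm hgB hT0
  have h1 : ∀ t : ℝ, PX T u v ((σ : ℂ) + t * I) =
      ∫ x in u..v, g x * Complex.exp (-((t : ℂ) * I * x)) := by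
    intro t
    unfold PX
    refine intervalIntegral.integral_congr (fun x hx => ?_)
    rw [Set.uIcc_of_le huv] at hx
    show (DD T (Real.exp x) : ℂ) * Complex.exp (-(((σ : ℂ) + t * I) * x)) =
      g x * Complex.exp (-((t : ℂ) * I * x))
    rw [hg, Set.indicator_of_mem hx, mul_assoc, ← Complex.exp_add]
    congr 2
    ring
  have h2 : ∫ x in u..v, ‖g x‖ ^ 2 =
      ∫ x in u..v, (DD T (Real.exp x)) ^ 2 * Real.exp (-(2 * σ * x)) := by
    refine intervalIntegral.integral_congr (fun x hx => ?_)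
    rw [Set.uIcc_of_le huv] at hx
    show ‖g x‖ ^ 2 = _
    rw [hgn x hx, mul_pow, sq_abs, ← Real.exp_nat_mul]
    congr 2
    push_cast
    ring
  rw [h2] at h
  refine le_trans (le_of_eq ?_) h
  refine integral_congr_ae (Filter.Eventually.of_forall (fun t => ?_))
  show ‖PX T u v ((σ : ℂ) + t * I)‖ ^ 2 * Real.exp (-(t / T) ^ 2) = _
  rw [h1 t]

end Pool.Agent.P4f18dfV
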