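import Pool.Agent.Lib.P4f18dfV.ZetaLeft
import Pool.Agent.Lib.P4f18dfV.Crude

/-!
# Zeros of the zeta function in every box of height `C log T`

Proof: if `ζ` has no zero in the ball of centre `2 ρ + i T` and radius `4 ρ`, `ρ = 6 log T`, then
`ζ = exp g` there; Borel-Caratheodory bounds `g` on two circles, the Cauchy estimates bound the
Taylor coefficients, and summing the Taylor series gives `|g(-1 + iT)| ≤ 1`, against `zeta_neg_one`.
-/

set_option autoImplicit false

open Complex MeasureTheory Metric Filter Topology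

namespace Pool.Agent.P4f18dfV

lemma ez_hasSum_tele : HasSum (fun n : ℕ => (1:ℝ) / (n + 1) - 1 / (n + 2)) 1 := by
  rw [hasSum_iff_tendsto_nat_of_nonneg]
  · have h : ∀ n : ℕ, ∑ i ∈ Finset.range n, ((1:ℝ) / (i + 1) - 1 / (i + 2)) = 1 - 1 / (n + 1) := by
      intro n
      induction n with
      | zero => simp
      | succ n ih =>
        rw [Finset.sum_range_succ, ih]
        push_cast
        ring
    simp_rw [h]
    have := tendsto_one_div_add_atTop_nhds_zero_nat (𝕜 := ℝ)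
    simpa using (tendsto_const_nhds (x := (1:ℝ))).sub this
  · intro n
    have h1 : (0:ℝ) < (n:ℝ) + 1 := by positivity
    have h2 : (1:ℝ) / (n + 2) ≤ 1 / (n + 1) := one_div_le_one_div_of_le h1 (by linarith)
    linarith

lemma ez_zeta_sub_one {s : ℂ} (hs : 2 ≤ s.re) :
    ‖riemannZeta s - 1‖ ≤ 4 * (2:ℝ) ^ (-s.re) := by
  have h1 := zeta_eq_tsum_one_div_nat_add_one_cpow (s := s) (by linarith)
  have hsum : Summable (fun n : ℕ => 1 / ((n:ℂ) + 1) ^ s) := by
    have := (Complex.summable_one_div_nat_cpow (p := s)).2 (by linarith)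
    have h2 := (summable_nat_add_iff 1).2 this
    simpa using h2
  rw [hsum.tsum_eq_zero_add] at h1
  have e0 : (1:ℂ) / (((0:ℕ):ℂ) + 1) ^ s = 1 := by simp
  rw [e0] at h1
  have h3 : riemannZeta s - 1 = ∑' n : ℕ, 1 / (((n + 1 : ℕ):ℂ) + 1) ^ s := by
    rw [h1]; ring
  rw [h3]
  have hg := (ez_hasSum_tele).mul_left (4 * (2:ℝ) ^ (-s.re))
  rw [mul_one] at hg
  refine tsum_of_norm_bounded hg fun n => ?_
  have hn : (0:ℝ) < (n:ℝ) + 2 := by positivity
  have e1 : (((n + 1 : ℕ):ℂ) + 1) = (((n:ℝ) + 2 : ℝ) : ℂ) := by push_cast; ring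
  rw [e1, norm_div, norm_one, Complex.norm_cpow_eq_rpow_re_of_pos hn, one_div,
    ← Real.rpow_neg hn.le]
  have e2 : ((n:ℝ) + 2) ^ (-s.re) = (2:ℝ) ^ (-s.re) * ((2:ℝ) / (n + 2)) ^ s.re := by
    rw [Real.div_rpow (by norm_num) hn.le, Real.rpow_neg (show (0:ℝ) ≤ 2 by norm_num) s.re,
      Real.rpow_neg hn.le]
    have : (2:ℝ) ^ s.re ≠ 0 := by positivity
    field_simp
  have hq0 : (0:ℝ) ≤ 2 / ((n:ℝ) + 2) := by positivity
  have hq1 : (2:ℝ) / ((n:ℝ) + 2) ≤ 1 := by rw [div_le_one hn]; linarith [Nat.cast_nonneg (α := ℝ) n]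
  have e3 : ((2:ℝ) / (n + 2)) ^ s.re ≤ ((2:ℝ) / (n + 2)) ^ (2:ℝ) := by
    apply Real.rpow_le_rpow_of_exponent_ge (by positivity) hq1 hs
  have e4 : ((2:ℝ) / (n + 2)) ^ (2:ℝ) ≤ 4 * (1 / (n + 1) - 1 / (n + 2)) := by
    rw [Real.rpow_two, div_pow]
    have h1 : (0:ℝ) < (n:ℝ) + 1 := by positivity
    have e5 : (4:ℝ) * (1 / (n + 1) - 1 / (n + 2)) = 4 / ((n + 1) * (n + 2)) := by
      field_simp; ring
    rw [e5]
    norm_num
    apply div_le_div_of_nonneg_left (by norm_num) (by positivity)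
    nlinarith
  rw [e2]
  calc (2:ℝ) ^ (-s.re) * ((2:ℝ) / (n + 2)) ^ s.re
      ≤ (2:ℝ) ^ (-s.re) * (4 * (1 / (n + 1) - 1 / (n + 2))) := by
        apply mul_le_mul_of_nonneg_left (e3.trans e4) (by positivity)
    _ = _ := by ring

/-- holomorphic logarithm on a ball -/
lemma ez_exists_log {c : ℂ} {r : ℝ} (hr : 0 < r) {f : ℂ → ℂ}
    (hf : DifferentiableOn ℂ f (ball c r)) (h0 : ∀ z ∈ ball c r, f z ≠ 0) :
    ∃ g : ℂ → ℂ, DifferentiableOn ℂ g (ball c r) ∧ g c = Complex.log (f c) ∧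
      ∀ z ∈ ball c r, Complex.exp (g z) = f z := by
  have hd : DifferentiableOn ℂ (fun z => deriv f z / f z) (ball c r) :=
    (hf.deriv isOpen_ball).div hf h0
  obtain ⟨g, hgc, hg⟩ := (hd.isExactOn_ball).with_val_at c (Complex.log (f c))
  have hgd : DifferentiableOn ℂ g (ball c r) :=
    fun z hz => (hg z hz).differentiableAt.differentiableWithinAt
  refine ⟨g, hgd, hgc, fun z hz => ?_⟩
  have hcmem : c ∈ ball c r := mem_ball_self hr
  have hF : ∀ w ∈ ball c r, HasDerivAt (fun w => Complex.exp (-g w) * f w) 0 w := by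
    intro w hw
    have h1 : HasDerivAt f (deriv f w) w :=
      (hf.differentiableAt (isOpen_ball.mem_nhds hw)).hasDerivAt
    have h2 := ((hg w hw).neg.cexp).mul h1
    refine h2.congr_deriv ?_
    have := h0 w hw
    field_simp
    ring
  have hconst := isOpen_ball.is_const_of_deriv_eq_zero (convex_ball c r).isPreconnected
    (f := fun w => Complex.exp (-g w) * f w)
    (fun w hw => (hF w hw).differentiableAt.differentiableWithinAt)
    (fun w hw => (hF w hw).deriv) hz hcmem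
  rw [hgc, Complex.exp_neg, Complex.exp_neg, Complex.exp_log (h0 c hcmem),
    inv_mul_cancel₀ (h0 c hcmem)] at hconst
  have he := Complex.exp_ne_zero (g z)
  field_simp at hconst
  exact hconst.symm

/-- the analytic core -/
lemma ez_core {K : ℝ} (hK : 0 < K) (hcrude : ∀ R : ℝ, 2 ≤ R → ∀ s : ℂ, |s.re| ≤ R →
    ‖zE s‖ ≤ Real.exp (K * (1 + |s.im|) + K * R * Real.log R)) {T ρ : ℝ} (hT : 2 ≤ T)
    (hρ : 10 ≤ ρ) (hρT : 4 * ρ ≤ T / 2) (hlog : 6 * ρ * Real.log (6 * ρ) ≤ T)
    (hsmall : 296 * (2:ℝ) ^ (-ρ) * (24 * K * T + 7) ^ 3 ≤ 0.05 ^ 4)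
    (hnz : ∀ s ∈ ball ((2 * ρ : ℝ) + (T : ℂ) * I) (4 * ρ), riemannZeta s ≠ 0) :
    ‖riemannZeta (-1 + (T : ℂ) * I)‖ ≤ Real.exp 1 := by
  set c : ℂ := (2 * ρ : ℝ) + (T : ℂ) * I with hc
  have hcre : c.re = 2 * ρ := by simp [hc]
  have hcim : c.im = T := by simp [hc]
  have hρ0 : 0 < ρ := by linarith
  have hre : ∀ s ∈ ball c (4 * ρ), |s.re - 2 * ρ| < 4 * ρ ∧ |s.im - T| < 4 * ρ := by
    intro s hs
    rw [mem_ball, dist_eq_norm] at hs
    have h1 := Complex.abs_re_le_norm (s - c)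
    have h2 := Complex.abs_im_le_norm (s - c)
    rw [Complex.sub_re, hcre] at h1
    rw [Complex.sub_im, hcim] at h2
    constructor <;> linarith
  have hne1 : ∀ s ∈ ball c (4 * ρ), 1 ≤ |s.im| ∧ s ≠ 1 := by
    intro s hs
    have h := abs_lt.1 (hre s hs).2
    have h2 : 1 ≤ |s.im| := by
      rw [abs_of_pos (by linarith [h.1])]
      linarith [h.1]
    refine ⟨h2, ?_⟩
    rintro rfl
    simp at h2
    linarith
  have hd : DifferentiableOn ℂ riemannZeta (ball c (4 * ρ)) := fun s hs =>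
    (differentiableAt_riemannZeta (hne1 s hs).2).differentiableWithinAt
  obtain ⟨g, hgd, hgc, hg⟩ := ez_exists_log (by positivity) hd hnz
  -- translate
  set G : ℂ → ℂ := fun z => g (c + z) with hG
  have hmaps : ∀ z ∈ ball (0:ℂ) (4 * ρ), c + z ∈ ball c (4 * ρ) := by
    intro z hz
    rw [mem_ball, dist_eq_norm, add_sub_cancel_left]
    rwa [mem_ball, dist_zero_right] at hz
  have hGd : DifferentiableOn ℂ G (ball 0 (4 * ρ)) :=
    hgd.comp ((differentiable_const c).add differentiable_id).differentiableOn hmaps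
  have hGexp : ∀ z ∈ ball (0:ℂ) (4 * ρ), Real.exp (G z).re = ‖riemannZeta (c + z)‖ := by
    intro z hz
    rw [← hg _ (hmaps z hz), Complex.norm_exp]
  have hG0 : G 0 = Complex.log (riemannZeta c) := by
    simp only [hG, add_zero]
    exact hgc
  set η : ℝ := 4 * (2:ℝ) ^ (-ρ) with hη
  have hη0 : 0 < η := by positivity
  have hη1 : η ≤ 1 / 2 := by
    have h1 : (2:ℝ) ^ (-ρ) ≤ (2:ℝ) ^ (-(10:ℝ)) :=
      Real.rpow_le_rpow_of_exponent_le (by norm_num) (by linarith)
    have h2 : (2:ℝ) ^ (-(10:ℝ)) = 1 / 1024 := by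
      rw [Real.rpow_neg (by norm_num)]
      norm_num
    rw [h2] at h1
    rw [hη]
    linarith
  have hzs : ∀ s : ℂ, ρ ≤ s.re → ‖riemannZeta s - 1‖ ≤ η := by
    intro s hs
    refine (ez_zeta_sub_one (by linarith)).trans ?_
    rw [hη]
    apply mul_le_mul_of_nonneg_left _ (by norm_num)
    exact Real.rpow_le_rpow_of_exponent_le (by norm_num) (by linarith)
  have hG0n : ‖G 0‖ ≤ 3 / 2 * η := by
    rw [hG0]
    have h1 := hzs c (by rw [hcre]; linarith)
    have h2 := Complex.norm_log_one_add_half_le_self (z := riemannZeta c - 1) (h1.trans hη1)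
    rw [add_sub_cancel] at h2
    linarith
  -- large ball
  set M : ℝ := 4 * K * T with hM
  have hM0 : 0 < M := by positivity
  have hreM : Set.MapsTo G (ball 0 (4 * ρ)) {z | z.re ≤ M} := by
    intro z hz
    show (G z).re ≤ M
    rw [← Real.exp_le_exp, hGexp z hz]
    have hs := hmaps z hz
    obtain ⟨h1, h2⟩ := hne1 _ hs
    obtain ⟨h3, h4⟩ := hre _ hs
    rw [abs_lt] at h3 h4
    have h5 : |(c + z).re| ≤ 6 * ρ := by
      rw [abs_le]; constructor <;> linarith [h3.1, h3.2]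
    have h6 : |(c + z).im| ≤ 2 * T := by
      rw [abs_le]; constructor <;> linarith [h4.1, h4.2]
    have h7 := hcrude (6 * ρ) (by linarith) _ h5
    have h8 : ‖riemannZeta (c + z)‖ ≤ ‖zE (c + z)‖ := by
      rw [zE_of_ne h2, norm_mul]
      have h9 : 1 ≤ ‖c + z - 1‖ := by
        have := Complex.abs_im_le_norm (c + z - 1)
        rw [Complex.sub_im, Complex.one_im, sub_zero] at this
        linarith
      calc ‖riemannZeta (c + z)‖ = 1 * ‖riemannZeta (c + z)‖ := by ring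
        _ ≤ _ := mul_le_mul_of_nonneg_right h9 (norm_nonneg _)
    refine h8.trans (h7.trans (Real.exp_le_exp.2 ?_))
    have h10 : K * (1 + |(c + z).im|) ≤ K * (1 + 2 * T) :=
      mul_le_mul_of_nonneg_left (by linarith) hK.le
    have h11 : K * (6 * ρ) * Real.log (6 * ρ) ≤ K * T := by
      calc K * (6 * ρ) * Real.log (6 * ρ) = K * (6 * ρ * Real.log (6 * ρ)) := by ring
        _ ≤ _ := mul_le_mul_of_nonneg_left hlog hK.le
    have h12 : K * 1 ≤ K * T := mul_le_mul_of_nonneg_left (by linarith) hK.le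
    rw [hM]
    nlinarith
  have hbig : ∀ z ∈ sphere (0:ℂ) (3 * ρ), ‖G z‖ ≤ 6 * M + 7 := by
    intro z hz
    have hzn : ‖z‖ = 3 * ρ := by simpa using hz
    have h := Complex.borelCaratheodory hM0 hGd hreM (by positivity) (z := z)
      (by rw [mem_ball, dist_zero_right, hzn]; linarith)
    rw [hzn] at h
    have e : 4 * ρ - 3 * ρ = ρ := by ring
    rw [e] at h
    have e1 : 2 * M * (3 * ρ) / ρ = 6 * M := by field_simp; ring
    have e2 : ‖G 0‖ * (4 * ρ + 3 * ρ) / ρ = 7 * ‖G 0‖ := by field_simp; ring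
    rw [e1, e2] at h
    linarith
  -- small ball
  have hreS : Set.MapsTo G (ball 0 ρ) {z | z.re ≤ η} := by
    intro z hz
    show (G z).re ≤ η
    have hz' : z ∈ ball (0:ℂ) (4 * ρ) := ball_subset_ball (by linarith) hz
    rw [← Real.exp_le_exp, hGexp z hz']
    have h1 : ρ ≤ (c + z).re := by
      rw [mem_ball, dist_zero_right] at hz
      have := abs_le.1 (Complex.abs_re_le_norm z)
      rw [Complex.add_re, hcre]
      linarith [this.1]
    have h2 := hzs _ h1
    calc ‖riemannZeta (c + z)‖ = ‖(riemannZeta (c + z) - 1) + 1‖ := by ring_nf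
      _ ≤ ‖riemannZeta (c + z) - 1‖ + ‖(1:ℂ)‖ := norm_add_le _ _
      _ ≤ η + 1 := by rw [norm_one]; linarith
      _ ≤ Real.exp η := Real.add_one_le_exp η
  have hsm : ∀ z ∈ sphere (0:ℂ) (9 / 10 * ρ), ‖G z‖ ≤ 74 * η := by
    intro z hz
    have hzn : ‖z‖ = 9 / 10 * ρ := by simpa using hz
    have h := Complex.borelCaratheodory hη0 (hGd.mono (ball_subset_ball (by linarith))) hreS hρ0
      (z := z) (by rw [mem_ball, dist_zero_right, hzn]; linarith)
    rw [hzn] at h
    have e : ρ - 9 / 10 * ρ = ρ / 10 := by ring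
    rw [e] at h
    have e1 : 2 * η * (9 / 10 * ρ) / (ρ / 10) = 18 * η := by field_simp; ring
    have e2 : ‖G 0‖ * (ρ + 9 / 10 * ρ) / (ρ / 10) = 19 * ‖G 0‖ := by field_simp; ring
    rw [e1, e2] at h
    linarith
  -- Cauchy estimates
  have hc1 : ∀ n : ℕ, ‖iteratedDeriv n G 0‖ ≤ n.factorial * (74 * η) / (9 / 10 * ρ) ^ n := fun n =>
    Complex.norm_iteratedDeriv_le_of_forall_mem_sphere_norm_le n (by positivity)
      (hGd.diffContOnCl_ball (closedBall_subset_ball (by linarith))) hsm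
  have hc2 : ∀ n : ℕ, ‖iteratedDeriv n G 0‖ ≤ n.factorial * (6 * M + 7) / (3 * ρ) ^ n := fun n =>
    Complex.norm_iteratedDeriv_le_of_forall_mem_sphere_norm_le n (by positivity)
      (hGd.diffContOnCl_ball (closedBall_subset_ball (by linarith))) hbig
  -- the point
  set z1 : ℂ := ((-1 - 2 * ρ : ℝ) : ℂ) with hz1
  have hz1n : ‖z1‖ = 1 + 2 * ρ := by
    rw [hz1, Complex.norm_real, Real.norm_eq_abs, abs_of_neg (by linarith)]
    ring
  have hz1n' : ‖z1‖ ≤ 21 / 10 * ρ := by rw [hz1n]; linarith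
  have hz1m : z1 ∈ ball (0:ℂ) (4 * ρ) := by
    rw [mem_ball, dist_zero_right, hz1n]; linarith
  have htay := Complex.hasSum_taylorSeries_on_ball hGd hz1m
  have hterm : ∀ n : ℕ, ‖((n.factorial : ℂ))⁻¹ • (z1 - 0) ^ n • iteratedDeriv n G 0‖ ≤
      0.05 * (0.95:ℝ) ^ n := by
    intro n
    have hfac : (0:ℝ) < n.factorial := by exact_mod_cast n.factorial_pos
    have e0 : ‖((n.factorial : ℂ))⁻¹ • (z1 - 0) ^ n • iteratedDeriv n G 0‖ =
        ‖z1‖ ^ n * (‖iteratedDeriv n G 0‖ / n.factorial) := by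
      rw [norm_smul, norm_smul, norm_inv, Complex.norm_natCast, sub_zero, norm_pow]
      ring
    rw [e0]
    set t := ‖z1‖ ^ n * (‖iteratedDeriv n G 0‖ / n.factorial) with ht
    have ht0 : 0 ≤ t := by positivity
    have hgen : ∀ B r : ℝ, 0 ≤ B → 0 < r → ‖iteratedDeriv n G 0‖ ≤ n.factorial * B / r ^ n →
        t ≤ B * ((21 / 10 * ρ) / r) ^ n := by
      intro B r hB hr h
      have h1 : ‖iteratedDeriv n G 0‖ / n.factorial ≤ B / r ^ n := by
        rw [div_le_iff₀ hfac]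
        calc _ ≤ _ := h
          _ = _ := by ring
      calc t ≤ (21 / 10 * ρ) ^ n * (B / r ^ n) := by
            apply mul_le_mul (pow_le_pow_left₀ (norm_nonneg _) hz1n' n) h1 (by positivity)
              (by positivity)
        _ = _ := by rw [div_pow]; ring
    have t1 : t ≤ (74 * η) * (7 / 3) ^ n := by
      have := hgen (74 * η) (9 / 10 * ρ) (by positivity) (by positivity) (hc1 n)
      have e : (21 / 10 * ρ) / (9 / 10 * ρ) = 7 / 3 := by field_simp; norm_num
      rwa [e] at this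
    have t2 : t ≤ (6 * M + 7) * (7 / 10) ^ n := by
      have := hgen (6 * M + 7) (3 * ρ) (by positivity) (by positivity) (hc2 n)
      have e : (21 / 10 * ρ) / (3 * ρ) = 7 / 10 := by field_simp; norm_num
      rwa [e] at this
    have t3 : t ^ 4 ≤ (0.05 * (0.95:ℝ) ^ n) ^ 4 := by
      have t2' : t ^ 3 ≤ ((6 * M + 7) * (7 / 10) ^ n) ^ 3 := pow_le_pow_left₀ ht0 t2 3
      calc t ^ 4 = t * t ^ 3 := by ring
        _ ≤ ((74 * η) * (7 / 3) ^ n) * ((6 * M + 7) * (7 / 10) ^ n) ^ 3 :=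
            mul_le_mul t1 t2' (by positivity) (by positivity)
        _ = (74 * η * (6 * M + 7) ^ 3) * ((7 / 3) * (7 / 10) ^ 3) ^ n := by
            rw [mul_pow, mul_pow, ← pow_mul, ← pow_mul, mul_comm 3 n]
            ring
        _ ≤ 0.05 ^ 4 * ((0.95:ℝ) ^ 4) ^ n := by
            apply mul_le_mul _ _ (by positivity) (by positivity)
            · calc 74 * η * (6 * M + 7) ^ 3 =
                  296 * (2:ℝ) ^ (-ρ) * (24 * K * T + 7) ^ 3 := by
                    rw [hη, hM]; ring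
                _ ≤ _ := hsmall
            · apply pow_le_pow_left₀ (by positivity)
              norm_num
        _ = _ := by rw [mul_pow, ← pow_mul, ← pow_mul, mul_comm 4 n]
    exact le_of_pow_le_pow_left₀ (by norm_num) (by positivity) t3
  have hgeo : HasSum (fun n : ℕ => 0.05 * (0.95:ℝ) ^ n) 1 := by
    have := (hasSum_geometric_of_lt_one (r := (0.95:ℝ)) (by norm_num) (by norm_num)).mul_left 0.05
    have e : (0.05:ℝ) * (1 - 0.95)⁻¹ = 1 := by norm_num
    rwa [e] at this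
  have hGz1 : ‖G z1‖ ≤ 1 := by
    rw [← htay.tsum_eq]
    exact tsum_of_norm_bounded hgeo hterm
  have hpt : c + z1 = -1 + (T : ℂ) * I := by
    rw [hc, hz1]; push_cast; ring
  rw [← hpt, ← hGexp z1 hz1m]
  apply Real.exp_le_exp.2
  exact (Complex.re_le_norm _).trans hGz1

theorem exists_zero : ∃ C T1 : ℝ, 0 < C ∧ ∀ T : ℝ, T1 ≤ T → ∃ ρ : ℂ, riemannZeta ρ = 0 ∧
    1 / 2 ≤ ρ.re ∧ ρ.re < 1 ∧ |ρ.im - T| ≤ C * Real.log T := by
  obtain ⟨K, hK, hcrude⟩ := zE_crude
  obtain ⟨c, hc, hneg⟩ := zeta_neg_one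
  have hlog2 := Real.log_two_gt_d9
  -- conditions for large T
  have e1 : ∀ᶠ T : ℝ in atTop, 4 ≤ Real.log T := Real.tendsto_log_atTop.eventually_ge_atTop 4
  have e2 : ∀ᶠ T : ℝ in atTop, (1300:ℝ) * Real.log T ^ 2 ≤ T := by
    have := (Real.isLittleO_pow_log_id_atTop (n := 2)).bound (show (0:ℝ) < 1 / 1300 by norm_num)
    filter_upwards [this, eventually_ge_atTop (1:ℝ)] with T h1 h2
    rw [Real.norm_of_nonneg (by positivity), id, Real.norm_of_nonneg (by linarith)] at h1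
    linarith
  have e3 : ∀ᶠ T : ℝ in atTop, 296 * (24 * K + 7) ^ 3 * 160000 ≤ T := eventually_ge_atTop _
  have e4 : ∀ᶠ T : ℝ in atTop, 3 / c < T := eventually_gt_atTop _
  obtain ⟨T1, hT1⟩ := eventually_atTop.1 (e1.and (e2.and (e3.and (e4.and (eventually_ge_atTop (2:ℝ))))))
  refine ⟨24, T1, by norm_num, fun T hT => ?_⟩
  obtain ⟨h1, h2, h3, h4, h5⟩ := hT1 T hT
  set ℓ := Real.log T with hℓ
  have hT0 : 0 < T := by linarith
  set ρ := 6 * ℓ with hρ
  have hρ10 : 10 ≤ ρ := by linarith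
  have hρT : 4 * ρ ≤ T / 2 := by nlinarith
  have hlog : 6 * ρ * Real.log (6 * ρ) ≤ T := by
    have h6 : Real.log (6 * ρ) ≤ 6 * ρ := (Real.log_le_sub_one_of_pos (by linarith)).trans (by linarith)
    calc 6 * ρ * Real.log (6 * ρ) ≤ 6 * ρ * (6 * ρ) := mul_le_mul_of_nonneg_left h6 (by linarith)
      _ = 1296 * ℓ ^ 2 := by rw [hρ]; ring
      _ ≤ 1300 * ℓ ^ 2 := by nlinarith [sq_nonneg ℓ]
      _ ≤ T := h2
  have hsmall : 296 * (2:ℝ) ^ (-ρ) * (24 * K * T + 7) ^ 3 ≤ 0.05 ^ 4 := by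
    have h7 : (2:ℝ) ^ (-ρ) ≤ (T ^ 4)⁻¹ := by
      have e : (T ^ 4)⁻¹ = Real.exp (-(4 * ℓ)) := by
        rw [Real.exp_neg, hℓ, mul_comm, Real.exp_mul, Real.exp_log hT0]
        norm_cast
      rw [e, Real.rpow_def_of_pos (by norm_num)]
      apply Real.exp_le_exp.2
      rw [hρ]
      nlinarith
    have h8 : (24 * K * T + 7) ^ 3 ≤ ((24 * K + 7) * T) ^ 3 := by
      apply pow_le_pow_left₀ (by positivity)
      nlinarith
    calc 296 * (2:ℝ) ^ (-ρ) * (24 * K * T + 7) ^ 3
        ≤ 296 * (T ^ 4)⁻¹ * ((24 * K + 7) * T) ^ 3 := by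
          apply mul_le_mul _ h8 (by positivity) (by positivity)
          exact mul_le_mul_of_nonneg_left h7 (by norm_num)
      _ = 296 * (24 * K + 7) ^ 3 / T := by field_simp
      _ ≤ 0.05 ^ 4 := by
          rw [div_le_iff₀ hT0]
          have : (0.05:ℝ) ^ 4 * 160000 = 1 := by norm_num
          nlinarith
  -- a zero in the ball
  have hex : ∃ s ∈ ball ((2 * ρ : ℝ) + (T : ℂ) * I) (4 * ρ), riemannZeta s = 0 := by
    by_contra hcon
    push Not at hcon
    have hb := ez_core hK hcrude h5 hρ10 hρT hlog hsmall hcon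
    have hn := hneg T (by rw [abs_of_pos hT0]; linarith)
    rw [abs_of_pos hT0] at hn
    have h9 : 3 < c * T := by
      rw [div_lt_iff₀ hc] at h4
      linarith
    have h10 := Real.exp_one_lt_d9
    linarith
  obtain ⟨s, hs, hs0⟩ := hex
  have him : |s.im - T| ≤ 24 * ℓ := by
    rw [mem_ball, dist_eq_norm] at hs
    have := Complex.abs_im_le_norm (s - ((2 * ρ : ℝ) + (T : ℂ) * I))
    have e : (s - ((2 * ρ : ℝ) + (T : ℂ) * I)).im = s.im - T := by simp
    rw [e] at this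
    linarith
  have hre1 : s.re < 1 := by
    by_contra hcon
    push Not at hcon
    exact riemannZeta_ne_zero_of_one_le_re hcon hs0
  have him1 : 1 ≤ s.im := by
    have := (abs_le.1 him).1
    nlinarith
  rcases le_or_gt (1/2) s.re with h | h
  · exact ⟨s, hs0, h, hre1, him⟩
  · have hfe : riemannZeta (1 - s) = 0 := by
      rw [riemannZeta_one_sub (s := s)]
      · rw [hs0, mul_zero]
      · intro n hn
        have : s.im = 0 := by rw [hn]; simp
        linarith
      · intro hn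
        have : s.im = 0 := by rw [hn]; simp
        linarith
    have hre0 : 0 < s.re := by
      by_contra hcon
      push Not at hcon
      refine riemannZeta_ne_zero_of_one_le_re (s := 1 - s) ?_ hfe
      rw [Complex.sub_re, Complex.one_re]
      linarith
    refine ⟨1 - (starRingEnd ℂ) s, ?_, ?_, ?_, ?_⟩
    · have : 1 - (starRingEnd ℂ) s = (starRingEnd ℂ) (1 - s) := by simp
      rw [this, riemannZeta_conj, hfe, map_zero]
    · rw [Complex.sub_re, Complex.one_re, Complex.conj_re]; linarith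
    · rw [Complex.sub_re, Complex.one_re, Complex.conj_re]; linarith
    · rw [Complex.sub_im, Complex.one_im, Complex.conj_im]
      have : 0 - -s.im - T = s.im - T := by ring
      rw [this]
      exact him

end Pool.Agent.P4f18dfV
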