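import Pool.Agent.Lib.P4f18dfV.Zeros

/-!
# Assembly, part 1: many well spaced zeros, sums over well spaced points
-/

set_option autoImplicit false

open Complex MeasureTheory

namespace Pool.Agent.P4f18dfV

/-- Many well spaced zeros with ordinates in `[T/8, T/4]`. -/
theorem many_zeros (D : ℝ) (hD : 1 ≤ D) : ∃ c T0 : ℝ, 0 < c ∧ ∀ T : ℝ, T0 ≤ T →
    ∃ Z : Finset ℝ, ∃ r : ℝ → ℂ,
      (∀ g ∈ Z, riemannZeta (r g) = 0 ∧ 1 / 2 ≤ (r g).re ∧ (r g).re < 1 ∧ (r g).im = g ∧
        T / 8 ≤ g ∧ g ≤ T / 4) ∧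
      (∀ g ∈ Z, ∀ g' ∈ Z, g ≠ g' → 2 * D + 3 ≤ |g - g'|) ∧
      c * T / Real.log T ≤ (Z.card : ℝ) := by
  obtain ⟨C, T1, hC, hz⟩ := exists_zero
  set E : ℝ := C + D + 2 with hE
  have hE0 : 0 < E := by positivity
  -- a large threshold: `log T ≤ T / (64 E)`
  have hlim : ∀ᶠ T : ℝ in Filter.atTop, Real.log T ≤ 1 / (64 * E) * T := by
    have h := Real.isLittleO_log_id_atTop.bound (show (0 : ℝ) < 1 / (64 * E) by positivity)
    filter_upwards [h, Filter.eventually_ge_atTop (1 : ℝ)] with T hT hT1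
    rw [Real.norm_eq_abs, id, Real.norm_eq_abs, abs_of_nonneg (Real.log_nonneg hT1),
      abs_of_nonneg (by linarith)] at hT
    exact hT
  obtain ⟨T2, hT2⟩ := Filter.eventually_atTop.mp hlim
  refine ⟨1 / (32 * E), max T2 (max (8 * T1) 16), by positivity, ?_⟩
  intro T hT
  have hTT2 : T2 ≤ T := (le_max_left _ _).trans hT
  have hTT1 : 8 * T1 ≤ T := (le_max_left _ _).trans ((le_max_right _ _).trans hT)
  have hT16 : 16 ≤ T := (le_max_right _ _).trans ((le_max_right _ _).trans hT)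
  have hT0 : 0 < T := by linarith
  set L := Real.log T with hL
  have hL1 : 1 ≤ L := by
    rw [hL, Real.le_log_iff_exp_le hT0]
    have := Real.exp_one_lt_d9
    linarith
  have hLs : L ≤ 1 / (64 * E) * T := hT2 T hTT2
  set Δ : ℝ := E * L with hΔ
  have hΔ0 : 0 < Δ := by positivity
  have hΔ1 : C * L + (D + 2) ≤ Δ := by
    rw [hΔ, hE]
    nlinarith
  have hΔT : 64 * Δ ≤ T := by
    have h1 : 64 * E * L ≤ 64 * E * (1 / (64 * E) * T) := mul_le_mul_of_nonneg_left hLs (by positivity)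
    have h2 : 64 * E * (1 / (64 * E) * T) = T := by field_simp
    rw [hΔ]
    linarith
  set J : ℕ := ⌊T / (16 * Δ)⌋₊ with hJ
  have hJle : (J : ℝ) ≤ T / (16 * Δ) := Nat.floor_le (by positivity)
  have hJge : T / (16 * Δ) - 1 ≤ (J : ℝ) := by
    have := Nat.lt_floor_add_one (T / (16 * Δ))
    linarith
  have hJΔ : 2 * (J : ℝ) * Δ ≤ T / 8 := by
    have h1 : (J : ℝ) * (16 * Δ) ≤ T := by
      rw [le_div_iff₀ (by positivity)] at hJle
      exact hJle
    linarith
  -- the centres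
  set τ : ℕ → ℝ := fun j => T / 8 + (2 * (j : ℝ) + 1) * Δ with hτ
  have hτ1 : ∀ j : ℕ, T / 8 + Δ ≤ τ j := by
    intro j
    show T / 8 + Δ ≤ T / 8 + (2 * (j : ℝ) + 1) * Δ
    have : 0 ≤ 2 * (j : ℝ) * Δ := by positivity
    linarith
  have hτ2 : ∀ j : ℕ, j < J → τ j ≤ T / 4 - Δ := by
    intro j hj
    have h1 : (j : ℝ) + 1 ≤ J := by exact_mod_cast hj
    show T / 8 + (2 * (j : ℝ) + 1) * Δ ≤ T / 4 - Δ
    have h2 : (2 * (j : ℝ) + 2) * Δ ≤ 2 * (J : ℝ) * Δ :=
      mul_le_mul_of_nonneg_right (by linarith) hΔ0.le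
    linarith
  have hex : ∀ j : ℕ, ∃ ρ : ℂ, j < J → (riemannZeta ρ = 0 ∧
      1 / 2 ≤ ρ.re ∧ ρ.re < 1 ∧ |ρ.im - τ j| ≤ C * L) := by
    intro j
    by_cases hj : j < J
    · have h1 := hτ1 j
      have h2 := hτ2 j hj
      obtain ⟨ρ, h3, h4, h5, h6⟩ := hz (τ j) (by linarith)
      refine ⟨ρ, fun _ => ⟨h3, h4, h5, h6.trans ?_⟩⟩
      refine mul_le_mul_of_nonneg_left ?_ hC.le
      exact Real.log_le_log (by linarith) (by linarith)
    · exact ⟨0, fun h => absurd h hj⟩
  choose r hr using hex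
  have hspace : ∀ i j : ℕ, i < j → j < J → 2 * D + 3 ≤ (r j).im - (r i).im := by
    intro i j hij hj
    have h1 := (hr i (hij.trans hj)).2.2.2
    have h2 := (hr j hj).2.2.2
    rw [abs_le] at h1 h2
    have h3 : τ i + 2 * Δ ≤ τ j := by
      show T / 8 + (2 * (i : ℝ) + 1) * Δ + 2 * Δ ≤ T / 8 + (2 * (j : ℝ) + 1) * Δ
      have h4 : (i : ℝ) + 1 ≤ j := by exact_mod_cast hij
      have h5 : (2 * (i : ℝ) + 3) * Δ ≤ (2 * (j : ℝ) + 1) * Δ :=
        mul_le_mul_of_nonneg_right (by linarith) hΔ0.le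
      linarith
    linarith [h1.2, h2.1]
  have hinj : Set.InjOn (fun j : ℕ => (r j).im) (Finset.range J : Set ℕ) := by
    intro i hi j hj hij
    have hi' : i < J := by simpa using hi
    have hj' : j < J := by simpa using hj
    have hij' : (r i).im = (r j).im := hij
    rcases lt_trichotomy i j with h | h | h
    · have := hspace i j h hj'
      linarith
    · exact h
    · have := hspace j i h hi'
      linarith
  -- inverse function
  have hinv : ∀ g ∈ (Finset.range J).image (fun j : ℕ => (r j).im), ∃ j, j < J ∧ (r j).im = g := by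
    intro g hg
    rw [Finset.mem_image] at hg
    obtain ⟨j, hj, hjg⟩ := hg
    exact ⟨j, Finset.mem_range.mp hj, hjg⟩
  classical
  refine ⟨(Finset.range J).image (fun j : ℕ => (r j).im),
    fun g => if h : ∃ j, j < J ∧ (r j).im = g then r h.choose else 0, ?_, ?_, ?_⟩
  · intro g hg
    have h := hinv g hg
    simp only [dif_pos h]
    obtain ⟨h1, h2⟩ := h.choose_spec
    obtain ⟨h3, h4, h5, h6⟩ := hr _ h1
    rw [h2] at h6
    rw [abs_le] at h6
    have h7 := hτ1 h.choose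
    have h8 := hτ2 _ h1
    refine ⟨h3, h4, h5, h2, ?_, ?_⟩
    · linarith [h6.1]
    · linarith [h6.2]
  · intro g hg g' hg' hne
    obtain ⟨i, hi, rfl⟩ := hinv g hg
    obtain ⟨j, hj, rfl⟩ := hinv g' hg'
    rcases lt_trichotomy i j with h | h | h
    · have := hspace i j h hj
      rw [abs_sub_comm]
      exact this.trans (le_abs_self _)
    · exact absurd (by rw [h]) hne
    · exact (hspace j i h hi).trans (le_abs_self _)
  · rw [Finset.card_image_of_injOn hinj, Finset.card_range]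
    refine le_trans ?_ hJge
    have h1 : T / (16 * Δ) = 2 * (1 / (32 * E) * T / L) := by
      rw [hΔ]
      field_simp
      ring
    rw [h1]
    have h2 : 1 ≤ 1 / (32 * E) * T / L := by
      rw [le_div_iff₀ (by linarith), one_mul]
      refine hLs.trans ?_
      refine mul_le_mul_of_nonneg_right ?_ hT0.le
      exact one_div_le_one_div_of_le (by positivity) (by linarith)
    linarith

/-- Sums of a Gaussian over well spaced points. -/
theorem spaced_sum : ∃ C : ℝ, 0 < C ∧ ∀ Z : Finset ℝ,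
    (∀ g ∈ Z, ∀ g' ∈ Z, g ≠ g' → 1 ≤ |g - g'|) → ∀ t : ℝ,
    ∑ g ∈ Z, Real.exp (-((t - g) ^ 2 / 8)) ≤ C := by
  have hsum : Summable (fun m : ℤ => 16 / (1 + (m : ℝ) ^ 2)) := by
    have h1 : Summable (fun m : ℤ => 1 / (m : ℝ) ^ 2) :=
      Real.summable_one_div_int_pow.mpr (by norm_num)
    have h2 := (h1.mul_left 16)
    refine Summable.of_norm_bounded_eventually h2 ?_
    rw [Filter.eventually_cofinite]
    refine (Set.finite_singleton (0 : ℤ)).subset ?_
    intro m hm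
    rw [Set.mem_singleton_iff]
    by_contra hm0
    apply hm
    have hm1 : (0 : ℝ) < (m : ℝ) ^ 2 := by
      have : (m : ℝ) ≠ 0 := by exact_mod_cast hm0
      positivity
    rw [Real.norm_eq_abs, abs_of_nonneg (by positivity), div_eq_mul_one_div]
    refine mul_le_mul_of_nonneg_left ?_ (by norm_num)
    exact one_div_le_one_div_of_le hm1 (by linarith)
  refine ⟨(∑' m : ℤ, 16 / (1 + (m : ℝ) ^ 2)) + 1, ?_, ?_⟩
  · have : 0 ≤ ∑' m : ℤ, 16 / (1 + (m : ℝ) ^ 2) := tsum_nonneg (fun m => by positivity)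
    linarith
  · intro Z hZ t
    have hinj : Set.InjOn (fun g : ℝ => ⌊g - t⌋) (Z : Set ℝ) := by
      intro g hg g' hg' hgg
      by_contra hne
      have h1 := hZ g hg g' hg' hne
      have h2 : |(g - t) - (g' - t)| < 1 := Int.abs_sub_lt_one_of_floor_eq_floor hgg
      rw [sub_sub_sub_cancel_right] at h2
      linarith
    have hb : ∀ g ∈ Z, Real.exp (-((t - g) ^ 2 / 8)) ≤ 16 / (1 + ((⌊g - t⌋ : ℤ) : ℝ) ^ 2) := by
      intro g _
      set x := g - t with hx
      have h1 := Int.floor_le x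
      have h2 := Int.lt_floor_add_one x
      have h3 : (t - g) ^ 2 = x ^ 2 := by rw [hx]; ring
      rw [h3]
      have h4 : Real.exp (-(x ^ 2 / 8)) ≤ 1 / (1 + x ^ 2 / 8) := by
        rw [Real.exp_neg, ← one_div]
        refine one_div_le_one_div_of_le (by positivity) ?_
        have := Real.add_one_le_exp (x ^ 2 / 8)
        linarith
      refine h4.trans ?_
      rw [div_le_div_iff₀ (by positivity) (by positivity)]
      have h5 : ((⌊x⌋ : ℤ) : ℝ) ^ 2 ≤ 2 * x ^ 2 + 2 := by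
        set m : ℝ := ((⌊x⌋ : ℤ) : ℝ) with hm
        nlinarith [sq_nonneg (2 * x - m), sq_nonneg (x - m)]
      linarith
    refine (Finset.sum_le_sum hb).trans ?_
    have h5 : ∑ g ∈ Z, 16 / (1 + ((⌊g - t⌋ : ℤ) : ℝ) ^ 2) =
        ∑ m ∈ Z.image (fun g : ℝ => ⌊g - t⌋), 16 / (1 + (m : ℝ) ^ 2) := by
      rw [Finset.sum_image (fun a ha b hb h => hinj ha hb h)]
    rw [h5]
    have h6 := hsum.sum_le_tsum (Z.image (fun g : ℝ => ⌊g - t⌋)) (fun m _ => by positivity)
    linarith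

end Pool.Agent.P4f18dfV
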