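import Pool.Agent.Lib.P4f18dfV.Asm3

/-!
# Assembly, part 4: lower bound for the logarithmic mean square
-/

set_option autoImplicit false

open Complex MeasureTheory

namespace Pool.Agent.P4f18dfV

theorem log_mean (ε : ℝ) (hε : 0 < ε) (hε1 : ε < 1) : ∃ c T0 : ℝ, 0 < c ∧ ∀ T : ℝ, T0 ≤ T →
    ∀ Y : ℝ, 1 ≤ Y → Y ≤ T ^ (1 / ε) →
    c / (T * Real.log T ^ 13) ≤
      ∫ x in (Real.log Y)..(Real.log Y + (1 + ε) * Real.log T),
        (DD T (Real.exp x)) ^ 2 * Real.exp (-x) := by
  obtain ⟨κ, Ta, hκ, hper⟩ := per_zero ε hε hε1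
  set D : ℝ := 1 + 2 / Real.sqrt κ with hD
  have hsκ : 0 < Real.sqrt κ := Real.sqrt_pos.mpr hκ
  have hD1 : 1 ≤ D := by
    have : 0 < 2 / Real.sqrt κ := by positivity
    linarith
  have hκD : 4 ≤ κ * D ^ 2 := by
    have h1 : (2 / Real.sqrt κ) ^ 2 ≤ D ^ 2 := by
      refine pow_le_pow_left₀ (by positivity) ?_ 2
      linarith
    have h2 : (2 / Real.sqrt κ) ^ 2 = 4 / κ := by
      rw [div_pow, Real.sq_sqrt hκ.le]
      norm_num
    rw [h2] at h1
    calc (4 : ℝ) = κ * (4 / κ) := by field_simp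
      _ ≤ κ * D ^ 2 := mul_le_mul_of_nonneg_left h1 hκ.le
  obtain ⟨cz, Tb, hcz, hzeros⟩ := many_zeros D hD1
  obtain ⟨Cs, hCs, hspaced⟩ := spaced_sum
  obtain ⟨Tc, hbad⟩ := bad_count D hD1
  obtain ⟨Td, hweight⟩ := weight_bound hκ hD1 hκD
  have hlim : ∀ᶠ T : ℝ in Filter.atTop, 4 + 2 / cz ≤ Real.log T :=
    Real.tendsto_log_atTop.eventually_ge_atTop _
  obtain ⟨Te, hTe⟩ := Filter.eventually_atTop.mp hlim
  set M : ℝ := Real.exp 1 * Cs * (2 * Real.pi * Real.exp (2 / ε + 4)) with hM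
  have hM0 : 0 < M := by positivity
  refine ⟨cz / 2 / (16 * M), max (max (max Ta Tb) (max Tc Td)) (max Te 16), by positivity, ?_⟩
  intro T hT Y hY1 hY
  have hTa : Ta ≤ T := (le_max_left _ _).trans ((le_max_left _ _).trans ((le_max_left _ _).trans hT))
  have hTb : Tb ≤ T := (le_max_right _ _).trans ((le_max_left _ _).trans ((le_max_left _ _).trans hT))
  have hTc : Tc ≤ T := (le_max_left _ _).trans ((le_max_right _ _).trans ((le_max_left _ _).trans hT))
  have hTd : Td ≤ T := (le_max_right _ _).trans ((le_max_right _ _).trans ((le_max_left _ _).trans hT))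
  have hTe' : Te ≤ T := (le_max_left _ _).trans ((le_max_right _ _).trans hT)
  have hT16 : 16 ≤ T := (le_max_right _ _).trans ((le_max_right _ _).trans hT)
  have hT0 : 0 < T := by linarith
  set L := Real.log T with hL
  have hLb := hTe T hTe'
  rw [← hL] at hLb
  have hcz2 : 0 < 2 / cz := by positivity
  have hL4 : 4 ≤ L := by linarith
  have hL0 : 0 < L := by linarith
  set u := Real.log Y with hu
  have hu0 : 0 ≤ u := Real.log_nonneg hY1
  have huL : u ≤ L / ε := by
    have h1 := Real.log_le_log (by linarith) hY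
    rw [Real.log_rpow hT0] at h1
    rw [hu, hL]
    calc Real.log Y ≤ 1 / ε * Real.log T := h1
      _ = _ := by ring
  set v := u + (1 + ε) * L with hv
  have huv : u ≤ v := by
    rw [hv]
    have : 0 ≤ (1 + ε) * L := by positivity
    linarith
  set σ : ℝ := 1 / 2 - 1 / L with hσ
  have hLinv : 1 / L ≤ 1 / 4 := one_div_le_one_div_of_le (by norm_num) hL4
  have hLinv0 : 0 < 1 / L := by positivity
  have hσ0 : 0 ≤ σ := by linarith
  -- the transform
  set p : ℝ → ℝ := fun t => ‖PX T u v ((σ : ℂ) + t * I)‖ with hp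
  have hpc : Continuous p := (line_cont (PX_diff (by linarith) huv).continuous σ).norm
  have hp0 : ∀ t, 0 ≤ p t := fun t => norm_nonneg _
  obtain ⟨B, hB⟩ : ∃ B : ℝ, ∀ t, p t ≤ B := by
    refine ⟨(Real.exp v + 1) * Real.exp (1 * (|u| + |v|)) * (v - u), fun t => ?_⟩
    rw [hp]
    simp only
    rw [PX_eq]
    refine GX_strip huv (dd_norm_le (by linarith)) ?_
    rw [line_re, abs_of_nonneg hσ0]
    linarith
  -- zeros
  obtain ⟨Z, r, hZ, hsp, hcard⟩ := hzeros T hTb
  classical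
  set Z' : Finset ℝ := Z.filter (fun g => ∃ t : ℝ, |t - g| ≤ D ∧
    L ^ 10 < ‖riemannZeta ((σ : ℂ) + t * I)‖ ^ 2) with hZ'
  have hZ'card : (Z'.card : ℝ) ≤ T / L ^ 4 := by
    refine hbad T hTc Z (fun g hg => (hZ g hg).2.2.2.2) hsp Z' (Finset.filter_subset _ _) ?_
    intro g hg
    exact (Finset.mem_filter.mp hg).2
  set G : Finset ℝ := Z.filter (fun g => ¬ ∃ t : ℝ, |t - g| ≤ D ∧
    L ^ 10 < ‖riemannZeta ((σ : ℂ) + t * I)‖ ^ 2) with hG
  have hGcard : cz / 2 * T / L ≤ (G.card : ℝ) := by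
    have h1 : Z'.card + G.card = Z.card := Finset.card_filter_add_card_filter_not _
    have h2 : (Z'.card : ℝ) + (G.card : ℝ) = (Z.card : ℝ) := by exact_mod_cast h1
    have h3 : T / L ^ 4 ≤ cz / 2 * T / L := by
      rw [div_le_div_iff₀ (by positivity) hL0]
      have h4 : 2 / cz ≤ L ^ 3 := by
        have h5 : L ≤ L ^ 3 := by
          calc L = L * 1 := by ring
            _ ≤ L * L ^ 2 := mul_le_mul_of_nonneg_left (one_le_pow₀ (by linarith)) hL0.le
            _ = L ^ 3 := by ring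
        linarith
      have h5 : 1 ≤ cz / 2 * L ^ 3 := by
        rw [div_le_iff₀ hcz] at h4
        linarith
      calc T * L = T * L * 1 := by ring
        _ ≤ T * L * (cz / 2 * L ^ 3) := mul_le_mul_of_nonneg_left h5 (by positivity)
        _ = cz / 2 * T * L ^ 4 := by ring
    have h6 : cz * T / L = cz / 2 * T / L + cz / 2 * T / L := by ring
    rw [h6] at hcard
    linarith
  have hGZ : ∀ g ∈ G, g ∈ Z := fun g hg => (Finset.mem_filter.mp hg).1
  -- one good zero
  have hone : ∀ g ∈ G, 1 / (16 * (L ^ 6) ^ 2 * T ^ 2) ≤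
      ∫ t : ℝ, Real.exp (-((t - g) ^ 2 / 4)) * p t ^ 2 := by
    intro g hg
    obtain ⟨hr0, hr1, hr2, hr3, hr4, hr5⟩ := hZ g (hGZ g hg)
    have hgood := (Finset.mem_filter.mp hg).2
    push Not at hgood
    have h1 := hper T hTa Y hY1 hY (r g) hr0 hr1 hr2 (by rw [hr3]; exact hr4)
      (by rw [hr3]; exact hr5)
    have h2 := hweight T hTd (r g) hr1 hr2 (by rw [hr3]; exact hr4) (by rw [hr3]; exact hr5)
      (by rw [hr3]; exact fun t ht => hgood t ht)
    rw [hr3] at h1 h2
    refine linear_to_square hpc hp0 hB hT0 (pow_pos hL0 6) (h1.trans ?_)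
    refine integral_mono_of_nonneg (Filter.Eventually.of_forall (fun t => ?_)) ?_
      (Filter.Eventually.of_forall (fun t => ?_))
    · show 0 ≤ _ / _ * _ * (_ * _)
      positivity
    · have hcc : Continuous (fun t : ℝ => 2 * L ^ 6 * Real.exp (-((t - g) ^ 2 / 4)) * p t) := by
        fun_prop
      refine ((gauss4_int g).const_mul (2 * L ^ 6 * B)).mono' hcc.aestronglyMeasurable
        (Filter.Eventually.of_forall (fun t => ?_))
      have h3 := hp0 t
      rw [Real.norm_eq_abs, abs_of_nonneg (by positivity)]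
      calc 2 * L ^ 6 * Real.exp (-((t - g) ^ 2 / 4)) * p t ≤
            2 * L ^ 6 * Real.exp (-((t - g) ^ 2 / 4)) * B :=
            mul_le_mul_of_nonneg_left (hB t) (by positivity)
        _ = _ := by ring
    · have h3 := h2 t
      show ‖zE ((σ : ℂ) + t * I)‖ / ‖r g - 1‖ * p t * (L * Real.exp (-(κ * L * (t - g) ^ 2))) ≤
        2 * L ^ 6 * Real.exp (-((t - g) ^ 2 / 4)) * p t
      calc ‖zE ((σ : ℂ) + t * I)‖ / ‖r g - 1‖ * p t * (L * Real.exp (-(κ * L * (t - g) ^ 2))) =
            (‖zE ((σ : ℂ) + t * I)‖ / ‖r g - 1‖ * (L * Real.exp (-(κ * L * (t - g) ^ 2)))) * p t := by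
            ring
        _ ≤ _ := mul_le_mul_of_nonneg_right h3 (hp0 t)
  have hintg : ∀ g ∈ G, Integrable (fun t : ℝ => Real.exp (-((t - g) ^ 2 / 4)) * p t ^ 2) := by
    intro g _
    refine ((gauss4_int g).mul_const (B ^ 2)).mono' ?_ (Filter.Eventually.of_forall (fun t => ?_))
    · exact (by fun_prop : Continuous (fun t : ℝ => Real.exp (-((t - g) ^ 2 / 4)) *
        p t ^ 2)).aestronglyMeasurable
    · rw [Real.norm_eq_abs, abs_of_nonneg (by positivity)]
      exact mul_le_mul_of_nonneg_left (pow_le_pow_left₀ (hp0 t) (hB t) 2) (Real.exp_pos _).le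
  have hsum : (G.card : ℝ) * (1 / (16 * (L ^ 6) ^ 2 * T ^ 2)) ≤
      ∑ g ∈ G, ∫ t : ℝ, Real.exp (-((t - g) ^ 2 / 4)) * p t ^ 2 := by
    rw [← nsmul_eq_mul, ← Finset.sum_const]
    exact Finset.sum_le_sum hone
  rw [← integral_finsetSum _ hintg] at hsum
  have hGs : ∀ t : ℝ, ∑ g ∈ G, Real.exp (-((t - g) ^ 2 / 8)) ≤ Cs := by
    refine hspaced G ?_
    intro g hg g' hg' hne
    have := hsp g (hGZ g hg) g' (hGZ g' hg') hne
    linarith
  have hw := sum_weights hCs hGs hT16 (fun g hg => (hZ g (hGZ g hg)).2.2.2.2)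
  have hgT : Integrable (fun t : ℝ => Real.exp (-(t / T) ^ 2)) := by
    have h : Integrable (fun t : ℝ => Real.exp (-(1 / T ^ 2) * t ^ 2)) :=
      integrable_exp_neg_mul_sq (by positivity)
    refine h.congr (Filter.Eventually.of_forall (fun t => ?_))
    show Real.exp (-(1 / T ^ 2) * t ^ 2) = _
    congr 1
    rw [div_pow]
    ring
  have hpg : Integrable (fun t : ℝ => p t ^ 2 * Real.exp (-(t / T) ^ 2)) := by
    refine (hgT.const_mul (B ^ 2)).mono' ?_ (Filter.Eventually.of_forall (fun t => ?_))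
    · exact (by fun_prop : Continuous (fun t : ℝ => p t ^ 2 *
        Real.exp (-(t / T) ^ 2))).aestronglyMeasurable
    · rw [Real.norm_eq_abs, abs_of_nonneg (by positivity)]
      exact mul_le_mul_of_nonneg_right (pow_le_pow_left₀ (hp0 t) (hB t) 2) (Real.exp_pos _).le
  have hup : ∫ t : ℝ, ∑ g ∈ G, Real.exp (-((t - g) ^ 2 / 4)) * p t ^ 2 ≤
      ∫ t : ℝ, Real.exp 1 * Cs * (p t ^ 2 * Real.exp (-(t / T) ^ 2)) := by
    refine integral_mono_of_nonneg (Filter.Eventually.of_forall (fun t => ?_))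
      (hpg.const_mul _) (Filter.Eventually.of_forall (fun t => ?_))
    · exact Finset.sum_nonneg (fun g _ => by positivity)
    · show ∑ g ∈ G, Real.exp (-((t - g) ^ 2 / 4)) * p t ^ 2 ≤
        Real.exp 1 * Cs * (p t ^ 2 * Real.exp (-(t / T) ^ 2))
      rw [← Finset.sum_mul]
      calc (∑ g ∈ G, Real.exp (-((t - g) ^ 2 / 4))) * p t ^ 2 ≤
            (Real.exp 1 * Cs * Real.exp (-(t / T) ^ 2)) * p t ^ 2 :=
            mul_le_mul_of_nonneg_right (hw t) (by positivity)
        _ = _ := by ring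
  rw [integral_const_mul] at hup
  have hpl := planch_PX (T := T) (u := u) (v := v) (σ := σ) (by linarith) hu0 huv hσ0
  -- compare the weights
  have hDDm : Measurable (fun x : ℝ => DD T (Real.exp x)) :=
    (DD_measurable T).comp Real.measurable_exp
  have hDDb : ∀ x ∈ Set.Icc u v, |DD T (Real.exp x)| ≤ Real.exp v + 1 := by
    intro x hx
    have := dd_norm_le (T := T) (by linarith) (u := u) (v := v) x hx
    rw [Complex.norm_real, Real.norm_eq_abs] at this
    exact this
  have hint1 : ∀ a : ℝ, 0 ≤ a → IntervalIntegrable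
      (fun x : ℝ => (DD T (Real.exp x)) ^ 2 * Real.exp (-(a * x))) volume u v := by
    intro a ha
    refine bdd_intervalIntegrable (B := (Real.exp v + 1) ^ 2 * 1) ?_ huv ?_
    · exact (hDDm.pow_const 2).mul (by fun_prop : Continuous (fun x : ℝ => Real.exp (-(a * x)))).measurable
    · intro x hx
      rw [abs_mul, abs_pow, abs_of_pos (Real.exp_pos _)]
      refine mul_le_mul (pow_le_pow_left₀ (abs_nonneg _) (hDDb x hx) 2) ?_ (Real.exp_pos _).le
        (by positivity)
      rw [Real.exp_le_one_iff]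
      have : 0 ≤ a * x := mul_nonneg ha (hu0.trans hx.1)
      linarith
  have hcmp : ∫ x in u..v, (DD T (Real.exp x)) ^ 2 * Real.exp (-(2 * σ * x)) ≤
      Real.exp (2 / ε + 4) * ∫ x in u..v, (DD T (Real.exp x)) ^ 2 * Real.exp (-x) := by
    rw [← intervalIntegral.integral_const_mul]
    have hi1 := hint1 (2 * σ) (by positivity)
    have hi2 := (hint1 1 zero_le_one).const_mul (Real.exp (2 / ε + 4))
    simp only [one_mul] at hi2
    refine intervalIntegral.integral_mono_on huv hi1 hi2 ?_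
    intro x hx
    have hx1 : 2 * x / L ≤ 2 / ε + 4 := by
      rw [div_le_iff₀ hL0]
      have h1 : x ≤ L / ε + 2 * L := by
        have h2 : (1 + ε) * L ≤ 2 * L := mul_le_mul_of_nonneg_right (by linarith) hL0.le
        have h3 := hx.2
        rw [hv] at h3
        linarith
      have h4 : (2 / ε + 4) * L = 2 * (L / ε + 2 * L) := by ring
      rw [h4]
      linarith
    have h2 : Real.exp (-(2 * σ * x)) ≤ Real.exp (2 / ε + 4) * Real.exp (-x) := by
      rw [← Real.exp_add, Real.exp_le_exp, hσ]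
      have h3 : -(2 * (1 / 2 - 1 / L) * x) = -x + 2 * x / L := by ring
      rw [h3]
      linarith
    calc (DD T (Real.exp x)) ^ 2 * Real.exp (-(2 * σ * x)) ≤
          (DD T (Real.exp x)) ^ 2 * (Real.exp (2 / ε + 4) * Real.exp (-x)) :=
          mul_le_mul_of_nonneg_left h2 (sq_nonneg _)
      _ = _ := by ring
  set J := ∫ x in u..v, (DD T (Real.exp x)) ^ 2 * Real.exp (-x) with hJ
  have htot : (G.card : ℝ) * (1 / (16 * (L ^ 6) ^ 2 * T ^ 2)) ≤ M * J := by
    calc (G.card : ℝ) * (1 / (16 * (L ^ 6) ^ 2 * T ^ 2)) ≤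
          Real.exp 1 * Cs * ∫ t : ℝ, p t ^ 2 * Real.exp (-(t / T) ^ 2) := hsum.trans hup
      _ ≤ Real.exp 1 * Cs * (2 * Real.pi *
            ∫ x in u..v, (DD T (Real.exp x)) ^ 2 * Real.exp (-(2 * σ * x))) :=
          mul_le_mul_of_nonneg_left hpl (by positivity)
      _ ≤ Real.exp 1 * Cs * (2 * Real.pi * (Real.exp (2 / ε + 4) * J)) :=
          mul_le_mul_of_nonneg_left (mul_le_mul_of_nonneg_left hcmp (by positivity)) (by positivity)
      _ = M * J := by
          rw [hM]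
          ring
  have hlow : cz / 2 * T / L * (1 / (16 * (L ^ 6) ^ 2 * T ^ 2)) ≤ M * J :=
    (mul_le_mul_of_nonneg_right hGcard (by positivity)).trans htot
  have heq : cz / 2 * T / L * (1 / (16 * (L ^ 6) ^ 2 * T ^ 2)) =
      M * (cz / 2 / (16 * M) / (T * L ^ 13)) := by
    field_simp
  rw [heq] at hlow
  exact le_of_mul_le_mul_left hlow hM0

end Pool.Agent.P4f18dfV
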