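import Pool.Agent.Lib.P4f18dfV.Defs

/-!
# From proportional intervals to intervals of fixed length (Saffari-Vaughan)

PROOF SKETCH. `η = 1/T`, `S(y, v) = ∑_{y < n ≤ y + v} μ(n)`, so `DD T y = S(y, η y)`. For all `y > 0` outside a
null set (`y + v` not an integer) `S(y, v) = MH (y + v/2) v`. For `y ∈ [X, 2X]` and `v ∈ [3ηX, 4ηX]`:
`DD T y = S(y, v) - S(y (1 + η), v - η y)`, so `DD² ≤ 2 S(y, v)² + 2 S(y (1+η), v - η y)²`; average over `v`:
`∫_X^{2X} DD² ≤ (2/(ηX)) ∫_v ∫_y S(y, v)² + (2/(ηX)) ∫_y ∫_v S(y (1+η), v - ηy)² dv dy`. The first inner integral is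
`∫_{X+v/2}^{2X+v/2} MH(x, v)² dx ≤ 2 B` (`v/2 ≤ 2ηX ≤ X`, the range is inside `[X, 4X]`). In the second substitute
`v' = v - η y ∈ [ηX, 3ηX]`, enlarge the range of `v'` to this interval, exchange the integrals, substitute
`y' = y (1 + η) ∈ [X, 3X]`: at most `2 ηX * 2 B`. Total `≤ 4 B + 8 B`. All functions are bounded, piecewise constant and
measurable (`MH`, `S` are finite sums of indicator functions of sets defined by linear inequalities).
-/

set_option autoImplicit false

open Complex MeasureTheory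

namespace Pool.Agent.P4f18dfV

namespace SV

/-- Partial sums of the Möbius function. -/
noncomputable def Ms (k : ℕ) : ℝ := ∑ n ∈ Finset.range (k + 1), ((ArithmeticFunction.moebius n : ℤ) : ℝ)

lemma abs_Ms (k : ℕ) : |Ms k| ≤ k + 1 := by
  unfold Ms
  refine (Finset.abs_sum_le_sum_abs _ _).trans ?_
  have h : ∀ n ∈ Finset.range (k + 1), |((ArithmeticFunction.moebius n : ℤ) : ℝ)| ≤ 1 := by
    intro n _
    have := ArithmeticFunction.abs_moebius_le_one (n := n)
    exact_mod_cast this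
  refine (Finset.sum_le_sum h).trans ?_
  simp

lemma sum_Ioc_eq {a b : ℕ} (h : a ≤ b) :
    ∑ n ∈ Finset.Ioc a b, ((ArithmeticFunction.moebius n : ℤ) : ℝ) = Ms b - Ms a := by
  induction b, h using Nat.le_induction with
  | base => simp
  | succ b hb ih =>
    rw [Finset.sum_Ioc_succ_top hb, ih]
    unfold Ms
    rw [Finset.sum_range_succ (n := b + 1)]
    ring

/-- Truncated summatory function. -/
noncomputable def Mt (L : ℕ) (x : ℝ) : ℝ := Ms (min ⌊x⌋₊ L)

lemma abs_Mt (L : ℕ) (x : ℝ) : |Mt L x| ≤ L + 1 := by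
  unfold Mt
  refine (abs_Ms _).trans ?_
  have : ((min ⌊x⌋₊ L : ℕ) : ℝ) ≤ L := by exact_mod_cast min_le_right _ _
  linarith

lemma measurable_Mt (L : ℕ) : Measurable (Mt L) := by
  have h1 : Measurable (fun k : ℕ => Ms (min k L)) := measurable_from_nat
  exact h1.comp Nat.measurable_floor

/-- Sums over intervals. -/
noncomputable def P (L : ℕ) (y v : ℝ) : ℝ := Mt L (y + v) - Mt L y

lemma P_sq_le (L : ℕ) (y v : ℝ) : (P L y v) ^ 2 ≤ (2 * ((L:ℝ) + 1)) ^ 2 := by
  have h1 := abs_le.1 (abs_Mt L (y + v))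
  have h2 := abs_le.1 (abs_Mt L y)
  apply sq_le_sq'
  · unfold P; linarith [h1.1, h2.2]
  · unfold P; linarith [h1.2, h2.1]

lemma measurable_P (L : ℕ) : Measurable (fun z : ℝ × ℝ => P L z.1 z.2) := by
  unfold P
  exact ((measurable_Mt L).comp (measurable_fst.add measurable_snd)).sub
    ((measurable_Mt L).comp measurable_fst)

lemma meas_P2 (L : ℕ) {α : Type*} [MeasurableSpace α] {f g : α → ℝ} (hf : Measurable f) (hg : Measurable g) :
    Measurable (fun z : α => (P L (f z) (g z)) ^ 2) :=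
  ((measurable_P L).comp (hf.prodMk hg)).pow_const 2

lemma integrable_of_bdd {α : Type*} [MeasurableSpace α] {μ : Measure α} [IsFiniteMeasure μ] {f : α → ℝ}
    (hf : Measurable f) (h0 : ∀ x, 0 ≤ f x) {C : ℝ} (hC : ∀ x, f x ≤ C) : Integrable f μ :=
  (integrable_const C).mono' hf.aestronglyMeasurable (Filter.Eventually.of_forall fun x => by
    rw [Real.norm_eq_abs, abs_of_nonneg (h0 x)]; exact hC x)

lemma ii_of_bdd {f : ℝ → ℝ} (hf : Measurable f) (h0 : ∀ x, 0 ≤ f x) {C : ℝ} (hC : ∀ x, f x ≤ C) (a b : ℝ) :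
    IntervalIntegrable f volume a b := by
  constructor
  · exact integrable_of_bdd hf h0 hC
  · exact integrable_of_bdd hf h0 hC

lemma MH_eq {x H : ℝ} (hH : 0 < H) (hx : H / 2 ≤ x) (hne : ∀ n : ℕ, (n : ℝ) ≠ x + H / 2) :
    MH x H = Ms ⌊x + H / 2⌋₊ - Ms ⌊x - H / 2⌋₊ := by
  have hle : ⌊x - H / 2⌋₊ ≤ ⌊x + H / 2⌋₊ := Nat.floor_le_floor (by linarith)
  rw [← sum_Ioc_eq hle]
  unfold MH
  refine Finset.sum_congr ?_ fun _ _ => rfl
  ext n
  rw [Finset.mem_filter, Finset.mem_range, Finset.mem_Ioc, abs_lt]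
  constructor
  · rintro ⟨_, h1, h2⟩
    constructor
    · rw [Nat.floor_lt (by linarith)]
      linarith
    · exact Nat.le_floor (by linarith)
  · rintro ⟨h1, h2⟩
    rw [Nat.floor_lt (by linarith)] at h1
    have h3 : (n : ℝ) ≤ x + H / 2 := (Nat.le_floor_iff (by linarith)).1 h2
    have h4 : (n : ℝ) < x + H / 2 := lt_of_le_of_ne h3 (hne n)
    refine ⟨?_, by linarith, by linarith⟩
    have h5 : n ≤ ⌊x + H⌋₊ := Nat.le_floor (by linarith)
    omega

lemma ae_ne (H : ℝ) : ∀ᵐ x : ℝ, ∀ n : ℕ, (n : ℝ) ≠ x + H / 2 := by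
  have hc : (Set.range (fun n : ℕ => (n : ℝ) - H / 2)).Countable := Set.countable_range _
  filter_upwards [hc.ae_notMem volume] with x hx n hn
  apply hx
  exact ⟨n, by simp only; linarith⟩

end SV

open SV

theorem saffari_vaughan {T X B : ℝ} (hT : 4 ≤ T) (hX : 1 ≤ X)
    (hB : ∀ H : ℝ, X / T ≤ H → H ≤ 4 * X / T →
      ∫ x in X..(2 * X), (MH x H) ^ 2 ≤ B ∧ ∫ x in (2 * X)..(4 * X), (MH x H) ^ 2 ≤ B) :
    ∫ y in X..(2 * X), (DD T y) ^ 2 ≤ 12 * B := by
  set η : ℝ := 1 / T with hη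
  have hT0 : 0 < T := by linarith
  have hη0 : 0 < η := by positivity
  have hη4 : η ≤ 1 / 4 := by
    rw [hη]
    exact one_div_le_one_div_of_le (by norm_num) hT
  have hX0 : 0 < X := by linarith
  have hηX : 0 < η * X := by positivity
  have hηX4 : η * X ≤ X / 4 := by nlinarith
  have hXT : X / T = η * X := by rw [hη]; ring
  have hXT4 : 4 * X / T = 4 * (η * X) := by rw [hη]; ring
  rw [hXT, hXT4] at hB
  set L : ℕ := ⌈10 * X⌉₊ with hL
  have hL10 : 10 * X ≤ L := Nat.le_ceil _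
  have hB0 : 0 ≤ B := by
    refine le_trans ?_ (hB (η * X) le_rfl (by linarith)).1
    exact intervalIntegral.integral_nonneg (by linarith) fun x _ => sq_nonneg _
  have hmin : ∀ x : ℝ, x ≤ 10 * X → min ⌊x⌋₊ L = ⌊x⌋₊ := by
    intro x hx
    apply min_eq_left
    rcases le_or_gt 0 x with h0 | h0
    · have h1 : ((⌊x⌋₊ : ℕ) : ℝ) ≤ L := (Nat.floor_le h0).trans (hx.trans hL10)
      exact_mod_cast h1
    · rw [Nat.floor_of_nonpos h0.le]
      exact Nat.zero_le _
  -- DD in terms of P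
  have hDD : ∀ y ∈ Set.uIcc X (2 * X), (DD T y) ^ 2 = (Mt L (y * (1 + η)) - Mt L y) ^ 2 := by
    intro y hy
    rw [Set.uIcc_of_le (by linarith)] at hy
    obtain ⟨hy1, hy2⟩ := hy
    congr 1
    unfold DD Mt
    have h1 : y * (1 + η) ≤ 10 * X := by nlinarith
    have h2 : y ≤ 10 * X := by linarith
    rw [hmin _ h1, hmin _ h2]
    rw [← hη]
    apply sum_Ioc_eq
    apply Nat.floor_le_floor
    nlinarith
  rw [intervalIntegral.integral_congr hDD]
  -- claim A
  have claimA : ∀ H : ℝ, η * X ≤ H → H ≤ 4 * (η * X) → ∀ α β : ℝ, X - H / 2 ≤ α → α ≤ β →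
      β ≤ 4 * X - H / 2 → ∫ y in α..β, (P L y H) ^ 2 ≤ 2 * B := by
    intro H hH1 hH2 α β hα hαβ hβ
    have hH0 : 0 < H := by linarith
    have hPm : Measurable (fun y => (P L y H) ^ 2) := meas_P2 L measurable_id measurable_const
    have hii : ∀ a b : ℝ, IntervalIntegrable (fun y => (P L y H) ^ 2) volume a b := fun a b =>
      ii_of_bdd hPm (fun _ => sq_nonneg _) (fun y => P_sq_le L y H) a b
    have h1 : ∫ y in α..β, (P L y H) ^ 2 ≤ ∫ y in (X - H / 2)..(4 * X - H / 2), (P L y H) ^ 2 :=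
      intervalIntegral.integral_mono_interval hα hαβ hβ
        (Filter.Eventually.of_forall fun _ => sq_nonneg _) (hii _ _)
    have h2 : ∫ y in (X - H / 2)..(4 * X - H / 2), (P L y H) ^ 2 =
        ∫ x in X..(4 * X), (P L (x - H / 2) H) ^ 2 := by
      rw [intervalIntegral.integral_comp_sub_right (fun y => (P L y H) ^ 2) (H / 2)]
    have hPm' : Measurable (fun x => (P L (x - H / 2) H) ^ 2) :=
      meas_P2 L (measurable_id.sub_const _) measurable_const
    have hii' : ∀ a b : ℝ, IntervalIntegrable (fun x => (P L (x - H / 2) H) ^ 2) volume a b := fun a b =>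
      ii_of_bdd hPm' (fun _ => sq_nonneg _) (fun y => P_sq_le L _ H) a b
    have h3 : ∫ x in X..(4 * X), (P L (x - H / 2) H) ^ 2 =
        (∫ x in X..(2 * X), (P L (x - H / 2) H) ^ 2) + ∫ x in (2 * X)..(4 * X), (P L (x - H / 2) H) ^ 2 :=
      (intervalIntegral.integral_add_adjacent_intervals (hii' _ _) (hii' _ _)).symm
    have h4 : ∀ a b : ℝ, X ≤ a → a ≤ b → b ≤ 4 * X → ∫ x in a..b, (P L (x - H / 2) H) ^ 2 =
        ∫ x in a..b, (MH x H) ^ 2 := by
      intro a b ha hab hb
      apply intervalIntegral.integral_congr_ae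
      filter_upwards [ae_ne H] with x hx hmem
      rw [Set.uIoc_of_le hab] at hmem
      obtain ⟨hx1, hx2⟩ := hmem
      rw [MH_eq hH0 (by linarith) hx]
      congr 1
      unfold P Mt
      rw [hmin _ (by linarith), hmin _ (by linarith)]
      congr 3
      ring
    have h5 := hB H hH1 hH2
    rw [h2, h3, h4 _ _ le_rfl (by linarith) (by linarith), h4 _ _ (by linarith) (by linarith) le_rfl] at h1
    linarith [h5.1, h5.2]
  -- measures
  set μ1 : Measure ℝ := volume.restrict (Set.Ioc X (2 * X)) with hμ1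
  set ν1 : Measure ℝ := volume.restrict (Set.Ioc (3 * (η * X)) (4 * (η * X))) with hν1
  set ν2 : Measure ℝ := volume.restrict (Set.Ioc (η * X) (3 * (η * X))) with hν2
  have f1 : IsFiniteMeasure μ1 := by rw [hμ1]; infer_instance
  have f2 : IsFiniteMeasure ν1 := by rw [hν1]; infer_instance
  have f3 : IsFiniteMeasure ν2 := by rw [hν2]; infer_instance
  have hν1m : ν1.real Set.univ = η * X := by
    rw [hν1, measureReal_restrict_apply_univ, Real.volume_real_Ioc_of_le (by linarith)]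
    ring
  have hν2m : ν2.real Set.univ = 2 * (η * X) := by
    rw [hν2, measureReal_restrict_apply_univ, Real.volume_real_Ioc_of_le (by linarith)]
    ring
  rw [intervalIntegral.integral_of_le (show X ≤ 2 * X by linarith), ← hμ1]
  set C : ℝ := (2 * ((L:ℝ) + 1)) ^ 2 with hC
  -- measurability
  have m1 : Measurable (fun z : ℝ × ℝ => (P L z.1 z.2) ^ 2) := meas_P2 L measurable_fst measurable_snd
  have m2 : Measurable (fun z : ℝ × ℝ => (P L (z.1 * (1 + η)) (z.2 - η * z.1)) ^ 2) :=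
    meas_P2 L (measurable_fst.mul_const _) (measurable_snd.sub (measurable_fst.const_mul _))
  have m3 : Measurable (fun z : ℝ × ℝ => (P L (z.1 * (1 + η)) z.2) ^ 2) :=
    meas_P2 L (measurable_fst.mul_const _) measurable_snd
  have i1 : Integrable (fun z : ℝ × ℝ => (P L z.1 z.2) ^ 2) (μ1.prod ν1) :=
    integrable_of_bdd m1 (fun _ => sq_nonneg _) (fun z => P_sq_le L _ _)
  have i2 : Integrable (fun z : ℝ × ℝ => (P L (z.1 * (1 + η)) (z.2 - η * z.1)) ^ 2) (μ1.prod ν1) :=
    integrable_of_bdd m2 (fun _ => sq_nonneg _) (fun z => P_sq_le L _ _)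
  have i3 : Integrable (fun z : ℝ × ℝ => (P L (z.1 * (1 + η)) z.2) ^ 2) (μ1.prod ν2) :=
    integrable_of_bdd m3 (fun _ => sq_nonneg _) (fun z => P_sq_le L _ _)
  have s1 : ∀ y : ℝ, Integrable (fun v => (P L y v) ^ 2) ν1 := fun y =>
    integrable_of_bdd (meas_P2 L measurable_const measurable_id) (fun _ => sq_nonneg _)
      (fun v => P_sq_le L _ _)
  have s2 : ∀ y : ℝ, Integrable (fun v => (P L (y * (1 + η)) (v - η * y)) ^ 2) ν1 := fun y =>
    integrable_of_bdd (meas_P2 L measurable_const (measurable_id.sub_const _)) (fun _ => sq_nonneg _)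
      (fun v => P_sq_le L _ _)
  -- pointwise inequality
  have hpt : ∀ y : ℝ, η * X * (Mt L (y * (1 + η)) - Mt L y) ^ 2 ≤
      2 * (∫ v, (P L y v) ^ 2 ∂ν1) + 2 * ∫ v, (P L (y * (1 + η)) (v - η * y)) ^ 2 ∂ν1 := by
    intro y
    have h1 : η * X * (Mt L (y * (1 + η)) - Mt L y) ^ 2 =
        ∫ v, (Mt L (y * (1 + η)) - Mt L y) ^ 2 ∂ν1 := by
      rw [integral_const, hν1m, smul_eq_mul]
    rw [h1, ← integral_const_mul, ← integral_const_mul,
      ← integral_add ((s1 y).const_mul 2) ((s2 y).const_mul 2)]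
    refine integral_mono (integrable_const _) (((s1 y).const_mul 2).add ((s2 y).const_mul 2)) fun v => ?_
    simp only
    have h2 : Mt L (y * (1 + η)) - Mt L y = P L y v - P L (y * (1 + η)) (v - η * y) := by
      unfold P
      have : y * (1 + η) + (v - η * y) = y + v := by ring
      rw [this]
      ring
    rw [h2]
    nlinarith [sq_nonneg (P L y v + P L (y * (1 + η)) (v - η * y))]
  have hI1 : ∫ y, (∫ v, (P L y v) ^ 2 ∂ν1) ∂μ1 ≤ η * X * (2 * B) := by
    rw [integral_integral_swap i1]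
    have h1 : ∀ᵐ v ∂ν1, ∫ y, (P L y v) ^ 2 ∂μ1 ≤ 2 * B := by
      rw [hν1, ae_restrict_iff' measurableSet_Ioc]
      refine Filter.Eventually.of_forall fun v hv => ?_
      rw [hμ1, ← intervalIntegral.integral_of_le (show X ≤ 2 * X by linarith)]
      exact claimA v (by linarith [hv.1]) hv.2 X (2 * X) (by linarith [hv.1]) (by linarith)
        (by linarith [hv.2])
    calc ∫ v, (∫ y, (P L y v) ^ 2 ∂μ1) ∂ν1 ≤ ∫ v, 2 * B ∂ν1 := by
          refine integral_mono_of_nonneg (Filter.Eventually.of_forall fun v => ?_) (integrable_const _) h1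
          exact integral_nonneg fun _ => sq_nonneg _
      _ = η * X * (2 * B) := by rw [integral_const, hν1m, smul_eq_mul]
  have hI2 : ∫ y, (∫ v, (P L (y * (1 + η)) (v - η * y)) ^ 2 ∂ν1) ∂μ1 ≤ 2 * (η * X) * (2 * B) := by
    have h1 : ∫ y, (∫ v, (P L (y * (1 + η)) (v - η * y)) ^ 2 ∂ν1) ∂μ1 ≤
        ∫ y, (∫ v, (P L (y * (1 + η)) v) ^ 2 ∂ν2) ∂μ1 := by
      refine integral_mono_of_nonneg (Filter.Eventually.of_forall fun y => ?_) ?_ ?_
      · exact integral_nonneg fun _ => sq_nonneg _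
      · exact i3.integral_prod_left
      · rw [hμ1, Filter.EventuallyLE, ae_restrict_iff' measurableSet_Ioc]
        refine Filter.Eventually.of_forall fun y hy => ?_
        have hy1 : η * X ≤ η * y := by nlinarith [hy.1]
        have hy2 : η * y ≤ 2 * (η * X) := by nlinarith [hy.2]
        have mP : Measurable (fun v => (P L (y * (1 + η)) v) ^ 2) :=
          meas_P2 L measurable_const measurable_id
        rw [hν1, hν2, ← intervalIntegral.integral_of_le (by linarith),
          ← intervalIntegral.integral_of_le (by linarith),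
          intervalIntegral.integral_comp_sub_right (fun v => (P L (y * (1 + η)) v) ^ 2) (η * y)]
        refine intervalIntegral.integral_mono_interval (by linarith) (by linarith) (by linarith)
          (Filter.Eventually.of_forall fun _ => sq_nonneg _) ?_
        exact ii_of_bdd mP (fun _ => sq_nonneg _) (fun v => P_sq_le L _ _) _ _
    refine h1.trans ?_
    rw [integral_integral_swap i3]
    have h2 : ∀ᵐ v ∂ν2, ∫ y, (P L (y * (1 + η)) v) ^ 2 ∂μ1 ≤ 2 * B := by
      rw [hν2, ae_restrict_iff' measurableSet_Ioc]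
      refine Filter.Eventually.of_forall fun v hv => ?_
      rw [hμ1, ← intervalIntegral.integral_of_le (show X ≤ 2 * X by linarith),
        intervalIntegral.integral_comp_mul_right (fun y => (P L y v) ^ 2) (by positivity : 1 + η ≠ 0),
        smul_eq_mul]
      have h3 : ∫ y in X * (1 + η)..2 * X * (1 + η), (P L y v) ^ 2 ≤ 2 * B := by
        refine claimA v hv.1.le (by linarith [hv.2]) _ _ ?_ ?_ ?_
        · nlinarith [hv.1]
        · nlinarith
        · nlinarith [hv.2]
      have h4 : (1 + η)⁻¹ ≤ 1 := inv_le_one_of_one_le₀ (by linarith)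
      have h5 : 0 ≤ ∫ y in X * (1 + η)..2 * X * (1 + η), (P L y v) ^ 2 :=
        intervalIntegral.integral_nonneg (by nlinarith) fun _ _ => sq_nonneg _
      calc (1 + η)⁻¹ * ∫ y in X * (1 + η)..2 * X * (1 + η), (P L y v) ^ 2
          ≤ 1 * ∫ y in X * (1 + η)..2 * X * (1 + η), (P L y v) ^ 2 := by gcongr
        _ ≤ 2 * B := by rw [one_mul]; exact h3
    calc ∫ v, (∫ y, (P L (y * (1 + η)) v) ^ 2 ∂μ1) ∂ν2 ≤ ∫ v, 2 * B ∂ν2 := by
          refine integral_mono_of_nonneg (Filter.Eventually.of_forall fun v => ?_) (integrable_const _) h2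
          exact integral_nonneg fun _ => sq_nonneg _
      _ = 2 * (η * X) * (2 * B) := by rw [integral_const, hν2m, smul_eq_mul]
  have j1 : Integrable (fun y => ∫ v, (P L y v) ^ 2 ∂ν1) μ1 := i1.integral_prod_left
  have j2 : Integrable (fun y => ∫ v, (P L (y * (1 + η)) (v - η * y)) ^ 2 ∂ν1) μ1 := i2.integral_prod_left
  have hfin : η * X * ∫ y, (Mt L (y * (1 + η)) - Mt L y) ^ 2 ∂μ1 ≤ η * X * (12 * B) := by
    rw [← integral_const_mul]
    have h1 : ∫ y, η * X * (Mt L (y * (1 + η)) - Mt L y) ^ 2 ∂μ1 ≤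
        ∫ y, (2 * (∫ v, (P L y v) ^ 2 ∂ν1) + 2 * ∫ v, (P L (y * (1 + η)) (v - η * y)) ^ 2 ∂ν1) ∂μ1 := by
      refine integral_mono_of_nonneg (Filter.Eventually.of_forall fun y => ?_) ?_
        (Filter.Eventually.of_forall hpt)
      · simp only [Pi.zero_apply]
        positivity
      · exact (j1.const_mul 2).add (j2.const_mul 2)
    have h2 : ∫ y, (2 * (∫ v, (P L y v) ^ 2 ∂ν1) + 2 * ∫ v, (P L (y * (1 + η)) (v - η * y)) ^ 2 ∂ν1) ∂μ1 =
        2 * (∫ y, (∫ v, (P L y v) ^ 2 ∂ν1) ∂μ1) +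
          2 * ∫ y, (∫ v, (P L (y * (1 + η)) (v - η * y)) ^ 2 ∂ν1) ∂μ1 := by
      rw [integral_add (j1.const_mul 2) (j2.const_mul 2), integral_const_mul, integral_const_mul]
    rw [h2] at h1
    linarith
  exact le_of_mul_le_mul_left hfin hηX

end Pool.Agent.P4f18dfV
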