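import Pool.Agent.Lib.P4f18dfV.Asm4
import Pool.Agent.Lib.P4f18dfV.SV

/-!
# Assembly, part 5: dyadic blocks and the variance in short intervals
-/

set_option autoImplicit false

open Complex MeasureTheory

namespace Pool.Agent.P4f18dfV

lemma exp_image_Ioc {a b : ℝ} : Real.exp '' Set.Ioc a b = Set.Ioc (Real.exp a) (Real.exp b) := by
  ext y
  constructor
  · rintro ⟨x, hx, rfl⟩
    exact ⟨Real.exp_lt_exp.mpr hx.1, Real.exp_le_exp.mpr hx.2⟩
  · intro hy
    have hy0 : 0 < y := (Real.exp_pos a).trans hy.1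
    refine ⟨Real.log y, ⟨?_, ?_⟩, Real.exp_log hy0⟩
    · rw [Real.lt_log_iff_exp_lt hy0]
      exact hy.1
    · rw [Real.log_le_iff_le_exp hy0]
      exact hy.2

/-- Change of variables `y = exp x`. -/
lemma exp_cov (T : ℝ) {a b : ℝ} (hab : a ≤ b) :
    ∫ x in a..b, (DD T (Real.exp x)) ^ 2 * Real.exp (-x) =
      ∫ y in (Real.exp a)..(Real.exp b), (DD T y) ^ 2 / y ^ 2 := by
  rw [intervalIntegral.integral_of_le hab,
    intervalIntegral.integral_of_le (Real.exp_le_exp.mpr hab), ← exp_image_Ioc]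
  have h := integral_image_eq_integral_abs_deriv_smul (s := Set.Ioc a b) (f := Real.exp)
    (f' := Real.exp) measurableSet_Ioc (fun x _ => (Real.hasDerivAt_exp x).hasDerivWithinAt)
    (Real.exp_injective.injOn) (fun y => (DD T y) ^ 2 / y ^ 2)
  rw [h]
  refine setIntegral_congr_fun measurableSet_Ioc (fun x _ => ?_)
  show (DD T (Real.exp x)) ^ 2 * Real.exp (-x) =
    |Real.exp x| • ((DD T (Real.exp x)) ^ 2 / (Real.exp x) ^ 2)
  rw [abs_of_pos (Real.exp_pos x), smul_eq_mul, Real.exp_neg]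
  have := Real.exp_pos x
  field_simp

lemma DD_sq_intervalIntegrable {T X Y : ℝ} (hT : 1 ≤ T) (hX : 0 < X) (hXY : X ≤ Y) :
    IntervalIntegrable (fun y : ℝ => (DD T y) ^ 2) volume X Y := by
  refine bdd_intervalIntegrable (B := (Y / T + 1) ^ 2) ((DD_measurable T).pow_const 2) hXY ?_
  intro x hx
  rw [abs_pow]
  refine pow_le_pow_left₀ (abs_nonneg _) ?_ 2
  have h1 := DD_abs (T := T) (y := x) (by linarith) (by linarith [hx.1])
  have h2 : x / T ≤ Y / T := div_le_div_of_nonneg_right hx.2 (by linarith)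
  linarith

lemma DD_sq_div_intervalIntegrable {T X Y : ℝ} (hT : 1 ≤ T) (hX : 0 < X) (hXY : X ≤ Y) :
    IntervalIntegrable (fun y : ℝ => (DD T y) ^ 2 / y ^ 2) volume X Y := by
  refine bdd_intervalIntegrable (B := (Y / T + 1) ^ 2 / X ^ 2)
    (((DD_measurable T).pow_const 2).div (measurable_id.pow_const 2)) hXY ?_
  intro x hx
  have hx0 : 0 < x := lt_of_lt_of_le hX hx.1
  show |(DD T x) ^ 2 / x ^ 2| ≤ _
  rw [abs_div, abs_pow, abs_pow, abs_of_pos hx0]
  refine div_le_div₀ (by positivity) ?_ (by positivity) (pow_le_pow_left₀ hX.le hx.1 2)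
  refine pow_le_pow_left₀ (abs_nonneg _) ?_ 2
  have h1 := DD_abs (T := T) (y := x) (by linarith) (by linarith [hx.1])
  have h2 : x / T ≤ Y / T := div_le_div_of_nonneg_right hx.2 (by linarith)
  linarith

/-- One block. -/
lemma block_bound {T a : ℝ} (hT : 1 ≤ T) :
    ∫ x in a..(a + Real.log 2), (DD T (Real.exp x)) ^ 2 * Real.exp (-x) ≤
      (1 / (Real.exp a) ^ 2) * ∫ y in (Real.exp a)..(2 * Real.exp a), (DD T y) ^ 2 := by
  have hl2 : 0 ≤ Real.log 2 := Real.log_nonneg (by norm_num)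
  rw [exp_cov T (by linarith)]
  have h1 : Real.exp (a + Real.log 2) = 2 * Real.exp a := by
    rw [Real.exp_add, Real.exp_log (by norm_num)]
    ring
  rw [h1]
  set X := Real.exp a with hX
  have hX0 : 0 < X := Real.exp_pos a
  rw [← intervalIntegral.integral_const_mul]
  refine intervalIntegral.integral_mono_on (by linarith)
    (DD_sq_div_intervalIntegrable hT hX0 (by linarith))
    ((DD_sq_intervalIntegrable hT hX0 (by linarith)).const_mul _) ?_
  intro y hy
  have hy0 : 0 < y := lt_of_lt_of_le hX0 hy.1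
  have h2 : 1 / y ^ 2 ≤ 1 / X ^ 2 :=
    one_div_le_one_div_of_le (by positivity) (pow_le_pow_left₀ hX0.le hy.1 2)
  calc (DD T y) ^ 2 / y ^ 2 = (1 / y ^ 2) * (DD T y) ^ 2 := by ring
    _ ≤ (1 / X ^ 2) * (DD T y) ^ 2 := mul_le_mul_of_nonneg_right h2 (sq_nonneg _)

/-- Pigeonhole over dyadic blocks. -/
lemma pigeon {T u v : ℝ} (hT : 1 ≤ T) (huv : u < v) {A : ℝ} (hA : 0 < A)
    (h : A ≤ ∫ x in u..v, (DD T (Real.exp x)) ^ 2 * Real.exp (-x)) :
    ∃ a : ℝ, u ≤ a ∧ a < v ∧ A / ((v - u) / Real.log 2 + 1) ≤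
      ∫ x in a..(a + Real.log 2), (DD T (Real.exp x)) ^ 2 * Real.exp (-x) := by
  have hl2 : 0 < Real.log 2 := Real.log_pos (by norm_num)
  set Φ : ℝ → ℝ := fun x => (DD T (Real.exp x)) ^ 2 * Real.exp (-x) with hΦ
  have hΦ0 : ∀ x, 0 ≤ Φ x := fun x => by positivity
  have hint : ∀ a b : ℝ, a ≤ b → IntervalIntegrable Φ volume a b := by
    intro a b hab
    refine bdd_intervalIntegrable (B := (Real.exp b + 1) ^ 2 * Real.exp (-a)) ?_ hab ?_
    · have hDDm : Measurable (fun x : ℝ => DD T (Real.exp x)) :=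
        (DD_measurable T).comp Real.measurable_exp
      exact (hDDm.pow_const 2).mul (by fun_prop : Continuous (fun x : ℝ => Real.exp (-x))).measurable
    · intro x hx
      rw [hΦ]
      simp only
      rw [abs_mul, abs_pow, abs_of_pos (Real.exp_pos _)]
      refine mul_le_mul (pow_le_pow_left₀ (abs_nonneg _) ?_ 2) ?_ (Real.exp_pos _).le (by positivity)
      · have := dd_norm_le hT (u := a) (v := b) x hx
        rw [Complex.norm_real, Real.norm_eq_abs] at this
        exact this
      · rw [Real.exp_le_exp]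
        linarith [hx.1]
  have hint' : ∀ a b : ℝ, IntervalIntegrable Φ volume a b := by
    intro a b
    rcases le_total a b with hab | hab
    · exact hint a b hab
    · exact (hint b a hab).symm
  set N : ℕ := ⌈(v - u) / Real.log 2⌉₊ with hN
  have hd0 : 0 < (v - u) / Real.log 2 := div_pos (by linarith) hl2
  have hN0 : 0 < N := Nat.ceil_pos.mpr hd0
  have hN0' : (0 : ℝ) < N := by exact_mod_cast hN0
  have hNle : (N : ℝ) ≤ (v - u) / Real.log 2 + 1 := (Nat.ceil_lt_add_one hd0.le).le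
  have hNge : (v - u) / Real.log 2 ≤ N := Nat.le_ceil _
  have hv : v ≤ u + N * Real.log 2 := by
    rw [div_le_iff₀ hl2] at hNge
    linarith
  have hsum := intervalIntegral.sum_integral_adjacent_intervals (μ := volume) (f := Φ)
    (a := fun j : ℕ => u + j * Real.log 2) (n := N) (fun j _ => hint' _ _)
  simp only [Nat.cast_zero, zero_mul, add_zero] at hsum
  have hle : ∫ x in u..v, Φ x ≤ ∫ x in u..(u + N * Real.log 2), Φ x := by
    refine intervalIntegral.integral_mono_interval le_rfl huv.le hv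
      (Filter.Eventually.of_forall (fun x => hΦ0 x)) (hint' _ _)
  have hex : ∃ j ∈ Finset.range N, A / N ≤
      ∫ x in (u + (j : ℝ) * Real.log 2)..(u + ((j + 1 : ℕ) : ℝ) * Real.log 2), Φ x := by
    by_contra hno
    push Not at hno
    have h1 : ∑ j ∈ Finset.range N,
        ∫ x in (u + (j : ℝ) * Real.log 2)..(u + ((j + 1 : ℕ) : ℝ) * Real.log 2), Φ x <
        ∑ j ∈ Finset.range N, A / N :=
      Finset.sum_lt_sum_of_nonempty ⟨0, Finset.mem_range.mpr hN0⟩ hno
    rw [Finset.sum_const, Finset.card_range, nsmul_eq_mul, mul_div_cancel₀ _ hN0'.ne', hsum] at h1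
    linarith
  obtain ⟨j, hj, hjb⟩ := hex
  have hjN : j < N := Finset.mem_range.mp hj
  refine ⟨u + j * Real.log 2, ?_, ?_, ?_⟩
  · have : 0 ≤ (j : ℝ) * Real.log 2 := by positivity
    linarith
  · have h1 : (j : ℝ) < (v - u) / Real.log 2 := Nat.lt_ceil.mp hjN
    rw [lt_div_iff₀ hl2] at h1
    linarith
  · have h1 : u + ((j + 1 : ℕ) : ℝ) * Real.log 2 = u + j * Real.log 2 + Real.log 2 := by
      push_cast
      ring
    rw [h1] at hjb
    refine le_trans ?_ hjb
    exact div_le_div_of_nonneg_left hA.le hN0' hNle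

/-- Lower bound for the variance of the Möbius function in short intervals. -/
theorem variance_lower (ε : ℝ) (hε : 0 < ε) (hε1 : ε < 1) : ∃ T0 : ℝ, ∀ T : ℝ, T0 ≤ T →
    ∀ Y : ℝ, 1 ≤ Y → Y ≤ T ^ (1 / ε) → ∃ X H : ℝ, Y ≤ X ∧ X ≤ Y * T ^ (1 + ε) ∧
      X / (2 * T) ≤ H ∧ H ≤ 4 * X / T ∧
      H / Real.log T ^ 15 ≤ (1 / X) * ∫ x in X..(2 * X), (MH x H) ^ 2 := by
  obtain ⟨c, T1, hc, hmean⟩ := log_mean (ε / 2) (by positivity) (by linarith)
  have hlim : ∀ᶠ T : ℝ in Filter.atTop, 4 + 2 / ε + 416 / c ≤ Real.log T :=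
    Real.tendsto_log_atTop.eventually_ge_atTop _
  obtain ⟨T2, hT2⟩ := Filter.eventually_atTop.mp hlim
  refine ⟨max T1 (max T2 16), ?_⟩
  intro T hT Y hY1 hY
  have hTT1 : T1 ≤ T := (le_max_left _ _).trans hT
  have hTT2 : T2 ≤ T := (le_max_left _ _).trans ((le_max_right _ _).trans hT)
  have hT16 : 16 ≤ T := (le_max_right _ _).trans ((le_max_right _ _).trans hT)
  have hT0 : 0 < T := by linarith
  set L := Real.log T with hL
  have hLb := hT2 T hTT2
  rw [← hL] at hLb
  have hi1 : 0 < 2 / ε := by positivity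
  have hi2 : 0 < 416 / c := by positivity
  have hL4 : 4 ≤ L := by linarith
  have hL0 : 0 < L := by linarith
  have hTexp : T = Real.exp L := by rw [hL, Real.exp_log hT0]
  have hYY : Y ≤ T ^ (1 / (ε / 2)) := by
    refine hY.trans (Real.rpow_le_rpow_of_exponent_le (by linarith) ?_)
    exact one_div_le_one_div_of_le (by positivity) (by linarith)
  have h1 := hmean T hTT1 Y hY1 hYY
  rw [← hL] at h1
  set u := Real.log Y with hu
  set v := u + (1 + ε / 2) * L with hv
  have huv : u < v := by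
    rw [hv]
    have : 0 < (1 + ε / 2) * L := by positivity
    linarith
  obtain ⟨a, hua, hav, hblock⟩ := pigeon (by linarith : (1 : ℝ) ≤ T) huv (by positivity) h1
  have hY0 : 0 < Y := by linarith
  set X := Real.exp a with hX
  have hX0 : 0 < X := Real.exp_pos a
  have hYX : Y ≤ X := by
    rw [hX, ← Real.log_le_iff_le_exp hY0]
    exact hua
  have hX1 : 1 ≤ X := hY1.trans hYX
  have hXv : X ≤ Y * T ^ (1 + ε / 2) := by
    have h2 : Y * T ^ (1 + ε / 2) = Real.exp v := by
      rw [hv, Real.exp_add, hu, Real.exp_log hY0, Real.rpow_def_of_pos hT0, ← hL, mul_comm L]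
    rw [h2]
    exact Real.exp_le_exp.mpr hav.le
  have h2T : 2 * (Y * T ^ (1 + ε / 2)) ≤ Y * T ^ (1 + ε) := by
    have h3 : T ^ (1 + ε) = T ^ (1 + ε / 2) * T ^ (ε / 2) := by
      rw [← Real.rpow_add hT0]
      congr 1
      ring
    have h4 : 2 ≤ T ^ (ε / 2) := by
      rw [Real.rpow_def_of_pos hT0, ← hL]
      have h5 : 1 ≤ L * (ε / 2) := by
        have h6 : 2 / ε ≤ L := by linarith
        rw [div_le_iff₀ hε] at h6
        linarith
      have h7 := Real.add_one_le_exp (L * (ε / 2))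
      linarith
    rw [h3]
    have h5 : 0 < Y * T ^ (1 + ε / 2) := by positivity
    calc 2 * (Y * T ^ (1 + ε / 2)) = (Y * T ^ (1 + ε / 2)) * 2 := by ring
      _ ≤ (Y * T ^ (1 + ε / 2)) * T ^ (ε / 2) := mul_le_mul_of_nonneg_left h4 h5.le
      _ = _ := by ring
  -- number of blocks
  have hNb : (v - u) / Real.log 2 + 1 ≤ 4 * L := by
    have h3 : v - u ≤ 3 / 2 * L := by
      rw [hv]
      have : (1 + ε / 2) * L ≤ 3 / 2 * L := mul_le_mul_of_nonneg_right (by linarith) hL0.le
      linarith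
    have h4 : (v - u) / Real.log 2 ≤ 3 * L := by
      have hl2 : (1 : ℝ) / 2 ≤ Real.log 2 := by
        have := Real.log_two_gt_d9
        linarith
      rw [div_le_iff₀ (by linarith)]
      have h5 : 3 * L * (1 / 2) ≤ 3 * L * Real.log 2 := mul_le_mul_of_nonneg_left hl2 (by positivity)
      linarith
    linarith
  have hlow : c / (4 * T * L ^ 14) ≤
      ∫ x in a..(a + Real.log 2), (DD T (Real.exp x)) ^ 2 * Real.exp (-x) := by
    refine le_trans ?_ hblock
    have h3 : 0 < (v - u) / Real.log 2 + 1 := by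
      have hl2 : 0 < Real.log 2 := Real.log_pos (by norm_num)
      have : 0 < (v - u) / Real.log 2 := div_pos (by linarith) hl2
      linarith
    calc c / (4 * T * L ^ 14) = c / (T * L ^ 13) / (4 * L) := by
          field_simp
      _ ≤ c / (T * L ^ 13) / ((v - u) / Real.log 2 + 1) :=
          div_le_div_of_nonneg_left (by positivity) h3 hNb
  have hlow2 := hlow.trans (block_bound (a := a) (by linarith : (1 : ℝ) ≤ T))
  rw [← hX] at hlow2
  set S := ∫ y in X..(2 * X), (DD T y) ^ 2 with hS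
  have hlow3 : c * X ^ 2 / (4 * T * L ^ 14) ≤ S := by
    have h3 : c * X ^ 2 / (4 * T * L ^ 14) = X ^ 2 * (c / (4 * T * L ^ 14)) := by ring
    have h4 : X ^ 2 * (1 / X ^ 2 * S) = S := by field_simp
    rw [h3, ← h4]
    exact mul_le_mul_of_nonneg_left hlow2 (by positivity)
  set B := c * X ^ 2 / (52 * T * L ^ 14) with hB
  have hBS : 12 * B < S := by
    refine lt_of_lt_of_le ?_ hlow3
    rw [hB]
    have h3 : 0 < c * X ^ 2 / (T * L ^ 14) := by positivity
    have h4 : 12 * (c * X ^ 2 / (52 * T * L ^ 14)) = 12 / 52 * (c * X ^ 2 / (T * L ^ 14)) := by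
      field_simp
    have h5 : c * X ^ 2 / (4 * T * L ^ 14) = 1 / 4 * (c * X ^ 2 / (T * L ^ 14)) := by
      field_simp
    rw [h4, h5]
    linarith
  have hcL : 416 ≤ c * L := by
    have h3 : 416 / c ≤ L := by linarith
    rw [div_le_iff₀ hc] at h3
    linarith
  have hex : ∃ H : ℝ, X / T ≤ H ∧ H ≤ 4 * X / T ∧
      (B < ∫ x in X..(2 * X), (MH x H) ^ 2 ∨ B < ∫ x in (2 * X)..(4 * X), (MH x H) ^ 2) := by
    by_contra hno
    push Not at hno
    have h3 := saffari_vaughan (T := T) (X := X) (B := B) (by linarith) hX1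
      (fun H h4 h5 => hno H h4 h5)
    linarith
  obtain ⟨H, hH1, hH2, hor⟩ := hex
  have hHX : H / 4 ≤ X / T := by
    have : 4 * X / T = 4 * (X / T) := by ring
    linarith
  have hH0 : 0 < H := lt_of_lt_of_le (by positivity) hH1
  have hfin : H / L ^ 15 ≤ 1 / (2 * X) * B := by
    have h3 : 1 / (2 * X) * B = c * L / 416 * (4 * (X / T)) / L ^ 15 := by
      rw [hB]
      field_simp
      ring
    rw [h3]
    have h4 : 1 ≤ c * L / 416 := by
      rw [le_div_iff₀ (by norm_num)]
      linarith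
    refine div_le_div_of_nonneg_right ?_ (by positivity)
    calc H = 1 * H := by ring
      _ ≤ c * L / 416 * (4 * (X / T)) := mul_le_mul h4 (by linarith) hH0.le (by positivity)
  have hB0 : 0 < B := by positivity
  rcases hor with h3 | h3
  · refine ⟨X, H, hYX, ?_, ?_, hH2, ?_⟩
    · have : 0 < Y * T ^ (1 + ε / 2) := by positivity
      linarith
    · refine le_trans ?_ hH1
      rw [div_le_div_iff₀ (by positivity) hT0]
      nlinarith
    · refine hfin.trans ?_
      have h4 : 1 / (2 * X) * B ≤ 1 / X * B := by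
        refine mul_le_mul_of_nonneg_right ?_ hB0.le
        exact one_div_le_one_div_of_le hX0 (by linarith)
      refine h4.trans ?_
      exact mul_le_mul_of_nonneg_left h3.le (by positivity)
  · refine ⟨2 * X, H, by linarith, by linarith, ?_, ?_, ?_⟩
    · refine le_trans (le_of_eq ?_) hH1
      field_simp
    · refine hH2.trans ?_
      refine div_le_div_of_nonneg_right ?_ hT0.le
      linarith
    · refine hfin.trans ?_
      have h4 : 2 * (2 * X) = 4 * X := by ring
      rw [h4]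
      exact mul_le_mul_of_nonneg_left h3.le (by positivity)

end Pool.Agent.P4f18dfV
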