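import Pool.Agent.Lib.P4f18dfV.Defs

/-!
# Mellin transform of the short sums of the Möbius function
-/

set_option autoImplicit false

open Complex MeasureTheory

namespace Pool.Agent.P4f18dfV

/-- Logarithmic length of the short intervals. -/
noncomputable def ell (T : ℝ) : ℝ := Real.log (1 + 1 / T)

/-- Transform of the interval `[-ell T, 0]`. -/
noncomputable def mm (T : ℝ) (s : ℂ) : ℂ := ∫ x in (-ell T)..0, Complex.exp (-(s * x))

lemma one_lt_lam {T : ℝ} (hT : 0 < T) : 1 < 1 + 1 / T := by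
  have : 0 < 1 / T := by positivity
  linarith

lemma ell_pos {T : ℝ} (hT : 0 < T) : 0 < ell T := Real.log_pos (one_lt_lam hT)

lemma ell_le {T : ℝ} (hT : 0 < T) : ell T ≤ 1 / T := by
  have h := Real.log_le_sub_one_of_pos (show (0 : ℝ) < 1 + 1 / T by have := one_lt_lam hT; linarith)
  unfold ell
  linarith

lemma exp_ell {T : ℝ} (hT : 0 < T) : Real.exp (ell T) = 1 + 1 / T :=
  Real.exp_log (by have := one_lt_lam hT; linarith)

lemma ell_ge {T : ℝ} (hT : 1 ≤ T) : 1 / T - 1 / (2 * T ^ 2) ≤ ell T := by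
  have hT0 : 0 < T := by linarith
  have hx : 0 ≤ 1 / T := by positivity
  have hx1 : 1 / T ≤ 1 := by rw [div_le_one hT0]; exact hT
  have h := Real.le_log_one_add_of_nonneg hx
  unfold ell
  refine le_trans ?_ h
  set x := 1 / T with hxdef
  have e : 1 / (2 * T ^ 2) = x ^ 2 / 2 := by
    rw [hxdef]
    field_simp
  rw [e, le_div_iff₀ (by linarith)]
  nlinarith [pow_nonneg hx 3, mul_nonneg hx hx]

lemma DD_abs {T y : ℝ} (hT : 0 < T) (hy : 0 ≤ y) : |DD T y| ≤ y / T + 1 := by
  unfold DD
  have h1 : |∑ n ∈ Finset.Ioc ⌊y⌋₊ ⌊y * (1 + 1 / T)⌋₊, (ArithmeticFunction.moebius n : ℝ)| ≤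
      ((Finset.Ioc ⌊y⌋₊ ⌊y * (1 + 1 / T)⌋₊).card : ℝ) := by
    refine (Finset.abs_sum_le_sum_abs _ _).trans ?_
    rw [Finset.card_eq_sum_ones]
    push_cast
    refine Finset.sum_le_sum (fun n _ => ?_)
    have := ArithmeticFunction.abs_moebius_le_one (n := n)
    exact_mod_cast this
  refine h1.trans ?_
  rw [Nat.card_Ioc]
  have h2 : y ≤ y * (1 + 1 / T) := by
    have := one_lt_lam hT
    nlinarith
  have h3 : ⌊y⌋₊ ≤ ⌊y * (1 + 1 / T)⌋₊ := Nat.floor_le_floor h2
  rw [Nat.cast_sub h3]
  have h4 : (⌊y * (1 + 1 / T)⌋₊ : ℝ) ≤ y * (1 + 1 / T) := Nat.floor_le (hy.trans h2)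
  have h5 := Nat.lt_floor_add_one y
  have e : y * (1 + 1 / T) = y + y / T := by ring
  linarith

lemma DD_zero {T y : ℝ} (h : y * (1 + 1 / T) < 1) : DD T y = 0 := by
  unfold DD
  have : ⌊y * (1 + 1 / T)⌋₊ = 0 := by
    rw [Nat.floor_eq_zero]
    exact h
  rw [this]
  simp

lemma DD_measurable (T : ℝ) : Measurable (DD T) := by
  have h1 : DD T = (fun p : ℕ × ℕ => ∑ n ∈ Finset.Ioc p.1 p.2, (ArithmeticFunction.moebius n : ℝ)) ∘
      (fun y => (⌊y⌋₊, ⌊y * (1 + 1 / T)⌋₊)) := rfl
  rw [h1]
  refine (measurable_of_countable _).comp ?_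
  refine Measurable.prodMk Nat.measurable_floor ?_
  exact Nat.measurable_floor.comp (measurable_id.mul_const _)

lemma norm_cexp (s : ℂ) (x : ℝ) : ‖Complex.exp (-(s * x))‖ = Real.exp (-(s.re * x)) := by
  rw [Complex.norm_exp]
  congr 1
  rw [Complex.neg_re, Complex.re_mul_ofReal]

lemma tsum_ind {T : ℝ} (hT : 0 < T) (s : ℂ) (x : ℝ) :
    ∑' n : ℕ, Set.indicator (Set.Ico (Real.log n - ell T) (Real.log n))
      (fun x : ℝ => ((ArithmeticFunction.moebius n : ℝ) : ℂ) * Complex.exp (-(s * x))) x =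
      (DD T (Real.exp x) : ℂ) * Complex.exp (-(s * x)) := by
  have hex := Real.exp_pos x
  have key : ∀ n : ℕ, 1 ≤ n → (x ∈ Set.Ico (Real.log n - ell T) (Real.log n) ↔
      n ∈ Finset.Ioc ⌊Real.exp x⌋₊ ⌊Real.exp x * (1 + 1 / T)⌋₊) := by
    intro n hn
    have hn0 : (0 : ℝ) < n := by exact_mod_cast hn
    have hlam : 0 < 1 + 1 / T := by have := one_lt_lam hT; linarith
    rw [Set.mem_Ico, Finset.mem_Ioc, Nat.floor_lt hex.le, Nat.le_floor_iff (by positivity),
      and_comm]
    have e1 : x < Real.log n ↔ Real.exp x < n := by rw [Real.lt_log_iff_exp_lt hn0]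
    have e2 : Real.log n - ell T ≤ x ↔ (n : ℝ) ≤ Real.exp x * (1 + 1 / T) := by
      rw [sub_le_iff_le_add, Real.log_le_iff_le_exp hn0, Real.exp_add, exp_ell hT]
    rw [e1, e2]
  rw [tsum_eq_sum (s := Finset.Ioc ⌊Real.exp x⌋₊ ⌊Real.exp x * (1 + 1 / T)⌋₊)]
  · unfold DD
    push_cast
    rw [Finset.sum_mul]
    refine Finset.sum_congr rfl (fun n hn => ?_)
    have hn1 : 1 ≤ n := by
      rw [Finset.mem_Ioc] at hn
      omega
    rw [Set.indicator_of_mem ((key n hn1).mpr hn)]
  · intro n hn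
    rcases Nat.eq_zero_or_pos n with h0 | h0
    · subst h0
      by_cases hx : x ∈ Set.Ico (Real.log (0 : ℕ) - ell T) (Real.log (0 : ℕ))
      · rw [Set.indicator_of_mem hx]
        simp
      · rw [Set.indicator_of_notMem hx]
    · rw [Set.indicator_of_notMem]
      intro h
      exact hn ((key n h0).mp h)

lemma norm_log_pow {n : ℕ} (hn : 1 ≤ n) (s : ℂ) :
    Complex.exp (-(s * (Real.log n : ℝ))) = (n : ℂ) ^ (-s) := by
  have hn0 : (n : ℂ) ≠ 0 := by exact_mod_cast (by omega : n ≠ 0)
  rw [Complex.cpow_def_of_ne_zero hn0, Complex.ofReal_log (Nat.cast_nonneg n)]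
  congr 1
  push_cast
  ring

lemma int_ind {T : ℝ} (hT : 0 < T) (s : ℂ) {n : ℕ} (hn : 1 ≤ n) :
    ∫ x : ℝ, Set.indicator (Set.Ico (Real.log n - ell T) (Real.log n))
      (fun x : ℝ => ((ArithmeticFunction.moebius n : ℝ) : ℂ) * Complex.exp (-(s * x))) x =
      ((ArithmeticFunction.moebius n : ℝ) : ℂ) * (n : ℂ) ^ (-s) * mm T s := by
  rw [integral_indicator measurableSet_Ico, integral_const_mul,
    integral_Ico_eq_integral_Ioo, ← integral_Ioc_eq_integral_Ioo,
    ← intervalIntegral.integral_of_le (by have := ell_pos hT; linarith), mul_assoc]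
  congr 1
  unfold mm
  rw [← norm_log_pow hn, ← intervalIntegral.integral_const_mul]
  have h := intervalIntegral.integral_comp_add_left (a := -ell T) (b := 0)
    (fun x : ℝ => Complex.exp (-(s * x))) (Real.log n)
  rw [show Real.log (n : ℝ) + -ell T = Real.log n - ell T by ring, add_zero] at h
  rw [← h]
  refine intervalIntegral.integral_congr (fun x _ => ?_)
  show Complex.exp (-(s * ((Real.log n + x : ℝ) : ℂ))) = _
  rw [← Complex.exp_add]
  congr 1
  push_cast
  ring

lemma norm_int_ind {T : ℝ} (hT : 0 < T) {s : ℂ} (hs : 1 < s.re) (n : ℕ) :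
    ∫ x : ℝ, ‖Set.indicator (Set.Ico (Real.log n - ell T) (Real.log n))
      (fun x : ℝ => ((ArithmeticFunction.moebius n : ℝ) : ℂ) * Complex.exp (-(s * x))) x‖ ≤
      (ell T * Real.exp (s.re * ell T)) * (n : ℝ) ^ (-s.re) := by
  rcases Nat.eq_zero_or_pos n with h0 | h0
  · subst h0
    have : (fun x : ℝ => ‖Set.indicator (Set.Ico (Real.log (0 : ℕ) - ell T) (Real.log (0 : ℕ)))
      (fun x : ℝ => ((ArithmeticFunction.moebius 0 : ℝ) : ℂ) * Complex.exp (-(s * x))) x‖) =
        fun _ => 0 := by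
      funext x
      simp
    rw [this]
    simp
    have := ell_pos hT
    positivity
  · have hn0 : (0 : ℝ) < n := by exact_mod_cast h0
    have e1 : (fun x : ℝ => ‖Set.indicator (Set.Ico (Real.log n - ell T) (Real.log n))
      (fun x : ℝ => ((ArithmeticFunction.moebius n : ℝ) : ℂ) * Complex.exp (-(s * x))) x‖) =
        Set.indicator (Set.Ico (Real.log n - ell T) (Real.log n))
          (fun x : ℝ => ‖((ArithmeticFunction.moebius n : ℝ) : ℂ) * Complex.exp (-(s * x))‖) := by
      funext x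
      rw [norm_indicator_eq_indicator_norm]
    rw [e1, integral_indicator measurableSet_Ico, integral_Ico_eq_integral_Ioo,
      ← integral_Ioc_eq_integral_Ioo,
      ← intervalIntegral.integral_of_le (by have := ell_pos hT; linarith)]
    have hle : ∀ x ∈ Set.Icc (Real.log n - ell T) (Real.log n),
        ‖((ArithmeticFunction.moebius n : ℝ) : ℂ) * Complex.exp (-(s * x))‖ ≤
          Real.exp (s.re * ell T) * (n : ℝ) ^ (-s.re) := by
      intro x hx
      rw [norm_mul, norm_cexp, Complex.norm_real, Real.norm_eq_abs]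
      have h1 : |(ArithmeticFunction.moebius n : ℝ)| ≤ 1 := by
        have := ArithmeticFunction.abs_moebius_le_one (n := n)
        exact_mod_cast this
      have h2 : Real.exp (-(s.re * x)) ≤ Real.exp (s.re * ell T) * (n : ℝ) ^ (-s.re) := by
        rw [Real.rpow_def_of_pos hn0, ← Real.exp_add, Real.exp_le_exp]
        nlinarith [hx.1]
      calc |(ArithmeticFunction.moebius n : ℝ)| * Real.exp (-(s.re * x)) ≤
            1 * Real.exp (-(s.re * x)) := mul_le_mul_of_nonneg_right h1 (Real.exp_pos _).le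
        _ ≤ _ := by rw [one_mul]; exact h2
    have hci : Continuous (fun x : ℝ => ‖((ArithmeticFunction.moebius n : ℝ) : ℂ) *
        Complex.exp (-(s * x))‖) := by fun_prop
    have hcc : Continuous (fun _ : ℝ => Real.exp (s.re * ell T) * (n : ℝ) ^ (-s.re)) :=
      continuous_const
    have h3 := intervalIntegral.integral_mono_on (μ := volume) (a := Real.log n - ell T)
      (b := Real.log n) (by have := ell_pos hT; linarith)
      (hci.intervalIntegrable _ _) (hcc.intervalIntegrable _ _) hle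
    refine h3.trans (le_of_eq ?_)
    rw [intervalIntegral.integral_const, smul_eq_mul]
    ring

lemma summable_norm_int {T : ℝ} (hT : 0 < T) {s : ℂ} (hs : 1 < s.re) :
    Summable (fun n : ℕ => ∫ x : ℝ, ‖Set.indicator (Set.Ico (Real.log n - ell T) (Real.log n))
      (fun x : ℝ => ((ArithmeticFunction.moebius n : ℝ) : ℂ) * Complex.exp (-(s * x))) x‖) := by
  refine Summable.of_nonneg_of_le (fun n => integral_nonneg (fun x => norm_nonneg _))
    (fun n => norm_int_ind hT hs n) ?_
  refine Summable.mul_left _ ?_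
  exact Real.summable_nat_rpow.mpr (by linarith)

/-- The Mellin transform of the short sums. -/
theorem mellin_identity {T : ℝ} (hT : 0 < T) {s : ℂ} (hs : 1 < s.re) :
    zE s * ∫ x : ℝ, (DD T (Real.exp x) : ℂ) * Complex.exp (-(s * x)) = (s - 1) * mm T s := by
  have hint : ∀ n : ℕ, Integrable (fun x : ℝ =>
      Set.indicator (Set.Ico (Real.log n - ell T) (Real.log n))
      (fun x : ℝ => ((ArithmeticFunction.moebius n : ℝ) : ℂ) * Complex.exp (-(s * x))) x) := by
    intro n
    have hc : Continuous (fun x : ℝ => ((ArithmeticFunction.moebius n : ℝ) : ℂ) *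
        Complex.exp (-(s * x))) := by fun_prop
    rw [integrable_indicator_iff measurableSet_Ico]
    exact (hc.continuousOn.integrableOn_Icc (a := Real.log n - ell T) (b := Real.log n)).mono_set
      Set.Ico_subset_Icc_self
  have h := hasSum_integral_of_summable_integral_norm hint (summable_norm_int hT hs)
  have h1 : (fun x : ℝ => ∑' n : ℕ, Set.indicator (Set.Ico (Real.log n - ell T) (Real.log n))
      (fun x : ℝ => ((ArithmeticFunction.moebius n : ℝ) : ℂ) * Complex.exp (-(s * x))) x) =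
      fun x : ℝ => (DD T (Real.exp x) : ℂ) * Complex.exp (-(s * x)) := by
    funext x
    exact tsum_ind hT s x
  rw [h1] at h
  have h2 : (fun n : ℕ => ∫ x : ℝ, Set.indicator (Set.Ico (Real.log n - ell T) (Real.log n))
      (fun x : ℝ => ((ArithmeticFunction.moebius n : ℝ) : ℂ) * Complex.exp (-(s * x))) x) =
      fun n : ℕ => LSeries.term (fun n => ((ArithmeticFunction.moebius n : ℤ) : ℂ)) s n * mm T s := by
    funext n
    rcases Nat.eq_zero_or_pos n with h0 | h0
    · subst h0
      simp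
    · rw [int_ind hT s h0, LSeries.term_of_ne_zero (by omega), Complex.cpow_neg]
      push_cast
      ring
  rw [h2] at h
  have hsum : HasSum (fun n : ℕ => LSeries.term (fun n => ((ArithmeticFunction.moebius n : ℤ) : ℂ)) s n)
      (LSeries (fun n => ((ArithmeticFunction.moebius n : ℤ) : ℂ)) s) :=
    (ArithmeticFunction.LSeriesSummable_moebius_iff.mpr hs).hasSum
  have h3 := h.unique (hsum.mul_right (mm T s))
  rw [h3]
  have hs1 : s ≠ 1 := by
    intro h0
    rw [h0] at hs
    simp at hs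
  have h4 := ArithmeticFunction.LSeries_zeta_mul_Lseries_moebius hs
  rw [ArithmeticFunction.LSeries_zeta_eq_riemannZeta hs] at h4
  rw [zE_of_ne hs1]
  calc (s - 1) * riemannZeta s * (LSeries (fun n => ((ArithmeticFunction.moebius n : ℤ) : ℂ)) s * mm T s)
      = (s - 1) * (riemannZeta s * LSeries (fun n => ((ArithmeticFunction.moebius n : ℤ) : ℂ)) s) *
          mm T s := by ring
    _ = (s - 1) * mm T s := by rw [h4]; ring

end Pool.Agent.P4f18dfV
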