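import Pool.Agent.Lib.P4f18dfV.PZ1

/-!
# Truncated transforms: analyticity, bounds and the splitting of the Mellin integral
-/

set_option autoImplicit false

open Complex MeasureTheory

namespace Pool.Agent.P4f18dfV

/-- A truncated transform. -/
noncomputable def GX (g : ℝ → ℂ) (u v : ℝ) (s : ℂ) : ℂ :=
  ∫ x in u..v, g x * Complex.exp (-(s * x))

lemma GX_intervalIntegrable {g : ℝ → ℂ} (hg : Measurable g) {u v B : ℝ} (huv : u ≤ v)
    (hB : ∀ x ∈ Set.Icc u v, ‖g x‖ ≤ B) {φ : ℝ → ℂ} (hφ : Continuous φ) :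
    IntervalIntegrable (fun x => g x * φ x) volume u v := by
  have h1 : IntervalIntegrable g volume u v := by
    rw [intervalIntegrable_iff, Set.uIoc_of_le huv]
    refine Measure.integrableOn_of_bounded (M := B) ?_ hg.aestronglyMeasurable ?_
    · exact measure_Ioc_lt_top.ne
    · rw [ae_restrict_iff' measurableSet_Ioc]
      exact Filter.Eventually.of_forall (fun x hx => hB x (Set.Ioc_subset_Icc_self hx))
  exact h1.mul_continuousOn hφ.continuousOn

lemma GX_diff {g : ℝ → ℂ} (hg : Measurable g) {u v B : ℝ} (huv : u ≤ v)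
    (hB : ∀ x ∈ Set.Icc u v, ‖g x‖ ≤ B) : Differentiable ℂ (GX g u v) := by
  intro s0
  have hB0 : 0 ≤ B := (norm_nonneg _).trans (hB u ⟨le_refl u, huv⟩)
  set M : ℝ := |u| + |v| with hM
  have hxM : ∀ x ∈ Set.Ioc u v, |x| ≤ M := by
    intro x hx
    rw [abs_le]
    constructor
    · have := neg_abs_le u
      have := abs_nonneg v
      linarith [hx.1]
    · have := le_abs_self v
      have := abs_nonneg u
      linarith [hx.2]
  have key := intervalIntegral.hasDerivAt_integral_of_dominated_loc_of_deriv_le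
    (μ := volume) (a := u) (b := v)
    (F := fun (s : ℂ) (x : ℝ) => g x * Complex.exp (-(s * x)))
    (F' := fun (s : ℂ) (x : ℝ) => g x * (Complex.exp (-(s * x)) * (-(x : ℂ))))
    (x₀ := s0) (s := Metric.ball s0 1)
    (bound := fun _ => B * (Real.exp ((‖s0‖ + 1) * M) * M))
    (Metric.ball_mem_nhds s0 one_pos) ?_ ?_ ?_ ?_ ?_ ?_
  · exact key.2.differentiableAt
  · refine Filter.Eventually.of_forall (fun s => ?_)
    have hc : Continuous (fun x : ℝ => Complex.exp (-(s * x))) := by fun_prop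
    exact (hg.mul hc.measurable).aestronglyMeasurable
  · exact GX_intervalIntegrable hg huv hB (by fun_prop)
  · have hc : Continuous (fun x : ℝ => Complex.exp (-(s0 * x)) * (-(x : ℂ))) := by fun_prop
    exact (hg.mul hc.measurable).aestronglyMeasurable
  · refine Filter.Eventually.of_forall (fun x hx s hs => ?_)
    rw [Set.uIoc_of_le huv] at hx
    have hsn : ‖s‖ ≤ ‖s0‖ + 1 := by
      have h1 : ‖s - s0‖ < 1 := by
        rw [← dist_eq_norm]
        exact hs
      have h2 : ‖s‖ ≤ ‖s0‖ + ‖s - s0‖ := by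
        calc ‖s‖ = ‖s0 + (s - s0)‖ := by congr 1; ring
          _ ≤ _ := norm_add_le _ _
      linarith
    show ‖g x * (Complex.exp (-(s * x)) * (-(x : ℂ)))‖ ≤ _
    rw [norm_mul, norm_mul, norm_neg, Complex.norm_real, Real.norm_eq_abs, norm_cexp]
    have h1 := hB x (Set.Ioc_subset_Icc_self hx)
    have h2 := hxM x hx
    have h3 : Real.exp (-(s.re * x)) ≤ Real.exp ((‖s0‖ + 1) * M) := by
      rw [Real.exp_le_exp]
      calc -(s.re * x) ≤ |s.re * x| := neg_le_abs _
        _ = |s.re| * |x| := abs_mul _ _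
        _ ≤ ‖s‖ * M := mul_le_mul (Complex.abs_re_le_norm s) h2 (abs_nonneg _) (norm_nonneg _)
        _ ≤ (‖s0‖ + 1) * M := mul_le_mul_of_nonneg_right hsn (by positivity)
    have h4 : Real.exp (-(s.re * x)) * |x| ≤ Real.exp ((‖s0‖ + 1) * M) * M :=
      mul_le_mul h3 h2 (abs_nonneg _) (Real.exp_pos _).le
    exact mul_le_mul h1 h4 (by positivity) hB0
  · exact intervalIntegrable_const
  · refine Filter.Eventually.of_forall (fun x _ s _ => ?_)
    show HasDerivAt (fun s : ℂ => g x * Complex.exp (-(s * x)))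
      (g x * (Complex.exp (-(s * x)) * (-(x : ℂ)))) s
    refine HasDerivAt.const_mul (g x) ?_
    have h1 : HasDerivAt (fun s : ℂ => s * (x : ℂ)) (1 * (x : ℂ)) s :=
      (hasDerivAt_id' s).mul_const (x : ℂ)
    have h2 : HasDerivAt (fun s : ℂ => -(s * (x : ℂ))) (-(1 * (x : ℂ))) s := h1.neg
    rw [one_mul] at h2
    exact h2.cexp

lemma GX_norm_le {g : ℝ → ℂ} {u v B : ℝ} (huv : u ≤ v) (s : ℂ)
    (hB : ∀ x ∈ Set.Ioc u v, ‖g x‖ * Real.exp (-(s.re * x)) ≤ B) :
    ‖GX g u v s‖ ≤ B * (v - u) := by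
  have h := intervalIntegral.norm_integral_le_of_norm_le_const (a := u) (b := v) (C := B)
    (f := fun x => g x * Complex.exp (-(s * x))) (by
      intro x hx
      rw [Set.uIoc_of_le huv] at hx
      rw [norm_mul, norm_cexp]
      exact hB x hx)
  rw [abs_of_nonneg (by linarith)] at h
  exact h

/-- Crude bound on strips. -/
lemma GX_strip {g : ℝ → ℂ} {u v B : ℝ} (huv : u ≤ v)
    (hB : ∀ x ∈ Set.Icc u v, ‖g x‖ ≤ B) {R : ℝ} {s : ℂ} (hs : |s.re| ≤ R) :
    ‖GX g u v s‖ ≤ B * Real.exp (R * (|u| + |v|)) * (v - u) := by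
  have hB0 : 0 ≤ B := (norm_nonneg _).trans (hB u ⟨le_refl u, huv⟩)
  refine GX_norm_le huv s (fun x hx => ?_)
  have hxM : |x| ≤ |u| + |v| := by
    rw [abs_le]
    constructor
    · have := neg_abs_le u
      have := abs_nonneg v
      linarith [hx.1]
    · have := le_abs_self v
      have := abs_nonneg u
      linarith [hx.2]
  refine mul_le_mul (hB x (Set.Ioc_subset_Icc_self hx)) ?_ (Real.exp_pos _).le hB0
  rw [Real.exp_le_exp]
  calc -(s.re * x) ≤ |s.re * x| := neg_le_abs _
    _ = |s.re| * |x| := abs_mul _ _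
    _ ≤ R * (|u| + |v|) := mul_le_mul hs hxM (abs_nonneg _) ((abs_nonneg _).trans hs)

lemma PX_eq (T u v : ℝ) : PX T u v = GX (fun x => (DD T (Real.exp x) : ℂ)) u v := rfl

lemma mm_eq (T : ℝ) : mm T = GX (fun _ => 1) (-ell T) 0 := by
  funext s
  unfold mm GX
  simp

lemma dd_measurable (T : ℝ) : Measurable (fun x : ℝ => (DD T (Real.exp x) : ℂ)) :=
  Complex.measurable_ofReal.comp ((DD_measurable T).comp Real.measurable_exp)

lemma dd_norm {T : ℝ} (hT : 1 ≤ T) (x : ℝ) : ‖(DD T (Real.exp x) : ℂ)‖ ≤ Real.exp x + 1 := by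
  rw [Complex.norm_real, Real.norm_eq_abs]
  refine (DD_abs (by linarith) (Real.exp_pos x).le).trans ?_
  have : Real.exp x / T ≤ Real.exp x := div_le_self (Real.exp_pos x).le hT
  linarith

lemma dd_norm_le {T : ℝ} (hT : 1 ≤ T) {u v : ℝ} : ∀ x ∈ Set.Icc u v,
    ‖(DD T (Real.exp x) : ℂ)‖ ≤ Real.exp v + 1 := by
  intro x hx
  refine (dd_norm hT x).trans ?_
  have := Real.exp_le_exp.mpr hx.2
  linarith

lemma PX_diff {T : ℝ} (hT : 1 ≤ T) {u v : ℝ} (huv : u ≤ v) : Differentiable ℂ (PX T u v) := by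
  rw [PX_eq]
  exact GX_diff (dd_measurable T) huv (dd_norm_le hT)

lemma mm_diff {T : ℝ} (hT : 0 < T) : Differentiable ℂ (mm T) := by
  rw [mm_eq]
  exact GX_diff (B := 1) measurable_const (by have := ell_pos hT; linarith) (fun x _ => by simp)

lemma dd_zero {T : ℝ} (hT : 0 < T) {x : ℝ} (hx : x < -ell T) : DD T (Real.exp x) = 0 := by
  refine DD_zero ?_
  rw [← exp_ell hT, ← Real.exp_add, Real.exp_lt_one_iff]
  linarith

/-- Integrability of the Mellin integrand. -/
lemma dd_integrable {T : ℝ} (hT : 1 ≤ T) {s : ℂ} (hs : 1 < s.re) :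
    Integrable (fun x : ℝ => (DD T (Real.exp x) : ℂ) * Complex.exp (-(s * x))) := by
  have hT0 : 0 < T := by linarith
  have hb : Integrable (Set.indicator (Set.Ioi (-2 : ℝ))
      (fun x : ℝ => 4 * Real.exp ((1 - s.re) * x))) := by
    rw [integrable_indicator_iff measurableSet_Ioi]
    exact (integrableOn_exp_mul_Ioi (by linarith) _).const_mul 4
  refine hb.mono' ?_ ?_
  · have hc : Continuous (fun x : ℝ => Complex.exp (-(s * x))) := by fun_prop
    exact ((dd_measurable T).mul hc.measurable).aestronglyMeasurable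
  · refine Filter.Eventually.of_forall (fun x => ?_)
    rcases lt_or_ge x (-ell T) with hx | hx
    · rw [dd_zero hT0 hx]
      simp only [Complex.ofReal_zero, zero_mul, norm_zero]
      exact Set.indicator_nonneg (fun y _ => by positivity) x
    · have hell : ell T ≤ 1 := by
        refine (ell_le hT0).trans ?_
        rw [div_le_one hT0]
        exact hT
      have hx1 : -1 ≤ x := by linarith
      rw [Set.indicator_of_mem (show x ∈ Set.Ioi (-2 : ℝ) by rw [Set.mem_Ioi]; linarith)]
      rw [norm_mul, norm_cexp]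
      have h1 := dd_norm hT x
      have h2 : (1 : ℝ) ≤ 3 * Real.exp x := by
        have h3 : Real.exp (-1) ≤ Real.exp x := Real.exp_le_exp.mpr hx1
        have h4 : (1 : ℝ) / 3 ≤ Real.exp (-1) := by
          rw [Real.exp_neg, one_div]
          have := Real.exp_one_lt_d9
          exact inv_anti₀ (Real.exp_pos 1) (by linarith)
        linarith
      have h5 : ‖(DD T (Real.exp x) : ℂ)‖ ≤ 4 * Real.exp x := by linarith
      calc ‖(DD T (Real.exp x) : ℂ)‖ * Real.exp (-(s.re * x)) ≤
            4 * Real.exp x * Real.exp (-(s.re * x)) :=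
            mul_le_mul_of_nonneg_right h5 (Real.exp_pos _).le
        _ = 4 * Real.exp ((1 - s.re) * x) := by
            rw [mul_assoc, ← Real.exp_add]
            congr 2
            ring

/-- The tail of the transform. -/
noncomputable def P3 (T v : ℝ) (s : ℂ) : ℂ :=
  ∫ x in Set.Ioi v, (DD T (Real.exp x) : ℂ) * Complex.exp (-(s * x))

lemma P3_norm {T v : ℝ} (hT : 1 ≤ T) (hv : 0 ≤ v) {s : ℂ} (hs : 2 ≤ s.re) :
    ‖P3 T v s‖ ≤ 2 * Real.exp (-((s.re - 1) * v)) := by
  unfold P3
  have h1 : ‖∫ x in Set.Ioi v, (DD T (Real.exp x) : ℂ) * Complex.exp (-(s * x))‖ ≤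
      ∫ x in Set.Ioi v, 2 * Real.exp ((1 - s.re) * x) := by
    refine norm_integral_le_of_norm_le ?_ ?_
    · exact (integrableOn_exp_mul_Ioi (by linarith) _).const_mul 2
    · rw [ae_restrict_iff' measurableSet_Ioi]
      refine Filter.Eventually.of_forall (fun x hx => ?_)
      rw [Set.mem_Ioi] at hx
      rw [norm_mul, norm_cexp]
      have h1 := dd_norm hT x
      have h2 : (1 : ℝ) ≤ Real.exp x := Real.one_le_exp (by linarith)
      have h5 : ‖(DD T (Real.exp x) : ℂ)‖ ≤ 2 * Real.exp x := by linarith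
      calc ‖(DD T (Real.exp x) : ℂ)‖ * Real.exp (-(s.re * x)) ≤
            2 * Real.exp x * Real.exp (-(s.re * x)) :=
            mul_le_mul_of_nonneg_right h5 (Real.exp_pos _).le
        _ = 2 * Real.exp ((1 - s.re) * x) := by
            rw [mul_assoc, ← Real.exp_add]
            congr 2
            ring
  refine h1.trans ?_
  rw [integral_const_mul, integral_exp_mul_Ioi (by linarith)]
  have h6 : Real.exp ((1 - s.re) * v) = Real.exp (-((s.re - 1) * v)) := by
    congr 1
    ring
  rw [h6]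
  have h7 : -Real.exp (-((s.re - 1) * v)) / (1 - s.re) =
      Real.exp (-((s.re - 1) * v)) / (s.re - 1) := by
    rw [neg_div, ← div_neg]
    congr 1
    ring
  rw [h7]
  have h8 : Real.exp (-((s.re - 1) * v)) / (s.re - 1) ≤ Real.exp (-((s.re - 1) * v)) :=
    div_le_self (Real.exp_pos _).le (by linarith)
  linarith

/-- Splitting of the Mellin identity. -/
theorem mellin_split {T : ℝ} (hT : 1 ≤ T) {u v : ℝ} (hu : 0 ≤ u) (huv : u ≤ v) {s : ℂ}
    (hs : 1 < s.re) :
    zE s * (PX T (-ell T) u s + PX T u v s + P3 T v s) = (s - 1) * mm T s := by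
  have hT0 : 0 < T := by linarith
  rw [← mellin_identity hT0 hs]
  congr 1
  have hint := dd_integrable hT hs
  have h1 := intervalIntegral.integral_add_adjacent_intervals (μ := volume) (a := -ell T)
    (b := u) (c := v) (hint.intervalIntegrable) (hint.intervalIntegrable)
  have h2 := intervalIntegral.integral_interval_add_Ioi (μ := volume) (a := -ell T) (b := v)
    hint.integrableOn hint.integrableOn
  have h3 := intervalIntegral.integral_Iic_add_Ioi (μ := volume) (b := -ell T)
    hint.integrableOn hint.integrableOn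
  have h4 : ∫ x in Set.Iic (-ell T), (DD T (Real.exp x) : ℂ) * Complex.exp (-(s * x)) = 0 := by
    rw [integral_Iic_eq_integral_Iio]
    refine setIntegral_eq_zero_of_forall_eq_zero (fun x hx => ?_)
    rw [Set.mem_Iio] at hx
    rw [dd_zero hT0 hx]
    simp
  rw [h4, zero_add] at h3
  rw [← h3, ← h2, ← h1]
  rfl

end Pool.Agent.P4f18dfV
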