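import Pool.Agent.Lib.P4f18dfV.PZ2
import Pool.Agent.Lib.P4f18dfV.Crude
import Pool.Agent.Lib.P4f18dfV.Shift

/-!
# The identity given by one zero
-/

set_option autoImplicit false

open Complex MeasureTheory

namespace Pool.Agent.P4f18dfV

lemma le_exp_shape {K1 K2 y : ℝ} (h1 : 0 ≤ K1) (h2 : 0 ≤ K2) (hy : 0 ≤ y) :
    K1 * Real.exp (K2 * y) ≤ (K1 + K2) * Real.exp ((K1 + K2) * y) := by
  have h3 : Real.exp (K2 * y) ≤ Real.exp ((K1 + K2) * y) := by
    rw [Real.exp_le_exp]
    nlinarith [mul_nonneg h1 hy]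
  have h4 := Real.exp_pos (K2 * y)
  have h5 := Real.exp_pos ((K1 + K2) * y)
  nlinarith [mul_nonneg h2 h5.le, mul_le_mul_of_nonneg_left h3 h1]

lemma dslope_zE_diff (ρ : ℂ) : Differentiable ℂ (dslope zE ρ) := by
  rw [← differentiableOn_univ, Complex.differentiableOn_dslope (by simp)]
  exact zE_diff.differentiableOn

lemma dslope_zE_mul {ρ : ℂ} (hρ : zE ρ = 0) (s : ℂ) : (s - ρ) * dslope zE ρ s = zE s := by
  have h := sub_smul_dslope zE ρ s
  rw [smul_eq_mul, hρ, sub_zero] at h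
  exact h

lemma dslope_zE_norm {ρ : ℂ} (hρ : zE ρ = 0) {s : ℂ} {d : ℝ} (hd : 0 < d) (hs : d ≤ ‖s - ρ‖) :
    ‖dslope zE ρ s‖ ≤ ‖zE s‖ / d := by
  rw [le_div_iff₀ hd, ← dslope_zE_mul hρ s, norm_mul, mul_comm]
  exact mul_le_mul_of_nonneg_right hs (norm_nonneg _)

lemma dslope_zE_bound {ρ : ℂ} (hρ : zE ρ = 0) {R : ℝ} (hR : 2 ≤ R) : ∃ K : ℝ, 0 ≤ K ∧
    ∀ s : ℂ, |s.re| ≤ R → ‖dslope zE ρ s‖ ≤ K * Real.exp (K * |s.im|) := by
  obtain ⟨K, hK, h⟩ := zE_crude
  obtain ⟨M, hM⟩ := (isCompact_closedBall ρ 1).exists_bound_of_continuousOn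
    (dslope_zE_diff ρ).continuous.continuousOn
  have hM0 : 0 ≤ M := (norm_nonneg _).trans (hM ρ (Metric.mem_closedBall_self zero_le_one))
  set E : ℝ := Real.exp (K + K * R * Real.log R) with hE
  have hE0 : 0 < E := Real.exp_pos _
  refine ⟨M + E + K, by positivity, fun s hs => ?_⟩
  have hy : 0 ≤ |s.im| := abs_nonneg _
  have h1 : ‖dslope zE ρ s‖ ≤ (M + E) * Real.exp (K * |s.im|) := by
    have h1e : 1 ≤ Real.exp (K * |s.im|) := Real.one_le_exp (by positivity)
    by_cases hd : ‖s - ρ‖ ≤ 1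
    · have h2 := hM s (by rw [Metric.mem_closedBall, dist_eq_norm]; exact hd)
      nlinarith
    · push Not at hd
      have h2 := dslope_zE_norm hρ one_pos hd.le
      rw [div_one] at h2
      have h3 := h R hR s hs
      have h4 : Real.exp (K * (1 + |s.im|) + K * R * Real.log R) = E * Real.exp (K * |s.im|) := by
        rw [hE, ← Real.exp_add]
        congr 1
        ring
      rw [h4] at h3
      nlinarith [mul_nonneg hM0 (Real.exp_pos (K * |s.im|)).le]
  exact h1.trans (le_exp_shape (by positivity) hK.le hy)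

lemma line_cont {F : ℂ → ℂ} (hF : Continuous F) (a : ℝ) : Continuous (fun t : ℝ => F (a + t * I)) := by
  exact hF.comp (by fun_prop)

lemma line_re (a t : ℝ) : ((a : ℂ) + t * I).re = a := by simp

lemma line_im (a t : ℝ) : ((a : ℂ) + t * I).im = t := by simp

/-- Bound for a product with a function bounded on the strip. -/
lemma prod_bound {Q P : ℂ → ℂ} {R K B : ℝ} (hK0 : 0 ≤ K) (hB0 : 0 ≤ B)
    (hQ : ∀ s : ℂ, |s.re| ≤ R → ‖Q s‖ ≤ K * Real.exp (K * |s.im|))
    (hP : ∀ s : ℂ, |s.re| ≤ R → ‖P s‖ ≤ B) {s : ℂ} (hs : |s.re| ≤ R) :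
    ‖Q s * P s‖ ≤ (K * B + K) * Real.exp ((K * B + K) * |s.im|) := by
  rw [norm_mul]
  have h1 : ‖Q s‖ * ‖P s‖ ≤ K * Real.exp (K * |s.im|) * B :=
    mul_le_mul (hQ s hs) (hP s hs) (norm_nonneg _) (by positivity)
  refine h1.trans ?_
  have h2 := le_exp_shape (K1 := K * B) (K2 := K) (y := |s.im|) (by positivity) hK0 (abs_nonneg _)
  calc K * Real.exp (K * |s.im|) * B = K * B * Real.exp (K * |s.im|) := by ring
    _ ≤ _ := h2

/-- The identity given by one zero. -/
theorem core {T : ℝ} (hT : 1 ≤ T) {u v b h c a σ : ℝ} (hu : 0 ≤ u) (huv : u ≤ v) (hh : 0 < h)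
    {ρ : ℂ} (hρ : zE ρ = 0) (hβ0 : 1 / 2 ≤ ρ.re) (hβ1 : ρ.re < 1) (ha : a < σ) (hσ : σ < 1 / 2)
    (hc : 2 ≤ c) :
    2 * Real.pi * ((ρ - 1) * mm T ρ) =
      (∫ t : ℝ, dslope zE ρ (σ + t * I) * PX T u v (σ + t * I) * gk b h ρ (σ + t * I)) +
      (∫ t : ℝ, dslope zE ρ (a + t * I) * PX T (-ell T) u (a + t * I) * gk b h ρ (a + t * I)) +
      (∫ t : ℝ, dslope zE ρ (c + t * I) * P3 T v (c + t * I) * gk b h ρ (c + t * I)) -
      ∫ t : ℝ, ((a + t * I - 1 : ℂ) * mm T (a + t * I)) * gk b h ρ (a + t * I) / (a + t * I - ρ) := by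
  have hT0 : 0 < T := by linarith
  have hell := ell_pos hT0
  have hlu : -ell T ≤ u := by linarith
  set R : ℝ := |a| + |c| + 2 with hR
  have hR2 : 2 ≤ R := by
    have := abs_nonneg a
    have := abs_nonneg c
    linarith
  have hstrip : ∀ s : ℂ, a ≤ s.re → s.re ≤ c → |s.re| ≤ R := by
    intro s h1 h2
    rw [abs_le]
    constructor
    · have := neg_abs_le a
      have := abs_nonneg c
      linarith
    · have := le_abs_self c
      have := abs_nonneg a
      linarith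
  obtain ⟨K, hK0, hK⟩ := dslope_zE_bound hρ hR2
  -- the three bounded factors
  obtain ⟨B1, hB10, hB1⟩ : ∃ B : ℝ, 0 ≤ B ∧ ∀ s : ℂ, |s.re| ≤ R → ‖PX T (-ell T) u s‖ ≤ B := by
    refine ⟨(Real.exp u + 1) * Real.exp (R * (|(-ell T)| + |u|)) * (u - -ell T), ?_, fun s hs => ?_⟩
    · have : 0 ≤ u - -ell T := by linarith
      positivity
    · rw [PX_eq]
      exact GX_strip hlu (dd_norm_le hT) hs
  obtain ⟨B2, hB20, hB2⟩ : ∃ B : ℝ, 0 ≤ B ∧ ∀ s : ℂ, |s.re| ≤ R → ‖PX T u v s‖ ≤ B := by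
    refine ⟨(Real.exp v + 1) * Real.exp (R * (|u| + |v|)) * (v - u), ?_, fun s hs => ?_⟩
    · have : 0 ≤ v - u := by linarith
      positivity
    · rw [PX_eq]
      exact GX_strip huv (dd_norm_le hT) hs
  obtain ⟨B0, hB00, hB0⟩ : ∃ B : ℝ, 0 ≤ B ∧ ∀ s : ℂ, |s.re| ≤ R → ‖mm T s‖ ≤ B := by
    refine ⟨1 * Real.exp (R * (|(-ell T)| + |(0 : ℝ)|)) * (0 - -ell T), ?_, fun s hs => ?_⟩
    · have : 0 ≤ 0 - -ell T := by linarith
      positivity
    · rw [mm_eq]
      exact GX_strip (B := 1) (by linarith) (fun x _ => by simp) hs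
  -- F
  have hFd : Differentiable ℂ (fun s : ℂ => (s - 1) * mm T s) :=
    (differentiable_id.sub_const 1).mul (mm_diff hT0)
  have hFK0 : ∀ s : ℂ, |s.re| ≤ R → ‖s - 1‖ ≤ (R + 2) * Real.exp ((R + 2) * |s.im|) := by
    intro s hs
    have h1 : ‖s - 1‖ ≤ |(s - 1).re| + |(s - 1).im| := Complex.norm_le_abs_re_add_abs_im _
    have h2 : |(s - 1).re| ≤ R + 1 := by
      rw [Complex.sub_re, Complex.one_re]
      exact (abs_sub _ _).trans (by rw [abs_one]; linarith)
    have h3 : |(s - 1).im| = |s.im| := by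
      rw [Complex.sub_im, Complex.one_im, sub_zero]
    have h4 : |s.im| ≤ Real.exp ((R + 2) * |s.im|) - 1 := by
      have := Real.add_one_le_exp ((R + 2) * |s.im|)
      nlinarith [abs_nonneg s.im]
    have h5 : 1 ≤ Real.exp ((R + 2) * |s.im|) := Real.one_le_exp (by positivity)
    nlinarith
  have hFK : ∀ s : ℂ, |s.re| ≤ R → ‖(s - 1) * mm T s‖ ≤
      ((R + 2) * B0 + (R + 2)) * Real.exp (((R + 2) * B0 + (R + 2)) * |s.im|) :=
    fun s hs => prod_bound (Q := fun s => s - 1) (P := mm T) (by linarith) hB00 hFK0 hB0 hs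
  have h1 := shift_pole hFd (a := a) (b := c) (fun s ha hb => hFK s (hstrip s ha hb)) hh b ρ
    (by linarith) (by linarith)
  -- the integrands on the line c
  set Q := dslope zE ρ with hQdef
  have hQd : Differentiable ℂ Q := dslope_zE_diff ρ
  have hcR : ∀ t : ℝ, |((c : ℂ) + t * I).re| ≤ R := by
    intro t
    rw [line_re]
    exact (by have := abs_nonneg a; linarith : |c| ≤ R)
  have i1 := shift_integrable (F := fun s => Q s * PX T (-ell T) u s) (a := c)
    (K := K * B1 + K)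
    (line_cont ((hQd.mul (PX_diff hT hlu)).continuous) c)
    (fun t => by
      have h := prod_bound hK0 hB10 hK hB1 (hcR t)
      rw [line_im] at h
      exact h) hh b ρ
  have i2 := shift_integrable (F := fun s => Q s * PX T u v s) (a := c)
    (K := K * B2 + K)
    (line_cont ((hQd.mul (PX_diff hT huv)).continuous) c)
    (fun t => by
      have h := prod_bound hK0 hB20 hK hB2 (hcR t)
      rw [line_im] at h
      exact h) hh b ρ
  have hcne : ∀ t : ℝ, (c : ℂ) + t * I - ρ ≠ 0 := by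
    intro t h0
    have h1 : ((c : ℂ) + t * I - ρ).re = 0 := by rw [h0]; simp
    rw [Complex.sub_re, line_re] at h1
    linarith
  have hcge : ∀ t : ℝ, 1 ≤ ‖(c : ℂ) + t * I - ρ‖ := by
    intro t
    refine le_trans ?_ (Complex.abs_re_le_norm _)
    rw [Complex.sub_re, line_re, abs_of_nonneg (by linarith)]
    linarith
  have i0 := shift_integrable (F := fun s => (s - 1) * mm T s / (s - ρ)) (a := c)
    (K := (R + 2) * B0 + (R + 2))
    (by
      have hc1 : Continuous (fun t : ℝ => ((c : ℂ) + t * I - 1) * mm T (c + t * I)) :=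
        line_cont hFd.continuous c
      exact hc1.div (by fun_prop) hcne)
    (fun t => by
      have h := hFK _ (hcR t)
      rw [line_im] at h
      rw [norm_div]
      exact (div_le_self (norm_nonneg _) (hcge t)).trans h) hh b ρ
  have hpt : ∀ t : ℝ, ((c : ℂ) + t * I - 1) * mm T (c + t * I) / (c + t * I - ρ) *
      gk b h ρ (c + t * I) =
      Q (c + t * I) * PX T (-ell T) u (c + t * I) * gk b h ρ (c + t * I) +
      Q (c + t * I) * PX T u v (c + t * I) * gk b h ρ (c + t * I) +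
      Q (c + t * I) * P3 T v (c + t * I) * gk b h ρ (c + t * I) := by
    intro t
    have hm := mellin_split hT hu huv (s := (c : ℂ) + t * I) (by rw [line_re]; linarith)
    rw [← hm, ← dslope_zE_mul hρ ((c : ℂ) + t * I)]
    have hne := hcne t
    field_simp
    ring
  have i3 : Integrable (fun t : ℝ => Q (c + t * I) * P3 T v (c + t * I) * gk b h ρ (c + t * I)) := by
    refine ((i0.sub i1).sub i2).congr (Filter.Eventually.of_forall (fun t => ?_))
    show ((c : ℂ) + t * I - 1) * mm T (c + t * I) / (c + t * I - ρ) * gk b h ρ (c + t * I) -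
      Q (c + t * I) * PX T (-ell T) u (c + t * I) * gk b h ρ (c + t * I) -
      Q (c + t * I) * PX T u v (c + t * I) * gk b h ρ (c + t * I) = _
    rw [hpt t]
    ring
  have hsum : ∫ t : ℝ, ((c + t * I - 1 : ℂ) * mm T (c + t * I)) * gk b h ρ (c + t * I) /
      (c + t * I - ρ) =
      (∫ t : ℝ, Q (c + t * I) * PX T (-ell T) u (c + t * I) * gk b h ρ (c + t * I)) +
      (∫ t : ℝ, Q (c + t * I) * PX T u v (c + t * I) * gk b h ρ (c + t * I)) +
      ∫ t : ℝ, Q (c + t * I) * P3 T v (c + t * I) * gk b h ρ (c + t * I) := by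
    have i12 : Integrable (fun t : ℝ =>
      Q (c + t * I) * PX T (-ell T) u (c + t * I) * gk b h ρ (c + t * I) +
      Q (c + t * I) * PX T u v (c + t * I) * gk b h ρ (c + t * I)) := i1.add i2
    rw [← integral_add i1 i2, ← integral_add i12 i3]
    refine integral_congr_ae (Filter.Eventually.of_forall (fun t => ?_))
    show ((c : ℂ) + t * I - 1) * mm T (c + t * I) * gk b h ρ (c + t * I) / (c + t * I - ρ) =
      Q (c + t * I) * PX T (-ell T) u (c + t * I) * gk b h ρ (c + t * I) +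
      Q (c + t * I) * PX T u v (c + t * I) * gk b h ρ (c + t * I) +
      Q (c + t * I) * P3 T v (c + t * I) * gk b h ρ (c + t * I)
    rw [← hpt t]
    ring
  have h2 := shift (hQd.mul (PX_diff hT hlu)) (a := a) (b := c) (by linarith)
    (fun s ha hb => prod_bound hK0 hB10 hK hB1 (hstrip s ha hb)) hh b ρ
  have h3 := shift (hQd.mul (PX_diff hT huv)) (a := σ) (b := c) (by linarith)
    (fun s hs1 hb => prod_bound hK0 hB20 hK hB2 (hstrip s (by linarith) hb)) hh b ρ
  simp only [Pi.mul_apply] at h2 h3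
  rw [h2, h3]
  rw [hsum] at h1
  linear_combination -h1

end Pool.Agent.P4f18dfV
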