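import Pool.Agent.Lib.P4f18dfV.PZ4
import Pool.Agent.Lib.P4f18dfV.HalfPlane

/-!
# The three error terms
-/

set_option autoImplicit false

open Complex MeasureTheory

namespace Pool.Agent.P4f18dfV

/-- The integral of the main function on the far left line. -/
lemma err0 {κ : ℝ} (hκ : 0 < κ) : ∃ G : ℝ, 0 < G ∧ ∀ (T u b h n L : ℝ) (ρ : ℂ),
    16 ≤ T → L = Real.log T → 1 ≤ L → 0 ≤ u → L ≤ b → h ^ 2 / 2 = κ * L → κ * (n + 1) ^ 2 ≤ 1 →
    16 ≤ n → 1 / 2 ≤ ρ.re → ρ.re < 1 → T / 8 ≤ ρ.im → ρ.im ≤ T / 4 →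
    ‖∫ t : ℝ, (((-n : ℝ) + t * I - 1 : ℂ) * mm T ((-n : ℝ) + t * I)) * gk b h ρ ((-n : ℝ) + t * I) /
      ((-n : ℝ) + t * I - ρ)‖ ≤ G * Real.exp (-(2 * L)) := by
  obtain ⟨G, hG, hGb⟩ := gauss_bound hκ 0
  refine ⟨G, hG, ?_⟩
  intro T u b h n L ρ hT hL hL1 hu hb hh hκn hn hβ0 hβ1 hg0 hg1
  have hT0 : 0 < T := by linarith
  have hγ : 0 ≤ ρ.im := by linarith
  have hTe : T = Real.exp L := by rw [hL, Real.exp_log hT0]
  have key := hGb L ρ.im (Real.exp (-(2 * L))) hL1 hγ (Real.exp_pos _).le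
    (fun t : ℝ => (((-n : ℝ) + t * I - 1 : ℂ) * mm T ((-n : ℝ) + t * I)) *
      gk b h ρ ((-n : ℝ) + t * I) / ((-n : ℝ) + t * I - ρ)) ?_
  · refine key.trans (le_of_eq ?_)
    ring
  · intro t
    set s : ℂ := ((-n : ℝ) : ℂ) + t * I with hs
    have hsre : s.re = -n := line_re _ _
    have h1 : ‖mm T s‖ ≤ 1 := mm_upper (by linarith) (by rw [hsre]; linarith)
    have h2 : 1 ≤ ‖s - ρ‖ := by
      refine le_trans ?_ (Complex.abs_re_le_norm _)
      rw [Complex.sub_re, hsre, abs_of_nonpos (by linarith)]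
      linarith
    have h3 : ‖s - 1‖ ≤ T * ‖s - ρ‖ := by
      have h4 : ‖s - 1‖ ≤ ‖s - ρ‖ + ‖ρ - 1‖ := by
        calc ‖s - 1‖ = ‖(s - ρ) + (ρ - 1)‖ := by congr 1; ring
          _ ≤ _ := norm_add_le _ _
      have h5 : ‖ρ - 1‖ ≤ 1 + T / 4 := by
        refine (Complex.norm_le_abs_re_add_abs_im _).trans ?_
        rw [Complex.sub_re, Complex.sub_im, Complex.one_re, Complex.one_im, sub_zero,
          abs_of_nonneg hγ, abs_of_nonpos (by linarith)]
        linarith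
      nlinarith
    have h4 : ‖gk b h ρ s‖ ≤ Real.exp (-(3 * L)) * Real.exp (-(κ * L * (t - ρ.im) ^ 2)) := by
      rw [hs, gk_line, hh]
      refine mul_le_mul_of_nonneg_right ?_ (Real.exp_pos _).le
      rw [Real.exp_le_exp]
      have h6 : κ * (-n - ρ.re) ^ 2 ≤ 1 := by
        refine le_trans ?_ hκn
        refine mul_le_mul_of_nonneg_left ?_ hκ.le
        nlinarith
      have h7 : κ * L * (-n - ρ.re) ^ 2 ≤ L := by
        have := mul_le_mul_of_nonneg_left h6 (show (0 : ℝ) ≤ L by linarith)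
        linarith
      have h8 : L * (n + ρ.re) ≤ b * (n + ρ.re) := mul_le_mul_of_nonneg_right hb (by linarith)
      have h9 : L * 16 ≤ L * (n + ρ.re) := mul_le_mul_of_nonneg_left (by linarith) (by linarith)
      have h10 : b * (-n - ρ.re) = -(b * (n + ρ.re)) := by ring
      rw [h10]
      linarith
    show ‖((s - 1) * mm T s) * gk b h ρ s / (s - ρ)‖ ≤ _
    rw [norm_div, norm_mul, norm_mul, pow_zero, mul_one, div_le_iff₀ (by linarith)]
    calc ‖s - 1‖ * ‖mm T s‖ * ‖gk b h ρ s‖ ≤ (T * ‖s - ρ‖) * 1 *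
          (Real.exp (-(3 * L)) * Real.exp (-(κ * L * (t - ρ.im) ^ 2))) := by
          refine mul_le_mul (mul_le_mul h3 h1 (norm_nonneg _) (by positivity)) h4 (norm_nonneg _)
            (by positivity)
      _ = (T * Real.exp (-(3 * L))) * Real.exp (-(κ * L * (t - ρ.im) ^ 2)) * ‖s - ρ‖ := by ring
      _ = _ := by
          congr 2
          rw [hTe, ← Real.exp_add]
          congr 1
          ring

/-- The first part, on the far left line. -/
lemma err1 {κ : ℝ} (hκ : 0 < κ) (n : ℕ) (hn16 : 16 ≤ n) : ∃ G : ℝ, 0 < G ∧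
    ∀ (ε T u b h L : ℝ) (ρ : ℂ), 0 < ε → ε < 1 → 16 / ε ^ 2 ≤ n →
    16 ≤ T → L = Real.log T → 1 ≤ L → 0 ≤ u → u ≤ L / ε → b = u + (1 + ε / 2) * L →
    h ^ 2 / 2 = κ * L → κ * ((n : ℝ) + 1) ^ 2 ≤ 1 → zE ρ = 0 →
    1 / 2 ≤ ρ.re → ρ.re < 1 → T / 8 ≤ ρ.im → ρ.im ≤ T / 4 →
    ‖∫ t : ℝ, dslope zE ρ ((-(n : ℝ) : ℝ) + t * I) * PX T (-ell T) u ((-(n : ℝ) : ℝ) + t * I) *
      gk b h ρ ((-(n : ℝ) : ℝ) + t * I)‖ ≤ G * Real.exp (-(2 * L)) := by
  obtain ⟨G, hG, hGb⟩ := gauss_bound hκ (n + 2)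
  obtain ⟨K, hK, hKb⟩ := zeta_left n (by omega)
  refine ⟨2 * K * G, by positivity, ?_⟩
  intro ε T u b h L ρ hε hε1 hnε hT hL hL1 hu huL hb hh hκn hρ hβ0 hβ1 hg0 hg1
  have hn : (16 : ℝ) ≤ n := by exact_mod_cast hn16
  have hT0 : 0 < T := by linarith
  have hγ : 0 ≤ ρ.im := by linarith
  have hTe : T = Real.exp L := by rw [hL, Real.exp_log hT0]
  have hL0 : 0 ≤ L := by linarith
  set A : ℝ := 2 * K * Real.exp (((n : ℝ) + 2) * u - b * (n + 1 / 2) + L) with hA
  have key := hGb L ρ.im A hL1 hγ (by positivity)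
    (fun t : ℝ => dslope zE ρ ((-(n : ℝ) : ℝ) + t * I) *
      PX T (-ell T) u ((-(n : ℝ) : ℝ) + t * I) * gk b h ρ ((-(n : ℝ) : ℝ) + t * I)) ?_
  · refine key.trans ?_
    have h1 : (1 + ρ.im) ^ (n + 2) ≤ Real.exp (((n : ℝ) + 2) * L) := by
      calc (1 + ρ.im) ^ (n + 2) ≤ T ^ (n + 2) := pow_le_pow_left₀ (by linarith) (by linarith) _
        _ = Real.exp (((n : ℝ) + 2) * L) := by
          rw [hTe, ← Real.exp_nat_mul]
          push_cast
          rfl
    have h2 : ((n : ℝ) + 2) * u - b * (n + 1 / 2) + L + ((n : ℝ) + 2) * L ≤ -(2 * L) := by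
      rw [hb]
      have h3 : ((n : ℝ) + 2) * u - (u + (1 + ε / 2) * L) * (n + 1 / 2) + L + ((n : ℝ) + 2) * L =
          3 / 2 * u + 5 / 2 * L - ε / 2 * (n + 1 / 2) * L := by ring
      rw [h3]
      have h4 : 8 / ε ≤ ε / 2 * (n + 1 / 2) := by
        have h5 : ε / 2 * (16 / ε ^ 2) ≤ ε / 2 * (n + 1 / 2) :=
          mul_le_mul_of_nonneg_left (by linarith) (by positivity)
        have h6 : ε / 2 * (16 / ε ^ 2) = 8 / ε := by
          field_simp
          ring
        linarith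
      have h5 : 8 / ε * L ≤ ε / 2 * (n + 1 / 2) * L := mul_le_mul_of_nonneg_right h4 hL0
      have h6 : 1 ≤ 1 / ε := by
        rw [le_div_iff₀ hε]
        linarith
      have h7 : L ≤ L / ε := by
        calc L = L * 1 := by ring
          _ ≤ L * (1 / ε) := mul_le_mul_of_nonneg_left h6 hL0
          _ = L / ε := by ring
      have h8 : 8 / ε * L = 8 * (L / ε) := by ring
      linarith
    calc A * (1 + ρ.im) ^ (n + 2) * G ≤ A * Real.exp (((n : ℝ) + 2) * L) * G := by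
          refine mul_le_mul_of_nonneg_right ?_ hG.le
          exact mul_le_mul_of_nonneg_left h1 (by positivity)
      _ = 2 * K * G * Real.exp (((n : ℝ) + 2) * u - b * (n + 1 / 2) + L + ((n : ℝ) + 2) * L) := by
          rw [hA, Real.exp_add (((n : ℝ) + 2) * u - b * (n + 1 / 2) + L)]
          ring
      _ ≤ 2 * K * G * Real.exp (-(2 * L)) :=
          mul_le_mul_of_nonneg_left (Real.exp_le_exp.mpr h2) (by positivity)
  · intro t
    set s : ℂ := ((-(n : ℝ) : ℝ) : ℂ) + t * I with hs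
    have hsre : s.re = -(n : ℝ) := line_re _ _
    have h2 : 1 ≤ ‖s - ρ‖ := by
      refine le_trans ?_ (Complex.abs_re_le_norm _)
      rw [Complex.sub_re, hsre, abs_of_nonpos (by linarith)]
      linarith
    have h1 : ‖dslope zE ρ s‖ ≤ K * (1 + |t|) ^ (n + 2) := by
      have h3 := dslope_zE_norm hρ one_pos h2
      rw [div_one] at h3
      refine h3.trans ?_
      have h4 := hKb t
      have h5 : -(n : ℂ) + t * I = s := by
        rw [hs]
        push_cast
        rfl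
      rw [h5] at h4
      exact h4
    have h3 : ‖PX T (-ell T) u s‖ ≤ 2 * Real.exp (((n : ℝ) + 2) * u) :=
      P1_norm (by linarith) hu (by linarith) hsre
    have h4 : ‖gk b h ρ s‖ ≤ Real.exp (-(b * (n + 1 / 2)) + L) *
        Real.exp (-(κ * L * (t - ρ.im) ^ 2)) := by
      rw [hs, gk_line, hh]
      refine mul_le_mul_of_nonneg_right ?_ (Real.exp_pos _).le
      rw [Real.exp_le_exp]
      have h6 : κ * (-(n : ℝ) - ρ.re) ^ 2 ≤ 1 := by
        refine le_trans ?_ hκn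
        refine mul_le_mul_of_nonneg_left ?_ hκ.le
        nlinarith
      have h7 : κ * L * (-(n : ℝ) - ρ.re) ^ 2 ≤ L := by
        have := mul_le_mul_of_nonneg_left h6 hL0
        linarith
      have hb0 : 0 ≤ b := by
        rw [hb]
        positivity
      have h8 : b * (n + 1 / 2) ≤ b * (n + ρ.re) := mul_le_mul_of_nonneg_left (by linarith) hb0
      have h10 : b * (-(n : ℝ) - ρ.re) = -(b * (n + ρ.re)) := by ring
      rw [h10]
      linarith
    show ‖dslope zE ρ s * PX T (-ell T) u s * gk b h ρ s‖ ≤ _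
    rw [norm_mul, norm_mul]
    calc ‖dslope zE ρ s‖ * ‖PX T (-ell T) u s‖ * ‖gk b h ρ s‖ ≤
          (K * (1 + |t|) ^ (n + 2)) * (2 * Real.exp (((n : ℝ) + 2) * u)) *
          (Real.exp (-(b * (n + 1 / 2)) + L) * Real.exp (-(κ * L * (t - ρ.im) ^ 2))) :=
          mul_le_mul (mul_le_mul h1 h3 (norm_nonneg _) (by positivity)) h4 (norm_nonneg _)
            (by positivity)
      _ = (2 * K * (Real.exp (((n : ℝ) + 2) * u) * Real.exp (-(b * (n + 1 / 2)) + L))) *
          (1 + |t|) ^ (n + 2) * Real.exp (-(κ * L * (t - ρ.im) ^ 2)) := by ring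
      _ = _ := by
          rw [hA, ← Real.exp_add]
          congr 4
          ring

/-- The third part, on the far right line. -/
lemma err3 {κ : ℝ} (hκ : 0 < κ) (n : ℕ) (hn16 : 16 ≤ n) : ∃ G : ℝ, 0 < G ∧
    ∀ (ε T u b h L v : ℝ) (ρ : ℂ), 0 < ε → ε < 1 → 16 / ε ^ 2 ≤ n →
    16 ≤ T → L = Real.log T → 1 ≤ L → 0 ≤ u → u ≤ L / ε → b = u + (1 + ε / 2) * L →
    v = u + (1 + ε) * L →
    h ^ 2 / 2 = κ * L → κ * ((n : ℝ) + 1) ^ 2 ≤ 1 → zE ρ = 0 →
    1 / 2 ≤ ρ.re → ρ.re < 1 → T / 8 ≤ ρ.im → ρ.im ≤ T / 4 →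
    ‖∫ t : ℝ, dslope zE ρ ((n : ℝ) + t * I) * P3 T v ((n : ℝ) + t * I) *
      gk b h ρ ((n : ℝ) + t * I)‖ ≤ G * Real.exp (-(2 * L)) := by
  obtain ⟨G, hG, hGb⟩ := gauss_bound hκ 2
  obtain ⟨C, hC, hCb⟩ := zE_half
  refine ⟨2 * (C * (1 + n) ^ 2) * G, by positivity, ?_⟩
  intro ε T u b h L v ρ hε hε1 hnε hT hL hL1 hu huL hb hv hh hκn hρ hβ0 hβ1 hg0 hg1
  have hn : (16 : ℝ) ≤ n := by exact_mod_cast hn16
  have hT0 : 0 < T := by linarith
  have hγ : 0 ≤ ρ.im := by linarith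
  have hTe : T = Real.exp L := by rw [hL, Real.exp_log hT0]
  have hL0 : 0 ≤ L := by linarith
  have hv0 : 0 ≤ v := by
    rw [hv]
    positivity
  set A : ℝ := 2 * (C * (1 + n) ^ 2) * Real.exp (-(((n : ℝ) - 1) * v) + (b * (n - 1 / 2) + L)) with hA
  have key := hGb L ρ.im A hL1 hγ (by positivity)
    (fun t : ℝ => dslope zE ρ ((n : ℝ) + t * I) * P3 T v ((n : ℝ) + t * I) *
      gk b h ρ ((n : ℝ) + t * I)) ?_
  · refine key.trans ?_
    have h1 : (1 + ρ.im) ^ 2 ≤ Real.exp (2 * L) := by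
      calc (1 + ρ.im) ^ 2 ≤ T ^ 2 := pow_le_pow_left₀ (by linarith) (by linarith) _
        _ = Real.exp (2 * L) := by
          rw [hTe, ← Real.exp_nat_mul]
          push_cast
          rfl
    have h2 : -(((n : ℝ) - 1) * v) + (b * (n - 1 / 2) + L) + 2 * L ≤ -(2 * L) := by
      rw [hb, hv]
      have h3 : -(((n : ℝ) - 1) * (u + (1 + ε) * L)) + ((u + (1 + ε / 2) * L) * (n - 1 / 2) + L) +
          2 * L = 1 / 2 * u + (7 / 2 + 3 / 4 * ε) * L - ε / 2 * n * L := by ring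
      rw [h3]
      have h4 : 8 / ε ≤ ε / 2 * n := by
        have h5 : ε / 2 * (16 / ε ^ 2) ≤ ε / 2 * n :=
          mul_le_mul_of_nonneg_left hnε (by positivity)
        have h6 : ε / 2 * (16 / ε ^ 2) = 8 / ε := by
          field_simp
          ring
        linarith
      have h5 : 8 / ε * L ≤ ε / 2 * n * L := mul_le_mul_of_nonneg_right h4 hL0
      have h6 : 1 ≤ 1 / ε := by
        rw [le_div_iff₀ hε]
        linarith
      have h7 : L ≤ L / ε := by
        calc L = L * 1 := by ring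
          _ ≤ L * (1 / ε) := mul_le_mul_of_nonneg_left h6 hL0
          _ = L / ε := by ring
      have h8 : 8 / ε * L = 8 * (L / ε) := by ring
      have h9 : ε * L ≤ L := by nlinarith
      linarith
    calc A * (1 + ρ.im) ^ 2 * G ≤ A * Real.exp (2 * L) * G := by
          refine mul_le_mul_of_nonneg_right ?_ hG.le
          exact mul_le_mul_of_nonneg_left h1 (by positivity)
      _ = 2 * (C * (1 + n) ^ 2) * G *
            Real.exp (-(((n : ℝ) - 1) * v) + (b * (n - 1 / 2) + L) + 2 * L) := by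
          rw [hA, Real.exp_add (-(((n : ℝ) - 1) * v) + (b * (n - 1 / 2) + L))]
          ring
      _ ≤ 2 * (C * (1 + n) ^ 2) * G * Real.exp (-(2 * L)) :=
          mul_le_mul_of_nonneg_left (Real.exp_le_exp.mpr h2) (by positivity)
  · intro t
    set s : ℂ := ((n : ℝ) : ℂ) + t * I with hs
    have hsre : s.re = (n : ℝ) := line_re _ _
    have h2 : 1 ≤ ‖s - ρ‖ := by
      refine le_trans ?_ (Complex.abs_re_le_norm _)
      rw [Complex.sub_re, hsre, abs_of_nonneg (by linarith)]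
      linarith
    have h1 : ‖dslope zE ρ s‖ ≤ C * (1 + n) ^ 2 * (1 + |t|) ^ 2 := by
      have h3 := dslope_zE_norm hρ one_pos h2
      rw [div_one] at h3
      refine h3.trans ((hCb s (by rw [hsre]; linarith)).trans ?_)
      rw [mul_assoc]
      refine mul_le_mul_of_nonneg_left ?_ hC.le
      have h4 : ‖s‖ ≤ n + |t| := by
        refine (Complex.norm_le_abs_re_add_abs_im _).trans ?_
        rw [hsre, line_im, abs_of_nonneg (by linarith)]
      refine (pow_le_pow_left₀ (by positivity) (by linarith) 2).trans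
        (one_add_pow_le (a := (n : ℝ)) (b := |t|) (by linarith) (abs_nonneg _) 2)
    have h3 : ‖P3 T v s‖ ≤ 2 * Real.exp (-(((n : ℝ) - 1) * v)) := by
      have := P3_norm (T := T) (v := v) (by linarith) hv0 (s := s) (by rw [hsre]; linarith)
      rw [hsre] at this
      exact this
    have h4 : ‖gk b h ρ s‖ ≤ Real.exp (b * (n - 1 / 2) + L) *
        Real.exp (-(κ * L * (t - ρ.im) ^ 2)) := by
      rw [hs, gk_line, hh]
      refine mul_le_mul_of_nonneg_right ?_ (Real.exp_pos _).le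
      rw [Real.exp_le_exp]
      have h6 : κ * ((n : ℝ) - ρ.re) ^ 2 ≤ 1 := by
        refine le_trans ?_ hκn
        refine mul_le_mul_of_nonneg_left ?_ hκ.le
        nlinarith
      have h7 : κ * L * ((n : ℝ) - ρ.re) ^ 2 ≤ L := by
        have := mul_le_mul_of_nonneg_left h6 hL0
        linarith
      have hb0 : 0 ≤ b := by
        rw [hb]
        positivity
      have h8 : b * (n - ρ.re) ≤ b * (n - 1 / 2) := mul_le_mul_of_nonneg_left (by linarith) hb0
      linarith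
    show ‖dslope zE ρ s * P3 T v s * gk b h ρ s‖ ≤ _
    rw [norm_mul, norm_mul]
    calc ‖dslope zE ρ s‖ * ‖P3 T v s‖ * ‖gk b h ρ s‖ ≤
          (C * (1 + n) ^ 2 * (1 + |t|) ^ 2) * (2 * Real.exp (-(((n : ℝ) - 1) * v))) *
          (Real.exp (b * (n - 1 / 2) + L) * Real.exp (-(κ * L * (t - ρ.im) ^ 2))) :=
          mul_le_mul (mul_le_mul h1 h3 (norm_nonneg _) (by positivity)) h4 (norm_nonneg _)
            (by positivity)
      _ = (2 * (C * (1 + n) ^ 2) * (Real.exp (-(((n : ℝ) - 1) * v)) *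
            Real.exp (b * (n - 1 / 2) + L))) *
          (1 + |t|) ^ 2 * Real.exp (-(κ * L * (t - ρ.im) ^ 2)) := by ring
      _ = _ := by
          rw [hA, ← Real.exp_add]

end Pool.Agent.P4f18dfV
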